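import Pool.Agent.H98.Q.Mart

/-!
# The martingale part: almost sure convergence of the characteristic functions
-/

set_option autoImplicit false
set_option linter.unusedSectionVars false
set_option linter.unusedVariables false

open MeasureTheory Filter Topology

namespace Pool.Agent.H98.Q

variable {Ω : Type*} {E : Type*} [Fintype E] [Nonempty E] {τ : E → Ω → Ω}

/-- mean absolute value over the directions -/
noncomputable def mab (H : E → Ω → ℝ) (ω : Ω) : ℝ := (Fintype.card E : ℝ)⁻¹ * ∑ e, |H e ω|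

/-- truncated mean square -/
noncomputable def tru (H : E → Ω → ℝ) (K : ℕ) (ω : Ω) : ℝ :=
  (Fintype.card E : ℝ)⁻¹ * ∑ e, 4 * ((H e ω) ^ 2 * min 1 (|H e ω| * (√(K : ℝ))⁻¹))

theorem mab_nonneg (H : E → Ω → ℝ) (ω : Ω) : 0 ≤ mab H ω :=
  mul_nonneg (by positivity) (Finset.sum_nonneg fun _ _ => abs_nonneg _)

theorem tru_nonneg (H : E → Ω → ℝ) (K : ℕ) (ω : Ω) : 0 ≤ tru H K ω :=
  mul_nonneg (by positivity) (Finset.sum_nonneg fun _ _ => by positivity)

theorem tru_anti (H : E → Ω → ℝ) {K N : ℕ} (hK : 0 < K) (hKN : K ≤ N) (ω : Ω) :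
    tru H N ω ≤ tru H K ω := by
  refine mul_le_mul_of_nonneg_left (Finset.sum_le_sum fun e _ => ?_) (by positivity)
  have h1 : (√(N : ℝ))⁻¹ ≤ (√(K : ℝ))⁻¹ :=
    inv_anti₀ (Real.sqrt_pos.2 (by exact_mod_cast hK)) (Real.sqrt_le_sqrt (by exact_mod_cast hKN))
  gcongr

/-- one step of the twisted operator -/
theorem one_step {δ : E → Ω → ℝ} {h : Ω → ℝ} {C : ℝ} (hC : ∀ ω, |h ω| ≤ C) {v : ℝ} (hv : 0 ≤ v)
    {N : ℕ} (hN : 0 < N) {ω : Ω} (hsum : ∑ e, δ e ω = 0) :
    ‖Sop τ δ (√(N : ℝ))⁻¹ (fun _ => 1) ω - Real.exp (-(v / (2 * N))) +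
      ((1 / (2 * N) : ℝ) : ℂ) * (h ω - Sop τ δ (√(N : ℝ))⁻¹ (fun ω => (h ω : ℂ)) ω)‖ ≤
      (1 / N) * tru δ N ω + (v / (2 * N)) ^ 2 +
      (1 / (2 * N)) * |msq δ ω - v - (h ω - T τ h ω)| +
      (1 / (2 * N)) * (C * (√(N : ℝ))⁻¹ * mab δ ω) := by
  have hN' : (0 : ℝ) < N := by exact_mod_cast hN
  set s := (√(N : ℝ))⁻¹ with hs
  have hs0 : 0 ≤ s := by positivity
  have hs2 : s ^ 2 = 1 / N := by
    rw [hs, inv_pow, Real.sq_sqrt hN'.le, one_div]
  set k : ℝ := (Fintype.card E : ℝ)⁻¹ with hk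
  have hk0 : 0 ≤ k := by positivity
  have hkc : ((Fintype.card E : ℂ)⁻¹) = (k : ℂ) := by rw [hk]; push_cast; rfl
  have hk1 : k * ∑ _e : E, (1 : ℝ) = 1 := by
    rw [Finset.sum_const, Finset.card_univ, nsmul_eq_mul, mul_one, hk, card_mul_inv]
  -- first piece
  set X1 : ℂ := Sop τ δ s (fun _ => 1) ω - 1 + ((msq δ ω / (2 * N) : ℝ) : ℂ) with hX1
  have b1 : ‖X1‖ ≤ (1 / N) * tru δ N ω := by
    have e1 : X1 = (k : ℂ) * ∑ e, (Complex.exp ((s * δ e ω : ℝ) * Complex.I) - 1 -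
        (s * δ e ω : ℝ) * Complex.I + ((s * δ e ω : ℝ) : ℂ) ^ 2 / 2) := by
      rw [Finset.sum_add_distrib, Finset.sum_sub_distrib, Finset.sum_sub_distrib]
      have z1 : ∑ e, ((s * δ e ω : ℝ) : ℂ) * Complex.I = 0 := by
        rw [← Finset.sum_mul, ← Complex.ofReal_sum, ← Finset.mul_sum, hsum]; simp
      have z2 : ∑ e, ((s * δ e ω : ℝ) : ℂ) ^ 2 / 2 =
          (((∑ e, (δ e ω) ^ 2) * s ^ 2 / 2 : ℝ) : ℂ) := by
        push_cast
        rw [Finset.sum_mul, Finset.sum_div]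
        exact Finset.sum_congr rfl fun e _ => by ring
      have z3 : (k : ℂ) * ∑ _e : E, (1 : ℂ) = 1 := by exact_mod_cast hk1
      rw [z1, z2, hX1, Sop_apply, hkc]
      simp only [mul_one]
      have z4 : ((msq δ ω / (2 * N) : ℝ) : ℂ) =
          (k : ℂ) * (((∑ e, (δ e ω) ^ 2) * s ^ 2 / 2 : ℝ) : ℂ) := by
        rw [← Complex.ofReal_mul, hs2, msq, ← hk]
        congr 1
        field_simp
      rw [z4]
      linear_combination z3
    rw [e1, norm_mul, Complex.norm_real, Real.norm_eq_abs, abs_of_nonneg hk0, tru, ← hk,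
      mul_left_comm, Finset.mul_sum]
    refine mul_le_mul_of_nonneg_left ?_ hk0
    refine (norm_sum_le _ _).trans (Finset.sum_le_sum fun e _ => ?_)
    refine (exp_it_bound (s * δ e ω)).trans (le_of_eq ?_)
    rw [mul_pow, hs2, abs_mul, abs_of_nonneg hs0, mul_comm s]
    ring
  -- second piece
  have b2 : |1 - v / (2 * N) - Real.exp (-(v / (2 * N)))| ≤ (v / (2 * N)) ^ 2 := by
    set x := v / (2 * N) with hx
    have hx0 : 0 ≤ x := by positivity
    have l1 : 1 - x ≤ Real.exp (-x) := by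
      have := Real.add_one_le_exp (-x); linarith
    have l2 : Real.exp (-x) ≤ 1 - x + x ^ 2 := by
      rcases le_or_gt x 1 with h1 | h1
      · have := Real.abs_exp_sub_one_sub_id_le (x := -x) (by rw [abs_neg, abs_of_nonneg hx0]; exact h1)
        have := (abs_le.1 this).2
        nlinarith
      · have : Real.exp (-x) ≤ 1 := Real.exp_le_one_iff.2 (by linarith)
        nlinarith
    rw [abs_le]
    constructor <;> nlinarith
  -- third piece
  set X3 : ℂ := Sop τ δ s (fun ω => (h ω : ℂ)) ω - (T τ h ω : ℂ) with hX3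
  have b3 : ‖X3‖ ≤ C * s * mab δ ω := by
    have e1 : X3 = (k : ℂ) * ∑ e, (Complex.exp ((s * δ e ω : ℝ) * Complex.I) - 1) * h (τ e ω) := by
      rw [hX3, Sop_apply, T, hkc, ← hk]
      push_cast
      simp only [sub_mul, Finset.sum_sub_distrib, one_mul, mul_sub]
    rw [e1, norm_mul, Complex.norm_real, Real.norm_eq_abs, abs_of_nonneg hk0, mab, ← hk]
    have e2 : C * s * (k * ∑ e, |δ e ω|) = k * ∑ e, C * s * |δ e ω| := by
      rw [← Finset.mul_sum]; ring
    rw [e2]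
    refine mul_le_mul_of_nonneg_left ?_ hk0
    refine (norm_sum_le _ _).trans (Finset.sum_le_sum fun e _ => ?_)
    rw [norm_mul, Complex.norm_real, Real.norm_eq_abs]
    have h1 := exp_it_one (s * δ e ω)
    rw [abs_mul, abs_of_nonneg hs0] at h1
    have h2 := hC (τ e ω)
    calc _ ≤ (s * |δ e ω|) * C := mul_le_mul h1 h2 (abs_nonneg _) (by positivity)
      _ = _ := by ring
  have hc0 : (0 : ℝ) ≤ 1 / (2 * N) := by positivity
  have etot : Sop τ δ s (fun _ => 1) ω - Real.exp (-(v / (2 * N))) +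
      ((1 / (2 * N) : ℝ) : ℂ) * (h ω - Sop τ δ s (fun ω => (h ω : ℂ)) ω) =
      X1 + ((1 - v / (2 * N) - Real.exp (-(v / (2 * N))) : ℝ) : ℂ) -
        ((1 / (2 * N) : ℝ) : ℂ) * ((msq δ ω - v - (h ω - T τ h ω) : ℝ) : ℂ) -
        ((1 / (2 * N) : ℝ) : ℂ) * X3 := by
    rw [hX1, hX3]
    push_cast
    ring
  rw [etot]
  refine (norm_sub_le _ _).trans (add_le_add ((norm_sub_le _ _).trans (add_le_add
    ((norm_add_le _ _).trans (add_le_add b1 ?_)) ?_)) ?_)
  · rw [Complex.norm_real, Real.norm_eq_abs]; exact b2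
  · rw [norm_mul, Complex.norm_real, Complex.norm_real, Real.norm_eq_abs, Real.norm_eq_abs,
      abs_of_nonneg hc0]
  · rw [norm_mul, Complex.norm_real, Real.norm_eq_abs, abs_of_nonneg hc0]
    exact mul_le_mul_of_nonneg_left b3 hc0

section meas

variable [MeasurableSpace Ω] {P : Measure Ω} [IsProbabilityMeasure P]

theorem tru_meas {δ : E → Ω → ℝ} (h : ∀ e, Measurable (δ e)) (K : ℕ) : Measurable (tru δ K) := by
  refine (Finset.measurable_sum _ fun e _ => ?_).const_mul _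
  exact (((h e).pow_const 2).mul (measurable_const.min ((h e).abs.mul_const _))).const_mul _

theorem tru_term_int {δ : E → Ω → ℝ} (h : ∀ e, Measurable (δ e)) (hL : ∀ e, MemLp (δ e) 2 P)
    (K : ℕ) (e : E) :
    Integrable (fun ω => 4 * ((δ e ω) ^ 2 * min 1 (|δ e ω| * (√(K : ℝ))⁻¹))) P := by
  refine Integrable.const_mul ?_ _
  refine (hL e).integrable_sq.mono
    (((h e).pow_const 2).mul (measurable_const.min ((h e).abs.mul_const _))).aestronglyMeasurable
    (Eventually.of_forall fun ω => ?_)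
  have h0 : 0 ≤ min 1 (|δ e ω| * (√(K : ℝ))⁻¹) := by positivity
  rw [Real.norm_eq_abs, Real.norm_eq_abs, abs_of_nonneg (mul_nonneg (sq_nonneg (δ e ω)) h0),
    abs_of_nonneg (sq_nonneg (δ e ω))]
  exact mul_le_of_le_one_right (sq_nonneg _) (min_le_left _ _)

theorem tru_int {δ : E → Ω → ℝ} (h : ∀ e, Measurable (δ e)) (hL : ∀ e, MemLp (δ e) 2 P) (K : ℕ) :
    Integrable (tru δ K) P :=
  (integrable_finsetSum _ fun e _ => tru_term_int h hL K e).const_mul _

theorem tru_lim {δ : E → Ω → ℝ} (h : ∀ e, Measurable (δ e)) (hL : ∀ e, MemLp (δ e) 2 P) :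
    Tendsto (fun K => ∫ ω, tru δ K ω ∂P) atTop (𝓝 0) := by
  have h1 : ∀ e, Tendsto (fun K : ℕ => ∫ ω, 4 * ((δ e ω) ^ 2 * min 1 (|δ e ω| * (√(K : ℝ))⁻¹)) ∂P)
      atTop (𝓝 (∫ ω, (0 : ℝ) ∂P)) := by
    intro e
    refine tendsto_integral_of_dominated_convergence (fun ω => 4 * (δ e ω) ^ 2)
      (fun K => (tru_term_int h hL K e).1) ((hL e).integrable_sq.const_mul 4) (fun K => ?_) ?_
    · refine Eventually.of_forall fun ω => ?_
      rw [Real.norm_eq_abs, abs_of_nonneg (by positivity)]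
      have := mul_le_of_le_one_right (sq_nonneg (δ e ω)) (min_le_left 1 (|δ e ω| * (√(K : ℝ))⁻¹))
      linarith
    · refine Eventually.of_forall fun ω => ?_
      have h2 : Tendsto (fun K : ℕ => (√(K : ℝ))⁻¹) atTop (𝓝 0) :=
        (tendsto_inv_atTop_zero.comp Real.tendsto_sqrt_atTop).comp tendsto_natCast_atTop_atTop
      have h3 : Tendsto (fun K : ℕ => min 1 (|δ e ω| * (√(K : ℝ))⁻¹)) atTop
          (𝓝 (min 1 (|δ e ω| * 0))) := tendsto_const_nhds.min (h2.const_mul _)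
      have h4 := (h3.const_mul ((δ e ω) ^ 2)).const_mul 4
      simpa using h4
  have h5 : (fun K => ∫ ω, tru δ K ω ∂P) = fun K : ℕ => (Fintype.card E : ℝ)⁻¹ *
      ∑ e, ∫ ω, 4 * ((δ e ω) ^ 2 * min 1 (|δ e ω| * (√(K : ℝ))⁻¹)) ∂P := by
    funext K
    simp only [tru]
    rw [integral_const_mul, integral_finsetSum _ (fun e _ => tru_term_int h hL K e)]
  rw [h5]
  have h6 := (tendsto_finsetSum Finset.univ fun e _ => h1 e).const_mul (Fintype.card E : ℝ)⁻¹
  simpa using h6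

/-- **Martingale central limit theorem**, quenched, for the characteristic functions. -/
theorem mart (hτ : ∀ e, MeasurePreserving (τ e) P P) {e0 : E} (he : Ergodic (τ e0) P)
    {δ : E → Ω → ℝ} (hδm : ∀ e, Measurable (δ e)) (hδL : ∀ e, MemLp (δ e) 2 P)
    (hsum : ∀ᵐ ω ∂P, ∑ e, δ e ω = 0) :
    ∀ᵐ ω ∂P, Tendsto (fun N : ℕ => ((Sop τ δ (√(N : ℝ))⁻¹) ^ N) (fun _ => 1) ω) atTop
      (𝓝 (Real.exp (-((∫ ω, msq δ ω ∂P) / 2)) : ℂ)) := by
  set v := ∫ ω, msq δ ω ∂P with hv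
  have hv0 : 0 ≤ v := integral_nonneg fun ω => msq_nonneg _ _
  -- decomposition of the variance
  choose h hhm hhb hhle using fun k : ℕ =>
    decomp hτ he (msq_meas hδm) (msq_int hδL) (ε := (1 / 4) ^ k) (by positivity)
  choose C hC using hhb
  have hhi : ∀ k, Integrable (h k) P := fun k => (memLp_bdd (hhm k) (hC k) 1).integrable le_rfl
  set G : ℕ → Ω → ℝ := fun k ω => |msq δ ω - v - (h k ω - T τ (h k) ω)| with hG
  have hGm : ∀ k, Measurable (G k) := fun k =>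
    (((msq_meas hδm).sub measurable_const).sub ((hhm k).sub (T_meas hτ (hhm k)))).abs
  have hGi : ∀ k, Integrable (G k) P := fun k =>
    (((msq_int hδL).sub (integrable_const _)).sub ((hhi k).sub (T_int hτ (hhi k)))).abs
  have hG1 := ae_small hτ hGm hGi (fun k ω => abs_nonneg _) hhle
  -- truncations
  have hK : ∀ k : ℕ, ∃ K : ℕ, 0 < K ∧ ∫ ω, tru δ K ω ∂P ≤ (1 / 4) ^ k := fun k => by
    have := (tru_lim hδm hδL).eventually (ge_mem_nhds (by positivity : (0 : ℝ) < (1 / 4) ^ k))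
    obtain ⟨K, h1, h2⟩ := (this.and (eventually_gt_atTop 0)).exists
    exact ⟨K, h2, h1⟩
  choose K hK0 hKle using hK
  have hG2 := ae_small hτ (G := fun k => tru δ (K k)) (fun k => tru_meas hδm _)
    (fun k => tru_int hδm hδL _) (fun k ω => tru_nonneg _ _ _) hKle
  -- mean absolute value
  have hMm : Measurable (mab δ) := (Finset.measurable_sum _ fun e _ => (hδm e).abs).const_mul _
  have hMi : Integrable (mab δ) P :=
    (integrable_finsetSum _ fun e _ => ((hδL e).integrable (by norm_num)).abs).const_mul _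
  have hB := ae_bdd hτ hMm hMi (mab_nonneg δ)
  obtain ⟨S, hS1, hS2, hS3⟩ := exists_inv hτ hsum
  filter_upwards [hG1, hG2, hB, hS1] with ω g1 g2 g3 g4
  obtain ⟨B, hB0, hB1⟩ := g3
  -- main bound
  have main : ∀ᶠ k in atTop, ∀ N : ℕ, K k ≤ N →
      ‖((Sop τ δ (√(N : ℝ))⁻¹) ^ N) (fun _ => 1) ω - (Real.exp (-(v / 2)) : ℂ)‖ ≤
      2 * (1 / 2) ^ k + (C k * (N : ℝ)⁻¹ + v ^ 2 * (N : ℝ)⁻¹ + C k * B * (√(N : ℝ))⁻¹) := by
    filter_upwards [g1, g2] with k hk1 hk2 N hN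
    have hN0 : 0 < N := lt_of_lt_of_le (hK0 k) hN
    have hN' : (0 : ℝ) < N := by exact_mod_cast hN0
    have hCk : 0 ≤ C k := (abs_nonneg _).trans (hC k ω)
    set s := (√(N : ℝ))⁻¹ with hs
    have hs0 : 0 ≤ s := by positivity
    set ρ : Ω → ℝ := ((1 / N : ℝ) • tru δ (K k)) + (fun _ => (v / (2 * N)) ^ 2) +
      ((1 / (2 * N) : ℝ) • G k) + ((1 / (2 * N) * (C k * s) : ℝ) • mab δ) with hρ
    have hstep : ∀ ω' ∈ S, ‖Sop τ δ s (fun _ => 1) ω' - (Real.exp (-(v / (2 * N))) : ℝ) +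
        ((1 / (2 * N) : ℝ) : ℂ) * (h k ω' - Sop τ δ s (fun ω => (h k ω : ℂ)) ω')‖ ≤ ρ ω' := by
      intro ω' hω'
      refine (one_step (hC k) hv0 hN0 (hS3 ω' hω')).trans ?_
      have h1 := tru_anti δ (hK0 k) hN ω'
      have h2 := mul_le_mul_of_nonneg_left h1 (by positivity : (0 : ℝ) ≤ 1 / N)
      simp only [hρ, Pi.add_apply, Pi.smul_apply, smul_eq_mul, hG]
      linarith
    have hrec := Sop_recursion hS2 δ s (Real.exp_pos _).le
      (Real.exp_le_one_iff.2 (by rw [neg_nonpos]; positivity)) (by positivity) (hC k) hstep N ω g4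
    have hpow : ((Real.exp (-(v / (2 * N))) : ℝ) : ℂ) ^ N = (Real.exp (-(v / 2)) : ℂ) := by
      rw [← Complex.ofReal_pow, ← Real.exp_nat_mul]
      congr 2
      field_simp
    rw [hpow] at hrec
    have hSh : ‖((1 / (2 * N) : ℝ) : ℂ) * ((Sop τ δ s) ^ N) (fun ω => (h k ω : ℂ)) ω‖ ≤
        1 / (2 * N) * C k := by
      rw [norm_mul, Complex.norm_real, Real.norm_eq_abs, abs_of_nonneg (by positivity)]
      refine mul_le_mul_of_nonneg_left ?_ (by positivity)
      have := Sop_norm hS2 δ s (F := fun ω => (h k ω : ℂ)) (G := fun _ => C k)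
        (fun ω _ => by rw [Complex.norm_real]; exact hC k ω) N ω g4
      rwa [iter_const] at this
    have hsumρ : ∑ j ∈ Finset.range N, (T τ)^[j] ρ ω ≤
        (1 / 2) ^ k + v ^ 2 * (N : ℝ)⁻¹ + (1 / 2) ^ k + C k * B * s := by
      have e1 : ∀ j, (T τ)^[j] ρ ω = (1 / N) * (T τ)^[j] (tru δ (K k)) ω + (v / (2 * N)) ^ 2 +
          (1 / (2 * N)) * (T τ)^[j] (G k) ω + (1 / (2 * N) * (C k * s)) * (T τ)^[j] (mab δ) ω := by
        intro j
        rw [hρ, iter_add, iter_add, iter_add, iter_smul, iter_smul, iter_smul, iter_const]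
        rfl
      simp only [e1, Finset.sum_add_distrib, ← Finset.mul_sum, Finset.sum_const,
        Finset.card_range, nsmul_eq_mul]
      have a1 : (1 / N : ℝ) * ∑ j ∈ Finset.range N, (T τ)^[j] (tru δ (K k)) ω ≤ (1 / 2) ^ k := by
        have := mul_le_mul_of_nonneg_left (hk2 N) (by positivity : (0 : ℝ) ≤ 1 / N)
        refine this.trans (le_of_eq ?_)
        field_simp
      have a2 : (N : ℝ) * (v / (2 * N)) ^ 2 ≤ v ^ 2 * (N : ℝ)⁻¹ := by
        have : (N : ℝ) * (v / (2 * N)) ^ 2 = v ^ 2 * (N : ℝ)⁻¹ / 4 := by field_simp; ring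
        rw [this]
        have : 0 ≤ v ^ 2 * (N : ℝ)⁻¹ := by positivity
        linarith
      have a3 : (1 / (2 * N) : ℝ) * ∑ j ∈ Finset.range N, (T τ)^[j] (G k) ω ≤ (1 / 2) ^ k := by
        have := mul_le_mul_of_nonneg_left (hk1 N) (by positivity : (0 : ℝ) ≤ 1 / (2 * N))
        refine this.trans ?_
        have e : (1 / (2 * N) : ℝ) * ((1 / 2) ^ k * N) = (1 / 2) ^ k / 2 := by field_simp
        rw [e]
        have : (0 : ℝ) ≤ (1 / 2) ^ k := by positivity
        linarith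
      have a4 : (1 / (2 * N) * (C k * s) : ℝ) * ∑ j ∈ Finset.range N, (T τ)^[j] (mab δ) ω ≤
          C k * B * s := by
        have := mul_le_mul_of_nonneg_left (hB1 N)
          (by positivity : (0 : ℝ) ≤ 1 / (2 * N) * (C k * s))
        refine this.trans ?_
        have e : (1 / (2 * N) * (C k * s) : ℝ) * (B * N) = C k * B * s / 2 := by field_simp
        rw [e]
        have : 0 ≤ C k * B * s := by positivity
        linarith
      linarith
    have hfin : ((Sop τ δ s) ^ N) (fun _ => 1) ω - (Real.exp (-(v / 2)) : ℂ) =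
        (((Sop τ δ s) ^ N) (fun _ => 1) ω - (Real.exp (-(v / 2)) : ℂ) -
          ((1 / (2 * N) : ℝ) : ℂ) * ((Sop τ δ s) ^ N) (fun ω => (h k ω : ℂ)) ω) +
          ((1 / (2 * N) : ℝ) : ℂ) * ((Sop τ δ s) ^ N) (fun ω => (h k ω : ℂ)) ω := by ring
    rw [hfin]
    refine (norm_add_le _ _).trans ?_
    have e5 : (1 / (2 * N) : ℝ) * C k + 1 / (2 * N) * C k = C k * (N : ℝ)⁻¹ := by field_simp; ring
    linarith
  rw [Metric.tendsto_atTop]
  intro ε hε
  have hpow : Tendsto (fun k : ℕ => 2 * (1 / 2 : ℝ) ^ k) atTop (𝓝 0) := by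
    have := (tendsto_pow_atTop_nhds_zero_of_lt_one (by norm_num : (0 : ℝ) ≤ 1 / 2)
      (by norm_num)).const_mul 2
    simpa using this
  obtain ⟨k, hk1, hk2⟩ := (main.and (hpow.eventually (gt_mem_nhds (half_pos hε)))).exists
  have hinv : Tendsto (fun N : ℕ => (N : ℝ)⁻¹) atTop (𝓝 0) := tendsto_inv_atTop_nhds_zero_nat
  have hsq : Tendsto (fun N : ℕ => (√(N : ℝ))⁻¹) atTop (𝓝 0) :=
    (tendsto_inv_atTop_zero.comp Real.tendsto_sqrt_atTop).comp tendsto_natCast_atTop_atTop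
  have hrest : Tendsto (fun N : ℕ => C k * (N : ℝ)⁻¹ + v ^ 2 * (N : ℝ)⁻¹ +
      C k * B * (√(N : ℝ))⁻¹) atTop (𝓝 0) := by
    have := ((hinv.const_mul (C k)).add (hinv.const_mul (v ^ 2))).add (hsq.const_mul (C k * B))
    simpa using this
  obtain ⟨N0, hN0⟩ := eventually_atTop.1 (hrest.eventually (gt_mem_nhds (half_pos hε)))
  refine ⟨max N0 (K k), fun N hN => ?_⟩
  rw [dist_eq_norm]
  have h1 := hk1 N (le_trans (le_max_right _ _) hN)
  have h2 := hN0 N (le_trans (le_max_left _ _) hN)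
  linarith

end meas

end Pool.Agent.H98.Q
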