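import Pool.Agent.H98.Q.Walk
import Pool.Agent.H98.Q.MartLim

/-!
# From the environment to the walk
-/

set_option autoImplicit false
set_option linter.unusedSectionVars false
set_option linter.unusedVariables false

open Filter Topology

namespace Pool.Agent.H98.Q

theorem sum_avg_mulC {V J : Type*} [Fintype J] {σ : J → Equiv.Perm V} (S : Sym σ) {p : V → ℝ}
    (hf : p.support.Finite) (G : V → ℂ) :
    ∑' x, (avg σ p x : ℂ) * G x = ∑' x, (p x : ℂ) * ((Fintype.card J : ℂ)⁻¹ * ∑ j, G (σ j x)) := by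
  have e1 : ∀ x, (avg σ p x : ℂ) * G x =
      (Fintype.card J : ℂ)⁻¹ * ∑ j, (p (σ j x) : ℂ) * G x := fun x => by
    rw [avg]; push_cast; rw [mul_assoc, Finset.sum_mul]
  have e2 : ∀ x, (p x : ℂ) * ((Fintype.card J : ℂ)⁻¹ * ∑ j, G (σ j x)) =
      (Fintype.card J : ℂ)⁻¹ * ∑ j, (p x : ℂ) * G (σ j x) := fun x => by
    rw [← Finset.mul_sum]; ring
  simp only [e1, e2]
  have hs : ∀ {f : V → ℂ}, f.support.Finite → Summable f := fun hf =>
    summable_of_hasFiniteSupport hf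
  rw [tsum_mul_left, tsum_mul_left, Summable.tsum_finsetSum, Summable.tsum_finsetSum]
  · congr 1
    rw [← S.bij.sum_comp (fun j => ∑' x, (p (σ j x) : ℂ) * G x)]
    refine Finset.sum_congr rfl fun j _ => ?_
    rw [← (σ j).tsum_eq (fun x => (p (σ (S.inv j) x) : ℂ) * G x)]
    refine tsum_congr fun x => ?_
    have : σ (S.inv j) (σ j x) = x := by rw [S.eq]; simp
    rw [this]
  · intro j _
    exact hs (hf.subset fun x hx hx0 => hx (by simp [show p x = 0 from hx0]))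
  · intro j _
    exact hs ((fin_comp hf (σ j)).subset fun x hx hx0 => hx (by
      simp [show p (σ j x) = 0 from hx0]))

variable {ι : Type*} [Fintype ι] [DecidableEq ι] [Nonempty ι] {Ω : Type*}

/-- the walk seen from an environment `ω` -/
structure Env (τ : ι × Bool → Ω → Ω) (ω : Ω) where
  W : Walk ι
  θ : (ι → ℤ) → Ω
  zero : θ 0 = ω
  step : ∀ x ∈ W.A, ∀ e, θ (W.s e x) = τ e (θ x)

namespace Env

variable {τ : ι × Bool → Ω → Ω} {ω : Ω} (V : Env τ ω)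

theorem summ (n : ℕ) (f : (ι → ℤ) → ℝ) : Summable fun x => V.W.q n x * f x :=
  summable_of_fin (fin_of_one (V.W.q_fin n) fun x hx => by rw [hx, zero_mul])

theorem sum_T (n : ℕ) (G : Ω → ℝ) : ∑' x, V.W.q n x * G (V.θ x) = (T τ)^[n] G ω := by
  induction n generalizing G with
  | zero =>
    rw [tsum_eq_single 0]
    · simp [Walk.q, V.zero]
    · intro x hx; simp [Walk.q, hx]
  | succ n ih =>
    rw [Walk.q, sum_avg_mul V.W.sym (V.W.q_fin n), Function.iterate_succ_apply, ← ih (T τ G)]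
    refine tsum_congr fun x => ?_
    by_cases hx : V.W.q n x = 0
    · simp [hx]
    · have hA := V.W.q_mem n x hx
      congr 1
      rw [T]
      congr 1
      exact Finset.sum_congr rfl fun e _ => by rw [V.step x hA e]

theorem sum_S (n : ℕ) {δ : ι × Bool → Ω → ℝ} {y : (ι → ℤ) → ℝ} (s : ℝ)
    (hy : ∀ n x, V.W.q n x ≠ 0 → ∀ e, y (V.W.s e x) = y x + δ e (V.θ x)) (F : Ω → ℂ) :
    ∑' x, (V.W.q n x : ℂ) * (Complex.exp ((s * y x : ℝ) * Complex.I) * F (V.θ x)) =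
      Complex.exp ((s * y 0 : ℝ) * Complex.I) * ((Sop τ δ s) ^ n) F ω := by
  induction n generalizing F with
  | zero =>
    rw [tsum_eq_single 0]
    · simp [Walk.q, V.zero]
    · intro x hx; simp [Walk.q, hx]
  | succ n ih =>
    rw [Walk.q, sum_avg_mulC V.W.sym (V.W.q_fin n), pow_succ, Module.End.mul_apply,
      ← ih (Sop τ δ s F)]
    refine tsum_congr fun x => ?_
    by_cases hx : V.W.q n x = 0
    · simp [hx]
    · have hA := V.W.q_mem n x hx
      congr 1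
      rw [Sop_apply, mul_left_comm (Complex.exp ((s * y x : ℝ) * Complex.I))]
      congr 1
      rw [Finset.mul_sum]
      refine Finset.sum_congr rfl fun e _ => ?_
      rw [V.step x hA e, hy n x hx e, ← mul_assoc, ← Complex.exp_add]
      congr 2
      push_cast
      ring

theorem en_formula (n : ℕ) (φ : (ι → ℤ) → ℝ) : en V.W.s φ (V.W.q n) =
    ∑' x, V.W.q n x * ((Fintype.card (ι × Bool) : ℝ)⁻¹ * ∑ e, (φ (V.W.s e x) - φ x) ^ 2) := by
  rw [en]
  have : ∀ x, V.W.q n x * ((Fintype.card (ι × Bool) : ℝ)⁻¹ * ∑ e, (φ (V.W.s e x) - φ x) ^ 2) =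
      (Fintype.card (ι × Bool) : ℝ)⁻¹ * ∑ e, V.W.q n x * (φ (V.W.s e x) - φ x) ^ 2 := fun x => by
    rw [← Finset.mul_sum]; ring
  simp only [this]
  rw [tsum_mul_left, Summable.tsum_finsetSum (fun e _ => V.summ n _)]

theorem en_le (n : ℕ) {φ : (ι → ℤ) → ℝ} {g : Ω → ℝ}
    (h : ∀ x ∈ V.W.A, (Fintype.card (ι × Bool) : ℝ)⁻¹ * ∑ e, (φ (V.W.s e x) - φ x) ^ 2 ≤
      g (V.θ x)) :
    en V.W.s φ (V.W.q n) ≤ (T τ)^[n] g ω := by
  rw [← V.sum_T n g, en_formula]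
  refine (V.summ n _).tsum_le_tsum (fun x => ?_) (V.summ n _)
  by_cases hx : V.W.q n x = 0
  · simp [hx]
  · exact mul_le_mul_of_nonneg_left (h x (V.W.q_mem n x hx)) (V.W.q_nonneg n x)

/-- the Nash–Bass bound in terms of functions on the environment space -/
theorem core (hd : 1 < Fintype.card ι) {g : Ω → ℝ}
    (hg : ∀ x ∈ V.W.A, (Fintype.card (ι × Bool) : ℝ)⁻¹ *
      ∑ e, (nrm (V.W.s e x) - nrm x) ^ 2 ≤ g (V.θ x))
    {B : ℝ} (hB0 : 0 ≤ B) (hB : ∀ n : ℕ, ∑ j ∈ Finset.range n, (T τ)^[j] g ω ≤ B * n) :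
    ∃ R : ℝ, 0 ≤ R ∧ ∀ (φ : (ι → ℤ) → ℝ) (g' : Ω → ℝ) (B' : ℝ), 0 ≤ B' →
      (∀ x ∈ V.W.A, (Fintype.card (ι × Bool) : ℝ)⁻¹ * ∑ e, (φ (V.W.s e x) - φ x) ^ 2 ≤
        g' (V.θ x)) →
      (∀ n : ℕ, ∑ j ∈ Finset.range n, (T τ)^[j] g' ω ≤ B' * n) →
      ∀ l : ℝ, 0 < l → ∀ n : ℕ,
        fm φ (V.W.q n) ≤ |φ 0| + fm φ (V.W.q 1) + √(n : ℝ) * (R * l + 12 * B' * l⁻¹) := by
  obtain ⟨R, hR, H⟩ := V.W.core hd hB0 (fun n =>
    (Finset.sum_le_sum fun k _ => V.en_le k hg).trans (hB n))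
  exact ⟨R, hR, fun φ g' B' hB' hg' hBg' => H φ B' hB' fun n =>
    (Finset.sum_le_sum fun k _ => V.en_le k hg').trans (hBg' n)⟩

/-- **Sublinearity of the corrector** in `L¹` along the walk. -/
theorem sublin (hd : 1 < Fintype.card ι) {g : Ω → ℝ}
    (hg : ∀ x ∈ V.W.A, (Fintype.card (ι × Bool) : ℝ)⁻¹ *
      ∑ e, (nrm (V.W.s e x) - nrm x) ^ 2 ≤ g (V.θ x))
    {B : ℝ} (hB0 : 0 ≤ B) (hB : ∀ n : ℕ, ∑ j ∈ Finset.range n, (T τ)^[j] g ω ≤ B * n)
    {u : ℕ → Ω → ℝ} (hu : ∀ m, ∃ C, ∀ ω, |u m ω| ≤ C)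
    (hsm : ∀ᶠ k in atTop, ∀ n : ℕ, ∑ j ∈ Finset.range n,
      (T τ)^[j] (((4 : ℝ) ^ k) • msq (gr τ (u (k + 1) - u k))) ω ≤ (1 / 2) ^ k * n)
    {χ : (ι → ℤ) → ℝ} (hχ : ∀ n x, V.W.q n x ≠ 0 →
      Tendsto (fun m => u m (V.θ x) - u m ω) atTop (𝓝 (χ x))) :
    Tendsto (fun n : ℕ => (√(n : ℝ))⁻¹ * fm χ (V.W.q n)) atTop (𝓝 0) := by
  obtain ⟨R, hR, H⟩ := V.core hd hg hB0 hB
  set w : ℕ → (ι → ℤ) → ℝ := fun m x => u m (V.θ x) - u m ω with hw
  obtain ⟨k0, hk0⟩ := eventually_atTop.1 hsm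
  -- increments
  have hinc : ∀ m, k0 ≤ m → ∀ n : ℕ, fm (w (m + 1) - w m) (V.W.q n) ≤
      (1 / 2) ^ m * (1 + √(n : ℝ) * (R + 12)) := by
    intro m hm n
    set v : Ω → ℝ := u (m + 1) - u m with hv
    have hφ : w (m + 1) - w m = fun x => v (V.θ x) - v ω := by
      funext x; simp only [hw, hv, Pi.sub_apply]; ring
    have hen : ∀ x ∈ V.W.A, (Fintype.card (ι × Bool) : ℝ)⁻¹ *
        ∑ e, ((w (m + 1) - w m) (V.W.s e x) - (w (m + 1) - w m) x) ^ 2 ≤
        msq (gr τ v) (V.θ x) := by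
      intro x hx
      rw [msq]
      refine le_of_eq ?_
      congr 1
      refine Finset.sum_congr rfl fun e _ => ?_
      rw [hφ, gr, ← V.step x hx e]
      ring
    have hBv : ∀ n : ℕ, ∑ j ∈ Finset.range n, (T τ)^[j] (msq (gr τ v)) ω ≤ (1 / 8) ^ m * n := by
      intro n
      have h1 := hk0 m hm n
      simp only [iter_smul, Pi.smul_apply, smul_eq_mul, ← Finset.mul_sum] at h1
      have h4 : (0 : ℝ) < 4 ^ m := by positivity
      have h2 : ∑ j ∈ Finset.range n, (T τ)^[j] (msq (gr τ v)) ω ≤ (4 ^ m)⁻¹ * ((1 / 2) ^ m * n) := by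
        rw [← div_eq_inv_mul, le_div_iff₀ h4, mul_comm]; exact h1
      refine h2.trans (le_of_eq ?_)
      rw [← mul_assoc, ← inv_pow, ← mul_pow]; norm_num
    have h1 := H (w (m + 1) - w m) (msq (gr τ v)) ((1 / 8) ^ m) (by positivity) hen hBv
      ((1 / 2) ^ m) (by positivity) n
    have h0 : (w (m + 1) - w m) 0 = 0 := by
      rw [hφ]; simp only [V.zero]; ring
    have hq1 : fm (w (m + 1) - w m) (V.W.q 1) ≤ (1 / 2) ^ m := by
      have e1 : fm (w (m + 1) - w m) (V.W.q 1) =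
          (Fintype.card (ι × Bool) : ℝ)⁻¹ * ∑ e, |gr τ v e ω| := by
        rw [fm, hφ, V.sum_T 1 (fun ω' => |v ω' - v ω|)]
        rfl
      have e2 : ((Fintype.card (ι × Bool) : ℝ)⁻¹ * ∑ e, |gr τ v e ω|) ^ 2 ≤ msq (gr τ v) ω := by
        rw [msq, mul_pow]
        have h3 := sq_sum_le_card_mul_sum_sq (s := (Finset.univ : Finset (ι × Bool)))
          (f := fun e => |gr τ v e ω|)
        rw [Finset.card_univ] at h3
        simp only [sq_abs] at h3
        have h4 := mul_le_mul_of_nonneg_left h3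
          (by positivity : 0 ≤ ((Fintype.card (ι × Bool) : ℝ)⁻¹) ^ 2)
        refine h4.trans (le_of_eq ?_)
        have : ((Fintype.card (ι × Bool) : ℝ)⁻¹) * (Fintype.card (ι × Bool) : ℝ) = 1 := card_mul_inv
        rw [pow_two, ← mul_assoc, mul_assoc _ _ ((Fintype.card (ι × Bool) : ℝ)), this, mul_one]
      have e3 : msq (gr τ v) ω ≤ (1 / 8) ^ m := by
        have := hBv 1
        simpa using this
      have e4 : (1 / 8 : ℝ) ^ m ≤ ((1 / 2) ^ m) ^ 2 := by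
        rw [← pow_mul, mul_comm, pow_mul]
        exact pow_le_pow_left₀ (by norm_num) (by norm_num) m
      rw [e1]
      exact (pow_le_pow_iff_left₀ (by positivity) (by positivity) two_ne_zero).1
        (e2.trans (e3.trans e4))
    rw [h0, abs_zero, zero_add] at h1
    have h5 : (12 : ℝ) * (1 / 8) ^ m * ((1 / 2) ^ m)⁻¹ ≤ 12 * (1 / 2) ^ m := by
      rw [mul_assoc, ← inv_pow, ← mul_pow]
      have : (1 / 8 * (1 / 2)⁻¹ : ℝ) ^ m ≤ (1 / 2) ^ m :=
        pow_le_pow_left₀ (by norm_num) (by norm_num) m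
      linarith
    have h6 := mul_le_mul_of_nonneg_left h5 (Real.sqrt_nonneg (n : ℝ))
    linarith
  -- bounds for w
  have hwb : ∀ k, ∃ C, 0 ≤ C ∧ ∀ n, fm (w k) (V.W.q n) ≤ C := by
    intro k
    obtain ⟨C, hC⟩ := hu k
    have hC0 : 0 ≤ C := (abs_nonneg _).trans (hC ω)
    refine ⟨2 * C, by positivity, fun n => ?_⟩
    have : fm (w k) (V.W.q n) ≤ ∑' x, V.W.q n x * (2 * C) := by
      refine (V.summ n _).tsum_le_tsum (fun x => ?_) (V.summ n _)
      refine mul_le_mul_of_nonneg_left ?_ (V.W.q_nonneg n x)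
      have h1 := hC (V.θ x)
      have h2 := hC ω
      have h3 := abs_sub (u k (V.θ x)) (u k ω)
      simp only [hw]; linarith
    refine this.trans ?_
    rw [tsum_mul_right, V.W.q_sum, one_mul]
  have fm_add : ∀ (a b : (ι → ℤ) → ℝ) (n : ℕ), fm (a + b) (V.W.q n) ≤
      fm a (V.W.q n) + fm b (V.W.q n) := by
    intro a b n
    unfold fm
    rw [← (V.summ n _).tsum_add (V.summ n _)]
    refine (V.summ n _).tsum_le_tsum (fun x => ?_) ((V.summ n _).add (V.summ n _))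
    rw [← mul_add]
    exact mul_le_mul_of_nonneg_left (abs_add_le _ _) (V.W.q_nonneg n x)
  -- telescoping
  have htel : ∀ k, k0 ≤ k → ∀ j n : ℕ, fm (w (k + j)) (V.W.q n) ≤ fm (w k) (V.W.q n) +
      (2 * (1 / 2) ^ k - 2 * (1 / 2) ^ (k + j)) * (1 + √(n : ℝ) * (R + 12)) := by
    intro k hk j n
    induction j with
    | zero => simp
    | succ j ih =>
      have h1 := hinc (k + j) (by omega) n
      have h2 := fm_add (w (k + j)) (w (k + j + 1) - w (k + j)) n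
      rw [add_sub_cancel] at h2
      have h3 : (1 / 2 : ℝ) ^ (k + (j + 1)) = (1 / 2) ^ (k + j) / 2 := by
        rw [← add_assoc, pow_succ]; ring
      rw [h3]
      have h4 : w (k + (j + 1)) = w (k + j + 1) := rfl
      rw [h4]
      linarith
  -- passing to the limit
  have hlim : ∀ k, k0 ≤ k → ∀ n : ℕ, fm χ (V.W.q n) ≤ fm (w k) (V.W.q n) +
      2 * (1 / 2) ^ k * (1 + √(n : ℝ) * (R + 12)) := by
    intro k hk n
    have h1 : Tendsto (fun j => fm (w (k + j)) (V.W.q n)) atTop (𝓝 (fm χ (V.W.q n))) := by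
      have e1 : ∀ φ : (ι → ℤ) → ℝ, fm φ (V.W.q n) =
          ∑ x ∈ (V.W.q_fin n).toFinset, V.W.q n x * |φ x| := by
        intro φ
        rw [fm, tsum_eq_sum]
        intro x hx
        have : V.W.q n x = 0 := by
          by_contra h
          exact hx ((V.W.q_fin n).mem_toFinset.2 h)
        rw [this, zero_mul]
      simp only [e1]
      refine tendsto_finsetSum _ fun x hx => ?_
      have hx' : V.W.q n x ≠ 0 := (V.W.q_fin n).mem_toFinset.1 hx
      have h2 := hχ n x hx'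
      have h3 : Tendsto (fun j => w (k + j) x) atTop (𝓝 (χ x)) := by
        have := h2.comp (tendsto_add_atTop_nat k)
        refine this.congr fun j => ?_
        simp only [hw, Function.comp, add_comm j k]
      exact h3.abs.const_mul _
    refine le_of_tendsto' h1 fun j => (htel k hk j n).trans ?_
    have h2 : 0 ≤ 1 + √(n : ℝ) * (R + 12) := by positivity
    have h3 : (0 : ℝ) ≤ (1 / 2) ^ (k + j) := by positivity
    nlinarith [mul_nonneg h3 h2]
  -- conclusion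
  rw [Metric.tendsto_atTop]
  intro ε hε
  have hpow : Tendsto (fun k : ℕ => 2 * (1 / 2 : ℝ) ^ k * (R + 12)) atTop (𝓝 0) := by
    have := ((tendsto_pow_atTop_nhds_zero_of_lt_one (by norm_num : (0 : ℝ) ≤ 1 / 2)
      (by norm_num)).const_mul 2).mul_const (R + 12)
    simpa using this
  obtain ⟨k, hk1, hk2⟩ := ((hpow.eventually (gt_mem_nhds (half_pos hε))).and
    (eventually_ge_atTop k0)).exists
  obtain ⟨C, hC0, hC⟩ := hwb k
  have hsq : Tendsto (fun N : ℕ => (√(N : ℝ))⁻¹) atTop (𝓝 0) :=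
    (tendsto_inv_atTop_zero.comp Real.tendsto_sqrt_atTop).comp tendsto_natCast_atTop_atTop
  have hrest : Tendsto (fun N : ℕ => (√(N : ℝ))⁻¹ * (C + 2 * (1 / 2 : ℝ) ^ k)) atTop (𝓝 0) := by
    have := hsq.mul_const (C + 2 * (1 / 2 : ℝ) ^ k)
    simpa using this
  obtain ⟨N0, hN0⟩ := eventually_atTop.1 (hrest.eventually (gt_mem_nhds (half_pos hε)))
  refine ⟨max N0 1, fun n hn => ?_⟩
  have hn1 : 1 ≤ n := le_trans (le_max_right _ _) hn
  have hn' : (0 : ℝ) < √(n : ℝ) := Real.sqrt_pos.2 (by exact_mod_cast hn1)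
  have hfm0 : 0 ≤ fm χ (V.W.q n) := tsum_nonneg fun x => mul_nonneg (V.W.q_nonneg _ _) (abs_nonneg _)
  rw [Real.dist_eq, sub_zero, abs_of_nonneg (by positivity)]
  have h1 := hlim k hk2 n
  have h2 := hC n
  have h3 : (√(n : ℝ))⁻¹ * fm χ (V.W.q n) ≤ (√(n : ℝ))⁻¹ * (C + 2 * (1 / 2 : ℝ) ^ k) +
      2 * (1 / 2) ^ k * (R + 12) := by
    have h4 : fm χ (V.W.q n) ≤ (C + 2 * (1 / 2 : ℝ) ^ k) +
        √(n : ℝ) * (2 * (1 / 2) ^ k * (R + 12)) := by linarith
    have h5 := mul_le_mul_of_nonneg_left h4 (by positivity : 0 ≤ (√(n : ℝ))⁻¹)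
    rw [mul_add, ← mul_assoc (√(n : ℝ))⁻¹ (√(n : ℝ)), inv_mul_cancel₀ hn'.ne', one_mul] at h5
    exact h5
  have h6 := hN0 n (le_trans (le_max_left _ _) hn)
  linarith

end Env

end Pool.Agent.H98.Q
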