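import Pool.Agent.H98.Q.Law

/-!
# Almost sure convergence of the characteristic functions
-/

set_option autoImplicit false
set_option linter.unusedSectionVars false
set_option linter.unusedVariables false

open MeasureTheory Filter Topology ProbabilityTheory
open scoped ENNReal

namespace Pool.Agent.H98.Q

/-- convergence on a dense set extends, for asymptotically Lipschitz functions -/
theorem dense_lim {X : Type*} [MetricSpace X] {ψ : ℕ → X → ℂ} {G : X → ℂ} (hG : Continuous G)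
    {C : ℝ} (hC : ∀ᶠ n in atTop, ∀ a b, ‖ψ n a - ψ n b‖ ≤ C * dist a b) {D : Set X} (hD : Dense D)
    (h : ∀ a ∈ D, Tendsto (fun n => ψ n a) atTop (𝓝 (G a))) (a : X) :
    Tendsto (fun n => ψ n a) atTop (𝓝 (G a)) := by
  have hC0 : ∀ᶠ n in atTop, ∀ a b, ‖ψ n a - ψ n b‖ ≤ (|C| + 1) * dist a b := by
    filter_upwards [hC] with n hn a b
    refine (hn a b).trans (mul_le_mul_of_nonneg_right ?_ dist_nonneg)
    linarith [le_abs_self C]
  have hC1 : 0 < |C| + 1 := by positivity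
  rw [Metric.tendsto_atTop]
  intro ε hε
  have hGa := Metric.continuousAt_iff.1 (hG.continuousAt (x := a)) (ε / 3) (by positivity)
  obtain ⟨η, hη, hη2⟩ := hGa
  obtain ⟨b, hb, hbd⟩ := hD.exists_dist_lt a (show 0 < min η (ε / 3 / (|C| + 1)) by positivity)
  have hb1 : dist b a < η := by rw [dist_comm]; exact lt_of_lt_of_le hbd (min_le_left _ _)
  have hb2 : (|C| + 1) * dist a b < ε / 3 := by
    have := lt_of_lt_of_le hbd (min_le_right _ _)
    rw [lt_div_iff₀ hC1] at this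
    linarith
  obtain ⟨N, hN⟩ := Metric.tendsto_atTop.1 (h b hb) (ε / 3) (by positivity)
  obtain ⟨N', hN'⟩ := eventually_atTop.1 hC0
  refine ⟨max N N', fun n hn => ?_⟩
  have h1 := hN n (le_trans (le_max_left _ _) hn)
  have h2 := hN' n (le_trans (le_max_right _ _) hn) a b
  have h3 := hη2 hb1
  calc dist (ψ n a) (G a) ≤ dist (ψ n a) (ψ n b) + dist (ψ n b) (G b) + dist (G b) (G a) :=
        dist_triangle4 _ _ _ _
    _ < ε := by rw [dist_eq_norm (ψ n a)]; linarith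

theorem exp_lip (a b : ℝ) :
    ‖Complex.exp (a * Complex.I) - Complex.exp (b * Complex.I)‖ ≤ |a - b| := by
  have h1 : Complex.exp (a * Complex.I) - Complex.exp (b * Complex.I) =
      Complex.exp (b * Complex.I) * (Complex.exp (((a - b : ℝ) : ℂ) * Complex.I) - 1) := by
    rw [mul_sub, ← Complex.exp_add, mul_one]
    congr 2
    push_cast; ring
  rw [h1, norm_mul, Complex.norm_exp_ofReal_mul_I, one_mul]
  exact exp_it_one (a - b)

namespace Env

variable {ι : Type*} [Fintype ι] [DecidableEq ι] [Nonempty ι] {Ω : Type*}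
  {τ : ι × Bool → Ω → Ω} {ω : Ω} (V : Env τ ω)

theorem summC (n : ℕ) (f : (ι → ℤ) → ℂ) : Summable fun x => (V.W.q n x : ℂ) * f x :=
  summable_of_hasFiniteSupport ((V.W.q_fin n).subset fun x hx hx0 => hx (by
    simp [show V.W.q n x = 0 from hx0]))

/-- comparison of two characteristic functions -/
theorem char_diff (n : ℕ) (a b : (ι → ℤ) → ℝ) :
    ‖∑' x, (V.W.q n x : ℂ) * Complex.exp (a x * Complex.I) -
      ∑' x, (V.W.q n x : ℂ) * Complex.exp (b x * Complex.I)‖ ≤ fm (fun x => a x - b x) (V.W.q n) := by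
  rw [← (V.summC n _).tsum_sub (V.summC n _), fm]
  have hfs : Summable fun x => ‖(V.W.q n x : ℂ) * Complex.exp (a x * Complex.I) -
      (V.W.q n x : ℂ) * Complex.exp (b x * Complex.I)‖ :=
    summable_of_fin ((V.W.q_fin n).subset fun x hx hx0 => hx (by
      simp [show V.W.q n x = 0 from hx0]))
  refine (norm_tsum_le_tsum_norm hfs).trans (hfs.tsum_le_tsum (fun x => ?_) (V.summ n _))
  rw [← mul_sub, norm_mul, Complex.norm_real, Real.norm_eq_abs, abs_of_nonneg (V.W.q_nonneg n x)]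
  exact mul_le_mul_of_nonneg_left (exp_lip _ _) (V.W.q_nonneg n x)

theorem fm_sum_le {κ : Type*} [Fintype κ] (n : ℕ) (c : κ → ℝ) (a : κ → (ι → ℤ) → ℝ) :
    fm (fun x => ∑ i, c i * a i x) (V.W.q n) ≤ ∑ i, |c i| * fm (a i) (V.W.q n) := by
  unfold fm
  simp only [← tsum_mul_left]
  rw [← Summable.tsum_finsetSum (fun i _ => (V.summ n _).mul_left _)]
  refine (V.summ n _).tsum_le_tsum (fun x => ?_) (summable_sum fun i _ => (V.summ n _).mul_left _)
  have h1 : |∑ i, c i * a i x| ≤ ∑ i, |c i| * |a i x| :=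
    (Finset.abs_sum_le_sum_abs _ _).trans (le_of_eq (Finset.sum_congr rfl fun i _ => abs_mul _ _))
  refine (mul_le_mul_of_nonneg_left h1 (V.W.q_nonneg n x)).trans (le_of_eq ?_)
  rw [Finset.mul_sum]
  exact Finset.sum_congr rfl fun i _ => by ring

theorem fm_smul (n : ℕ) {s : ℝ} (hs : 0 ≤ s) (a : (ι → ℤ) → ℝ) :
    fm (fun x => s * a x) (V.W.q n) = s * fm a (V.W.q n) := by
  unfold fm
  rw [← tsum_mul_left]
  refine tsum_congr fun x => ?_
  rw [abs_mul, abs_of_nonneg hs]; ring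

theorem fm_mono (n : ℕ) {a b : (ι → ℤ) → ℝ} (h : ∀ x, |a x| ≤ |b x|) :
    fm a (V.W.q n) ≤ fm b (V.W.q n) :=
  (V.summ n _).tsum_le_tsum (fun x => mul_le_mul_of_nonneg_left (h x) (V.W.q_nonneg n x))
    (V.summ n _)

/-- **Characteristic functions of the walk**, for one environment. -/
theorem char_lim (hd : 1 < Fintype.card ι)
    {F : ι → ι × Bool → Ω → ℝ}
    (hF : ∀ x ∈ V.W.A, ∀ e i, ((V.W.s e x i : ℤ) : ℝ) = x i + F i e (V.θ x))
    {g : Ω → ℝ} (hg : ∀ x ∈ V.W.A, (Fintype.card (ι × Bool) : ℝ)⁻¹ *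
      ∑ e, (nrm (V.W.s e x) - nrm x) ^ 2 ≤ g (V.θ x))
    {B : ℝ} (hB0 : 0 ≤ B) (hB : ∀ n : ℕ, ∑ j ∈ Finset.range n, (T τ)^[j] g ω ≤ B * n)
    {u : ι → ℕ → Ω → ℝ} (hu : ∀ i m, ∃ C, ∀ ω, |u i m ω| ≤ C)
    (hsm : ∀ i, ∀ᶠ k in atTop, ∀ n : ℕ, ∑ j ∈ Finset.range n,
      (T τ)^[j] (((4 : ℝ) ^ k) • msq (gr τ (u i (k + 1) - u i k))) ω ≤ (1 / 2) ^ k * n)
    {δ : ι → ι × Bool → Ω → ℝ}
    (hlim : ∀ x ∈ V.W.A, ∀ i e, Tendsto (fun m => F i e (V.θ x) - gr τ (u i m) e (V.θ x)) atTop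
      (𝓝 (δ i e (V.θ x))))
    {v : (ι → ℝ) → ℝ} (hv : Continuous v) {D : Set (ι → ℝ)} (hD : Dense D)
    (hmart : ∀ t ∈ D, Tendsto (fun N : ℕ =>
      ((Sop τ (fun e ω => ∑ i, t i * δ i e ω) (√(N : ℝ))⁻¹) ^ N) (fun _ => 1) ω) atTop
      (𝓝 (Real.exp (-(v t / 2)) : ℂ))) (t : ι → ℝ) :
    Tendsto (fun n : ℕ => ∑' x, (V.W.q n x : ℂ) *
      Complex.exp (((√(n : ℝ))⁻¹ * ∑ i, t i * x i : ℝ) * Complex.I)) atTop
      (𝓝 (Real.exp (-(v t / 2)) : ℂ)) := by
  -- the corrector on the lattice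
  have hex : ∀ i n x, V.W.q n x ≠ 0 →
      ∃ l, Tendsto (fun m => u i m (V.θ x) - u i m ω) atTop (𝓝 l) := by
    intro i n
    induction n with
    | zero =>
      intro x hx
      rw [V.W.q_zero hx, V.zero]
      exact ⟨0, by simp⟩
    | succ n ih =>
      intro x hx
      obtain ⟨e, z, hz, rfl⟩ := V.W.q_succ hx
      obtain ⟨l, hl⟩ := ih z hz
      have hA := V.W.q_mem n z hz
      refine ⟨(F i e (V.θ z) - δ i e (V.θ z)) + l, ?_⟩
      have h1 := ((hlim z hA i e).const_sub (F i e (V.θ z))).add hl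
      refine h1.congr fun m => ?_
      rw [V.step z hA e, gr]; ring
  set χ : ι → (ι → ℤ) → ℝ := fun i x => limUnder atTop (fun m => u i m (V.θ x) - u i m ω) with hχd
  have hχ : ∀ i n x, V.W.q n x ≠ 0 →
      Tendsto (fun m => u i m (V.θ x) - u i m ω) atTop (𝓝 (χ i x)) := by
    intro i n x hx
    exact tendsto_nhds_limUnder (hex i n x hx)
  have hχ0 : ∀ i, χ i 0 = 0 := by
    intro i
    have h1 := hχ i 0 0 (by simp [Walk.q])
    rw [V.zero] at h1
    simp only [sub_self] at h1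
    exact tendsto_nhds_unique h1 tendsto_const_nhds
  have hχs : ∀ i n x, V.W.q n x ≠ 0 → ∀ e,
      χ i (V.W.s e x) = χ i x + (F i e (V.θ x) - δ i e (V.θ x)) := by
    intro i n x hx e
    have hA := V.W.q_mem n x hx
    have h1 := ((hlim x hA i e).const_sub (F i e (V.θ x))).add (hχ i n x hx)
    have h2 : V.W.q (n + 1) (V.W.s e x) ≠ 0 := by
      rw [Walk.q, avg]
      have h3 : V.W.q n x ≤ ∑ j, V.W.q n (V.W.s j (V.W.s e x)) := by
        have := Finset.single_le_sum (f := fun j => V.W.q n (V.W.s j (V.W.s e x)))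
          (fun j _ => V.W.q_nonneg n _) (Finset.mem_univ (neg e))
        simp only [V.W.s_neg] at this
        simpa using this
      have h4 : 0 < V.W.q n x := lt_of_le_of_ne (V.W.q_nonneg n x) (Ne.symm hx)
      have h5 : 0 < ∑ j, V.W.q n (V.W.s j (V.W.s e x)) := lt_of_lt_of_le h4 h3
      positivity
    have h3 := hχ i (n + 1) _ h2
    refine tendsto_nhds_unique h3 ?_
    have h4 : χ i x + (F i e (V.θ x) - δ i e (V.θ x)) =
      F i e (V.θ x) - δ i e (V.θ x) + χ i x := by ring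
    rw [h4]
    refine h1.congr fun m => ?_
    rw [V.step x hA e, gr]; ring
  have hsub : ∀ i, Tendsto (fun n : ℕ => (√(n : ℝ))⁻¹ * fm (χ i) (V.W.q n)) atTop (𝓝 0) :=
    fun i => V.sublin hd hg hB0 hB (hu i) (hsm i) (hχ i)
  -- convergence on the dense set
  have hden : ∀ t ∈ D, Tendsto (fun n : ℕ => ∑' x, (V.W.q n x : ℂ) *
      Complex.exp (((√(n : ℝ))⁻¹ * ∑ i, t i * x i : ℝ) * Complex.I)) atTop
      (𝓝 (Real.exp (-(v t / 2)) : ℂ)) := by
    intro t ht
    set y : (ι → ℤ) → ℝ := fun x => ∑ i, t i * (x i - χ i x) with hy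
    have hy0 : y 0 = 0 := by simp [hy, hχ0]
    have hys : ∀ n x, V.W.q n x ≠ 0 → ∀ e,
        y (V.W.s e x) = y x + (fun e ω => ∑ i, t i * δ i e ω) e (V.θ x) := by
      intro n x hx e
      simp only [hy]
      rw [← Finset.sum_add_distrib]
      refine Finset.sum_congr rfl fun i _ => ?_
      rw [hχs i n x hx e, hF x (V.W.q_mem n x hx) e i]
      ring
    have h1 : ∀ n : ℕ, ∑' x, (V.W.q n x : ℂ) *
        Complex.exp (((√(n : ℝ))⁻¹ * y x : ℝ) * Complex.I) =
        ((Sop τ (fun e ω => ∑ i, t i * δ i e ω) (√(n : ℝ))⁻¹) ^ n) (fun _ => 1) ω := by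
      intro n
      have := V.sum_S n (δ := fun e ω => ∑ i, t i * δ i e ω) (y := y) (√(n : ℝ))⁻¹ hys
        (fun _ => 1)
      rw [hy0, mul_zero] at this
      simp only [mul_one, Complex.ofReal_zero, zero_mul, Complex.exp_zero, one_mul] at this
      exact this
    have h2 := hmart t ht
    have h3 : Tendsto (fun n : ℕ => ∑' x, (V.W.q n x : ℂ) *
        Complex.exp (((√(n : ℝ))⁻¹ * ∑ i, t i * x i : ℝ) * Complex.I) -
        ((Sop τ (fun e ω => ∑ i, t i * δ i e ω) (√(n : ℝ))⁻¹) ^ n) (fun _ => 1) ω) atTop (𝓝 0) := by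
      have h4 : Tendsto (fun n : ℕ => ∑ i, |t i| * ((√(n : ℝ))⁻¹ * fm (χ i) (V.W.q n))) atTop
          (𝓝 0) := by
        have := tendsto_finsetSum (Finset.univ : Finset ι) fun i _ => (hsub i).const_mul |t i|
        simpa using this
      refine squeeze_zero_norm (fun n => ?_) h4
      rw [← h1 n]
      refine (V.char_diff n _ _).trans ?_
      have e1 : (fun x : ι → ℤ => (√(n : ℝ))⁻¹ * ∑ i, t i * (x i : ℝ) - (√(n : ℝ))⁻¹ * y x) =
          fun x => (√(n : ℝ))⁻¹ * ∑ i, t i * χ i x := by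
        funext x
        simp only [hy]
        rw [← mul_sub, ← Finset.sum_sub_distrib]
        congr 1
        exact Finset.sum_congr rfl fun i _ => by ring
      rw [e1, V.fm_smul n (by positivity)]
      refine (mul_le_mul_of_nonneg_left (V.fm_sum_le n t χ) (by positivity)).trans (le_of_eq ?_)
      rw [Finset.mul_sum]
      exact Finset.sum_congr rfl fun i _ => by ring
    have h5 := h3.add h2
    rw [zero_add] at h5
    refine h5.congr fun n => ?_
    ring
  -- extension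
  obtain ⟨R, hR, H⟩ := V.core hd hg hB0 hB
  have hmom : ∀ n : ℕ, fm nrm (V.W.q n) ≤ fm nrm (V.W.q 1) + √(n : ℝ) * (R + 12 * B) := by
    intro n
    have := H nrm g B hB0 hg hB 1 one_pos n
    have h0 : nrm (0 : ι → ℤ) = 0 := by simp [nrm]
    rw [h0, abs_zero] at this
    simpa using this
  refine dense_lim (ψ := fun (n : ℕ) (t : ι → ℝ) => ∑' x, (V.W.q n x : ℂ) *
      Complex.exp (((√(n : ℝ))⁻¹ * ∑ i, t i * x i : ℝ) * Complex.I))
    (G := fun t => (Real.exp (-(v t / 2)) : ℂ)) ?_ (C := fm nrm (V.W.q 1) + (R + 12 * B)) ?_ hD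
    hden t
  · exact Complex.continuous_ofReal.comp (Real.continuous_exp.comp (hv.div_const 2).neg)
  · filter_upwards [eventually_ge_atTop 1] with n hn a b
    have hn' : 1 ≤ √(n : ℝ) := by
      rw [Real.one_le_sqrt]; exact_mod_cast hn
    refine (V.char_diff n _ _).trans ?_
    have e1 : (fun x : ι → ℤ => (√(n : ℝ))⁻¹ * ∑ i, a i * (x i : ℝ) -
        (√(n : ℝ))⁻¹ * ∑ i, b i * (x i : ℝ)) =
        fun x => (√(n : ℝ))⁻¹ * ∑ i, (a i - b i) * (x i : ℝ) := by
      funext x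
      rw [← mul_sub, ← Finset.sum_sub_distrib]
      congr 1
      exact Finset.sum_congr rfl fun i _ => by ring
    rw [e1, V.fm_smul n (by positivity)]
    have h1 : fm (fun x : ι → ℤ => ∑ i, (a i - b i) * (x i : ℝ)) (V.W.q n) ≤
        dist a b * fm nrm (V.W.q n) := by
      rw [← V.fm_smul n dist_nonneg]
      refine V.fm_mono n fun x => ?_
      rw [abs_mul, abs_of_nonneg (dist_nonneg), abs_of_nonneg (nrm_nonneg x), nrm, Finset.mul_sum]
      refine (Finset.abs_sum_le_sum_abs _ _).trans (Finset.sum_le_sum fun i _ => ?_)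
      rw [abs_mul]
      refine mul_le_mul_of_nonneg_right ?_ (abs_nonneg _)
      rw [← Real.dist_eq]
      exact dist_le_pi_dist a b i
    have h2 := hmom n
    have h3 : (√(n : ℝ))⁻¹ * fm nrm (V.W.q n) ≤ fm nrm (V.W.q 1) + (R + 12 * B) := by
      have hpos : 0 < √(n : ℝ) := by linarith
      rw [inv_mul_le_iff₀ hpos]
      have h4 : 0 ≤ fm nrm (V.W.q 1) := tsum_nonneg fun x =>
        mul_nonneg (V.W.q_nonneg _ _) (abs_nonneg _)
      nlinarith
    calc (√(n : ℝ))⁻¹ * fm (fun x : ι → ℤ => ∑ i, (a i - b i) * (x i : ℝ)) (V.W.q n)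
        ≤ (√(n : ℝ))⁻¹ * (dist a b * fm nrm (V.W.q n)) :=
          mul_le_mul_of_nonneg_left h1 (by positivity)
      _ = (√(n : ℝ))⁻¹ * fm nrm (V.W.q n) * dist a b := by ring
      _ ≤ _ := mul_le_mul_of_nonneg_right h3 dist_nonneg

end Env

end Pool.Agent.H98.Q
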