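import Pool.Agent.H98.Q.Bridge

/-!
# Configurations of points of the lattice
-/

set_option autoImplicit false
set_option linter.unusedSectionVars false
set_option linter.unusedVariables false

open MeasureTheory Filter Topology

namespace Pool.Agent.H98.Q

variable {d : ℕ}

/-- point configurations on `ℤ^d` -/
abbrev Cfg (d : ℕ) := (Fin d → ℤ) → Bool

/-- the shift by `x` -/
def shift (x : Fin d → ℤ) (ω : Cfg d) : Cfg d := fun y => ω (x + y)

/-- the unit vector in direction `e` -/
def dir (e : Fin d × Bool) : Fin d → ℤ := Pi.single e.1 (if e.2 then 1 else -1)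

/-- distance to the nearest point in direction `e` -/
noncomputable def gap (e : Fin d × Bool) (ω : Cfg d) : ℕ :=
  sInf {k : ℕ | 0 < k ∧ ω ((k : ℤ) • dir e) = true}

/-- the nearest point of `x` in direction `e` -/
noncomputable def nbr (ω : Cfg d) (x : Fin d → ℤ) (e : Fin d × Bool) : Fin d → ℤ :=
  x + (gap e (shift x ω) : ℤ) • dir e

/-- the environment after a step in direction `e` -/
noncomputable def tau (e : Fin d × Bool) (ω : Cfg d) : Cfg d := shift ((gap e ω : ℤ) • dir e) ω

theorem shift_apply (x y : Fin d → ℤ) (ω : Cfg d) : shift x ω y = ω (x + y) := rfl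

theorem shift_shift (x y : Fin d → ℤ) (ω : Cfg d) : shift x (shift y ω) = shift (y + x) ω := by
  funext z; simp only [shift_apply, add_assoc]

@[simp] theorem shift_zero (ω : Cfg d) : shift 0 ω = ω := by
  funext z; simp [shift_apply]

theorem dir_neg (e : Fin d × Bool) : dir (neg e) = - dir e := by
  obtain ⟨i, b⟩ := e
  cases b <;> simp [dir, neg, ← Pi.single_neg]

theorem gap_pos_iff {e : Fin d × Bool} {ω : Cfg d} :
    0 < gap e ω ↔ ∃ k : ℕ, 0 < k ∧ ω ((k : ℤ) • dir e) = true := by
  constructor
  · intro h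
    by_contra hcon
    have : {k : ℕ | 0 < k ∧ ω ((k : ℤ) • dir e) = true} = ∅ := by
      ext k; simp only [Set.mem_ofPred_eq, Set.mem_empty_iff_false, iff_false]
      exact fun hk => hcon ⟨k, hk⟩
    rw [gap, this, Nat.sInf_empty] at h
    exact absurd h (lt_irrefl _)
  · rintro ⟨k, hk⟩
    exact (Nat.sInf_mem (⟨k, hk⟩ : {k : ℕ | 0 < k ∧ ω ((k : ℤ) • dir e) = true}.Nonempty)).1

theorem gap_spec {e : Fin d × Bool} {ω : Cfg d} (h : 0 < gap e ω) :
    ω ((gap e ω : ℤ) • dir e) = true := by
  obtain ⟨k, hk⟩ := gap_pos_iff.1 h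
  exact (Nat.sInf_mem (⟨k, hk⟩ : {k : ℕ | 0 < k ∧ ω ((k : ℤ) • dir e) = true}.Nonempty)).2

theorem gap_le {e : Fin d × Bool} {ω : Cfg d} {k : ℕ} (hk : 0 < k)
    (h : ω ((k : ℤ) • dir e) = true) : gap e ω ≤ k := Nat.sInf_le ⟨hk, h⟩

theorem gap_eq_iff {e : Fin d × Bool} {ω : Cfg d} {k : ℕ} (hk : 0 < k) :
    gap e ω = k ↔ ω ((k : ℤ) • dir e) = true ∧ ∀ j : ℕ, 0 < j → j < k →
      ω ((j : ℤ) • dir e) = false := by
  constructor
  · intro h
    have h0 : 0 < gap e ω := by omega
    refine ⟨by rw [← h]; exact gap_spec h0, fun j hj hjk => ?_⟩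
    by_contra hcon
    have := gap_le hj (by simpa using hcon)
    omega
  · rintro ⟨h1, h2⟩
    have h3 := gap_le hk h1
    have h0 : 0 < gap e ω := gap_pos_iff.2 ⟨k, hk, h1⟩
    by_contra hne
    have h4 := h2 _ h0 (by omega)
    rw [gap_spec h0] at h4
    exact absurd h4 (by simp)

/-- reversing a step -/
theorem gap_shift {e : Fin d × Bool} {ω : Cfg d} {k : ℕ} (hk : 0 < k) (h0 : ω 0 = true)
    (h : gap e ω = k) :
    shift ((k : ℤ) • dir e) ω 0 = true ∧ gap (neg e) (shift ((k : ℤ) • dir e) ω) = k := by
  rw [gap_eq_iff hk] at h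
  refine ⟨by rw [shift_apply, add_zero]; exact h.1, ?_⟩
  rw [gap_eq_iff hk]
  refine ⟨?_, fun j hj hjk => ?_⟩
  · rw [shift_apply, dir_neg, smul_neg, add_neg_cancel]; exact h0
  · rw [shift_apply, dir_neg, smul_neg, ← sub_eq_add_neg, ← sub_smul]
    have : ((k : ℤ) - (j : ℤ)) = ((k - j : ℕ) : ℤ) := by omega
    rw [this]
    exact h.2 (k - j) (by omega) (by omega)

theorem tau_zero {e : Fin d × Bool} {ω : Cfg d} (h : 0 < gap e ω) : tau e ω 0 = true := by
  rw [tau, shift_apply, add_zero]; exact gap_spec h

theorem gap_tau {e : Fin d × Bool} {ω : Cfg d} (h0 : ω 0 = true) (h : 0 < gap e ω) :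
    gap (neg e) (tau e ω) = gap e ω := (gap_shift h h0 rfl).2

theorem tau_tau {e : Fin d × Bool} {ω : Cfg d} (h0 : ω 0 = true) (h : 0 < gap e ω) :
    tau (neg e) (tau e ω) = ω := by
  rw [tau, gap_tau h0 h, tau, shift_shift, dir_neg, smul_neg, add_neg_cancel, shift_zero]

/-- configurations with a point at the origin and points in all directions -/
def Good (ω : Cfg d) : Prop := ω 0 = true ∧ ∀ e, 0 < gap e ω

open Classical in
/-- the walk in the environment `ω` -/
noncomputable def walk {S : Set (Cfg d)} (hS : Inv (fun e : Fin d × Bool => tau e) S)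
    (hG : ∀ ω ∈ S, Good ω) {ω : Cfg d} (hω : ω ∈ S) : Walk (Fin d) where
  A := {x | shift x ω ∈ S}
  s e :=
    { toFun := fun x => if shift x ω ∈ S then nbr ω x e else x
      invFun := fun x => if shift x ω ∈ S then nbr ω x (neg e) else x
      left_inv := by
        intro x
        by_cases hx : shift x ω ∈ S
        · have h1 : shift (nbr ω x e) ω = tau e (shift x ω) := by rw [nbr, tau, shift_shift]
          have h2 : shift (nbr ω x e) ω ∈ S := by rw [h1]; exact hS _ hx e
          simp only [hx, if_true, h2]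
          rw [nbr, h1, gap_tau (hG _ hx).1 ((hG _ hx).2 e), nbr, dir_neg, smul_neg]
          abel
        · simp only [hx, if_false]
      right_inv := by
        intro x
        by_cases hx : shift x ω ∈ S
        · have h1 : shift (nbr ω x (neg e)) ω = tau (neg e) (shift x ω) := by
            rw [nbr, tau, shift_shift]
          have h2 : shift (nbr ω x (neg e)) ω ∈ S := by rw [h1]; exact hS _ hx (neg e)
          simp only [hx, if_true, h2]
          have h3 := gap_tau (e := neg e) (hG _ hx).1 ((hG _ hx).2 (neg e))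
          rw [neg_neg'] at h3
          rw [nbr, h1, h3, nbr, dir_neg, smul_neg]
          abel
        · simp only [hx, if_false] }
  zero_mem := by simpa using hω
  mem e x hx := by
    have hx' : shift x ω ∈ S := hx
    have h1 : shift (nbr ω x e) ω = tau e (shift x ω) := by rw [nbr, tau, shift_shift]
    change shift (if shift x ω ∈ S then nbr ω x e else x) ω ∈ S
    rw [if_pos hx', h1]
    exact hS _ hx' e
  inv i := by
    ext1 x
    rfl
  fwd i :=
    { mem := fun x hx => by
        have hx' : shift x ω ∈ S := hx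
        have h1 : shift (nbr ω x (i, true)) ω = tau (i, true) (shift x ω) := by
          rw [nbr, tau, shift_shift]
        change shift (if shift x ω ∈ S then nbr ω x (i, true) else x) ω ∈ S
        rw [if_pos hx', h1]
        exact hS _ hx' (i, true)
      step := fun x hx => by
        have hx' : shift x ω ∈ S := hx
        refine ⟨gap (i, true) (shift x ω), by exact_mod_cast (hG _ hx').2 (i, true), ?_⟩
        change (if shift x ω ∈ S then nbr ω x (i, true) else x) = _
        rw [if_pos hx', nbr]
        funext j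
        by_cases hj : j = i
        · subst hj; simp [dir]
        · simp [dir, hj] }

open Classical in
/-- the walk and its environments -/
noncomputable def env {S : Set (Cfg d)} (hS : Inv (fun e : Fin d × Bool => tau e) S)
    (hG : ∀ ω ∈ S, Good ω) {ω : Cfg d} (hω : ω ∈ S) :
    Env (fun e : Fin d × Bool => tau e) ω where
  W := walk hS hG hω
  θ x := shift x ω
  zero := shift_zero ω
  step x hx e := by
    have hx' : shift x ω ∈ S := hx
    change shift (if shift x ω ∈ S then nbr ω x e else x) ω = _
    rw [if_pos hx', nbr, tau, shift_shift]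

open Classical in
theorem env_s {S : Set (Cfg d)} (hS : Inv (fun e : Fin d × Bool => tau e) S)
    (hG : ∀ ω ∈ S, Good ω) {ω : Cfg d} (hω : ω ∈ S) {x : Fin d → ℤ} (hx : x ∈ (env hS hG hω).W.A)
    (e : Fin d × Bool) : (env hS hG hω).W.s e x = nbr ω x e := by
  have hx' : shift x ω ∈ S := hx
  change (if shift x ω ∈ S then nbr ω x e else x) = _
  rw [if_pos hx']

end Pool.Agent.H98.Q
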