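import Pool.Agent.H98.Q.Seq

/-!
# First moment bound for additive functionals
-/

set_option autoImplicit false
set_option linter.unusedSectionVars false
set_option linter.unusedVariables false

open Real

namespace Pool.Agent.H98.Q

/-- A symmetric family of bijections of the lattice preserving a set `A` of sites, containing the
identity and, for each direction, a bijection moving sites forward. -/
structure Sys (ι J : Type*) [Fintype ι] [DecidableEq ι] [Fintype J] where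
  σ : J → Equiv.Perm (ι → ℤ)
  sym : Sym σ
  A : Set (ι → ℤ)
  mem : ∀ j, ∀ x ∈ A, σ j x ∈ A
  j0 : ι → J
  j1 : ι → J
  ne : ∀ i, j0 i ≠ j1 i
  h0 : ∀ i, σ (j0 i) = 1
  fwd : ∀ i, Fwd A i (σ (j1 i))

variable {ι J : Type*} [Fintype ι] [DecidableEq ι] [Fintype J]

/-- an initial law -/
structure Sys.Init (S : Sys ι J) (p0 : (ι → ℤ) → ℝ) : Prop where
  nonneg : ∀ x, 0 ≤ p0 x
  fin : p0.support.Finite
  mem : ∀ x, p0 x ≠ 0 → x ∈ S.A
  sum : ∑' x, p0 x = 1

/-- the law of the walk -/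
noncomputable def Sys.p (S : Sys ι J) (p0 : (ι → ℤ) → ℝ) : ℕ → (ι → ℤ) → ℝ
  | 0 => p0
  | n + 1 => avg S.σ (S.p p0 n)

namespace Sys

variable (S : Sys ι J) {p0 : (ι → ℤ) → ℝ} (h : S.Init p0)

include h

theorem p_nonneg (n : ℕ) (x : ι → ℤ) : 0 ≤ S.p p0 n x := by
  induction n generalizing x with
  | zero => exact h.nonneg x
  | succ n ih => exact avg_nonneg ih x

theorem p_fin (n : ℕ) : (S.p p0 n).support.Finite := by
  induction n with
  | zero => exact h.fin
  | succ n ih => exact avg_fin ih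

theorem p_mem (n : ℕ) (x : ι → ℤ) (hx : S.p p0 n x ≠ 0) : x ∈ S.A := by
  induction n generalizing x with
  | zero => exact h.mem x hx
  | succ n ih =>
    rw [p, avg] at hx
    have h1 : ∑ j, S.p p0 n (S.σ j x) ≠ 0 := right_ne_zero_of_mul hx
    obtain ⟨j, _, hj⟩ := Finset.exists_ne_zero_of_sum_ne_zero h1
    have h2 := S.mem (S.sym.inv j) _ (ih _ hj)
    have : S.σ (S.sym.inv j) (S.σ j x) = x := by rw [S.sym.eq]; simp
    rwa [this] at h2

theorem p_sum [Nonempty J] (n : ℕ) : ∑' x, S.p p0 n x = 1 := by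
  induction n with
  | zero => exact h.sum
  | succ n ih => rw [p, tsum_avg (S.p_fin h n), ih]

omit h in
include S in
theorem nonempty (hd : 1 < Fintype.card ι) : Nonempty J := by
  have hι : Nonempty ι := Fintype.card_pos_iff.1 (by omega)
  exact ⟨S.j0 hι.some⟩

omit h in
theorem _root_.Pool.Agent.H98.Q.en_nonneg {V J : Type*} [Fintype J] (σ : J → Equiv.Perm V)
    (φ : V → ℝ) {p : V → ℝ} (hp : ∀ x, 0 ≤ p x) : 0 ≤ en σ φ p :=
  mul_nonneg (by positivity) (Finset.sum_nonneg fun j _ => tsum_nonneg fun x =>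
    mul_nonneg (hp x) (sq_nonneg _))

/-- **Nash–Bass bound**: square-root growth of the first moment of every function with bounded
mean energy. -/
theorem core (hd : 1 < Fintype.card ι) {B : ℝ} (hB : 0 ≤ B)
    (hE : ∀ n : ℕ, ∑ k ∈ Finset.range n, en S.σ nrm (S.p p0 k) ≤ B * n) :
    ∃ R : ℝ, 0 ≤ R ∧ ∀ (φ : (ι → ℤ) → ℝ) (B' : ℝ), 0 ≤ B' →
      (∀ n : ℕ, ∑ k ∈ Finset.range n, en S.σ φ (S.p p0 k) ≤ B' * n) →
      ∀ l : ℝ, 0 < l → ∀ n : ℕ,
        fm φ (S.p p0 n) ≤ fm φ p0 + √(n : ℝ) * (R * l + 2 * B' * l⁻¹) := by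
  classical
  have hJ := S.nonempty hd
  have hι : Nonempty ι := Fintype.card_pos_iff.1 (by omega)
  set N : ℝ := (Fintype.card J : ℝ) with hN
  have hN0 : 0 < N := by
    have : 0 < Fintype.card J := Fintype.card_pos_iff.2 hJ
    rw [hN]; exact_mod_cast this
  set d : ℝ := (Fintype.card ι : ℝ) with hdd
  have hd0 : 0 < d := by rw [hdd]; exact_mod_cast (by omega : 0 < Fintype.card ι)
  set H : ℕ → ℝ := fun n => ent (S.p p0 n) with hH
  have hH0 : 0 ≤ H 0 := by
    refine tsum_nonneg fun x => ?_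
    refine negMulLog_nonneg (h.nonneg x) ?_
    rw [← h.sum]
    exact (summable_of_fin h.fin).le_tsum x fun y _ => h.nonneg y
  have hgain : ∀ n, exp (-2 * H n / d) ≤ (8 * d ^ 2 * N) * (H (n + 1) - H n) := fun n =>
    ent_gain hd S.fwd S.ne S.h0 (fun _ => rfl) (S.p_nonneg h n) (S.p_fin h n) (S.p_mem h n)
      (S.p_sum h n)
  obtain ⟨C, hC⟩ := log_growth hd0 (by positivity) hH0 hgain
  have hM : ∀ φ : (ι → ℤ) → ℝ, ∀ n, ∀ l : ℝ, 0 < l → fm φ (S.p p0 (n + 1)) ≤
      fm φ (S.p p0 n) + N / 2 * l * (H (n + 1) - H n) + l⁻¹ * en S.σ φ (S.p p0 n) :=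
    fun φ n l hl =>
    fm_step S.sym (S.p_nonneg h n) (S.p_fin h n) (S.ne hι.some) (S.h0 hι.some) hl
  have hm0 : 0 ≤ fm nrm p0 := tsum_nonneg fun x => mul_nonneg (h.nonneg x) (abs_nonneg _)
  have hR := R_bound (H := H) (M := fun n => fm nrm (S.p p0 n))
    (E := fun n => en S.σ nrm (S.p p0 n))
    hd0.le hN0 (hM nrm) hm0 hC hB hE
    (fun n a ha => ent_le (S.p_nonneg h n) (S.p_fin h n) (S.p_sum h n) ha)
  set R' := d + 4 * B * N + 2 * fm nrm (S.p p0 0) + 2 * (d * log 3) + 2 * C with hR'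
  have hR'0 : 0 ≤ R' := by
    have h1 := hR 0
    have h2 := hC 0
    linarith
  refine ⟨N / 2 * (R' + d), by positivity, fun φ B' hB' hE' l hl n => ?_⟩
  have h1 := moment_bound (H := H) (M := fun n => fm φ (S.p p0 n))
    (E := fun n => en S.σ φ (S.p p0 n))
    hd0.le hN0.le (hM φ) hC hB' hE' hl n
  refine h1.trans ?_
  have h2 := hR n
  have h3 : N / 2 * l * ((H n + C - d / 2 * log (n + 1)) + d) ≤ N / 2 * (R' + d) * l := by
    have : N / 2 * l * ((H n + C - d / 2 * log (n + 1)) + d) ≤ N / 2 * l * (R' + d) := by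
      gcongr
    linarith
  have h4 := mul_le_mul_of_nonneg_left h3 (Real.sqrt_nonneg (n : ℝ))
  have h5 : fm φ (S.p p0 0) = fm φ p0 := rfl
  simp only [h5]
  linarith

end Sys

end Pool.Agent.H98.Q
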