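import Pool.Agent.H98.Q.Hil

/-!
# The corrector, as functions
-/

set_option autoImplicit false
set_option linter.unusedSectionVars false
set_option linter.unusedVariables false

open MeasureTheory Filter Topology
open scoped RealInnerProductSpace ENNReal

namespace Pool.Agent.H98.Q

variable {Ω : Type*} [MeasurableSpace Ω] {P : Measure Ω} [IsProbabilityMeasure P]
  {E : Type*} [Fintype E] [Nonempty E] {τ : E → Ω → Ω}

/-- gradient of a function -/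
def gr (τ : E → Ω → Ω) (u : Ω → ℝ) (e : E) (ω : Ω) : ℝ := u (τ e ω) - u ω

/-- mean square over the directions -/
noncomputable def msq (H : E → Ω → ℝ) (ω : Ω) : ℝ := (Fintype.card E : ℝ)⁻¹ * ∑ e, (H e ω) ^ 2

theorem msq_nonneg (H : E → Ω → ℝ) (ω : Ω) : 0 ≤ msq H ω :=
  mul_nonneg (by positivity) (Finset.sum_nonneg fun _ _ => sq_nonneg _)

theorem msq_meas {H : E → Ω → ℝ} (h : ∀ e, Measurable (H e)) : Measurable (msq H) :=
  (Finset.measurable_sum _ fun e _ => (h e).pow_const 2).const_mul _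

theorem msq_int {H : E → Ω → ℝ} (h : ∀ e, MemLp (H e) 2 P) : Integrable (msq H) P :=
  (integrable_finsetSum _ fun e _ => (h e).integrable_sq).const_mul _

theorem le_msq (H : E → Ω → ℝ) (e : E) (ω : Ω) : (H e ω) ^ 2 ≤ (Fintype.card E : ℝ) * msq H ω := by
  rw [msq, ← mul_assoc, mul_comm (Fintype.card E : ℝ), card_mul_inv, one_mul]
  exact Finset.single_le_sum (f := fun e => (H e ω) ^ 2) (fun _ _ => sq_nonneg _)
    (Finset.mem_univ e)

theorem l2_norm_sq (x : Lp ℝ 2 P) {f : Ω → ℝ} (h : (x : Ω → ℝ) =ᵐ[P] f) :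
    ‖x‖ ^ 2 = ∫ ω, (f ω) ^ 2 ∂P := by
  rw [← real_inner_self_eq_norm_sq, L2.inner_def]
  refine integral_congr_ae ?_
  filter_upwards [h] with ω hω
  rw [hω, real_inner_self_eq_norm_sq, Real.norm_eq_abs, sq_abs]

theorem msq_le (h : PiLp 2 (fun _ : E => Lp ℝ 2 P)) {H : E → Ω → ℝ}
    (hH : ∀ e, (h e : Ω → ℝ) =ᵐ[P] H e) (hL : ∀ e, MemLp (H e) 2 P) :
    ∫ ω, msq H ω ∂P ≤ ‖h‖ ^ 2 := by
  rw [PiLp.norm_sq_eq_of_L2]
  simp only [msq]
  rw [integral_const_mul, integral_finsetSum _ (fun e _ => (hL e).integrable_sq)]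
  have h1 : ∀ e, ‖h e‖ ^ 2 = ∫ ω, (H e ω) ^ 2 ∂P := fun e => l2_norm_sq _ (hH e)
  simp only [h1]
  have h2 : 0 ≤ ∑ e, ∫ ω, (H e ω) ^ 2 ∂P :=
    Finset.sum_nonneg fun e _ => integral_nonneg fun ω => sq_nonneg _
  have h3 : (Fintype.card E : ℝ)⁻¹ ≤ 1 := by
    apply inv_le_one_of_one_le₀
    exact_mod_cast Fintype.card_pos
  exact mul_le_of_le_one_left h2 h3

theorem gr_meas (hτ : ∀ e, MeasurePreserving (τ e) P P) {u : Ω → ℝ} (hu : Measurable u) (e : E) :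
    Measurable (gr τ u e) := (hu.comp (hτ e).measurable).sub hu

theorem gr_bdd {u : Ω → ℝ} {C : ℝ} (hC : ∀ ω, |u ω| ≤ C) (e : E) (ω : Ω) :
    |gr τ u e ω| ≤ 2 * C := by
  rw [gr]
  have h1 := hC (τ e ω)
  have h2 := hC ω
  have h3 := abs_sub (u (τ e ω)) (u ω)
  linarith

theorem corrector (hτ : ∀ e, MeasurePreserving (τ e) P P) {ng : E → E}
    (hng : ∀ e, ng (ng e) = e) (hinv : ∀ e, ∀ᵐ ω ∂P, τ (ng e) (τ e ω) = ω)
    (F : E → Ω → ℝ) (hFm : ∀ e, Measurable (F e)) (hF : ∀ e, MemLp (F e) 2 P)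
    (hanti : ∀ e, ∀ᵐ ω ∂P, F (ng e) (τ e ω) = - F e ω) :
    ∃ (u : ℕ → Ω → ℝ) (δ : E → Ω → ℝ), (∀ m, Measurable (u m)) ∧
      (∀ m, ∃ C, ∀ ω, |u m ω| ≤ C) ∧ (∀ e, Measurable (δ e)) ∧ (∀ e, MemLp (δ e) 2 P) ∧
      (∀ᵐ ω ∂P, ∀ e, Tendsto (fun m => F e ω - gr τ (u m) e ω) atTop (𝓝 (δ e ω))) ∧
      (∀ᵐ ω ∂P, ∑ e, δ e ω = 0) ∧
      (∀ m, ∫ ω, msq (gr τ (u (m + 1) - u m)) ω ∂P ≤ (1 / 16) ^ m) := by
  have hUU : ∀ e x, U hτ e (U hτ (ng e) x) = x := by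
    intro e x
    apply Lp.ext
    have h1 := U_coe hτ e (U hτ (ng e) x)
    have h2 := (hτ e).quasiMeasurePreserving.ae (U_coe hτ (ng e) x)
    filter_upwards [h1, h2, hinv e] with ω a b c
    rw [a, b, c]
  set Fh : PiLp 2 (fun _ : E => Lp ℝ 2 P) := WithLp.toLp 2 (fun e => (hF e).toLp (F e)) with hFh
  have hFe : ∀ e, (Fh e : Ω → ℝ) =ᵐ[P] F e := fun e => MemLp.coeFn_toLp (hF e)
  have hFa : ∀ e, U hτ e (Fh (ng e)) = - Fh e := by
    intro e
    apply Lp.ext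
    have h1 := U_coe hτ e (Fh (ng e))
    have h2 := (hτ e).quasiMeasurePreserving.ae (hFe (ng e))
    filter_upwards [h1, h2, hFe e, hanti e, Lp.coeFn_neg (Fh e)] with ω a b c d f
    rw [a, b, d, f, Pi.neg_apply, c]
  obtain ⟨δh, hδ1, hδ2⟩ := hil hτ hng hUU Fh hFa
  choose s hs using fun m : ℕ => hδ1 ((1 / 4) ^ m / 2) (by positivity)
  set u : ℕ → Ω → ℝ := fun m => Lp.simpleFunc.toSimpleFunc (s m) with hu
  set δ : E → Ω → ℝ := fun e => (δh e : Ω → ℝ) with hδ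
  have hus : ∀ m, u m =ᵐ[P] ((s m : Lp ℝ 2 P) : Ω → ℝ) := fun m =>
    Lp.simpleFunc.toSimpleFunc_eq_toFun (s m)
  have hum : ∀ m, Measurable (u m) := fun m => (Lp.simpleFunc.toSimpleFunc (s m)).measurable
  have hub : ∀ m, ∃ C, ∀ ω, |u m ω| ≤ C := fun m =>
    (Lp.simpleFunc.toSimpleFunc (s m)).exists_forall_norm_le
  have hδm : ∀ e, Measurable (δ e) := fun e => (Lp.stronglyMeasurable (δh e)).measurable
  have hδL : ∀ e, MemLp (δ e) 2 P := fun e => Lp.memLp (δh e)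
  have hgrL : ∀ m e, MemLp (gr τ (u m) e) 2 P := by
    intro m e
    obtain ⟨C, hC⟩ := hub m
    exact memLp_bdd (gr_meas hτ (hum m) e) (fun ω => gr_bdd hC e ω) 2
  have hDs : ∀ m e, (D hτ (s m : Lp ℝ 2 P) e : Ω → ℝ) =ᵐ[P] gr τ (u m) e := by
    intro m e
    rw [D_apply]
    have h1 := U_coe hτ e (s m : Lp ℝ 2 P)
    have h2 := (hτ e).quasiMeasurePreserving.ae (hus m)
    filter_upwards [h1, h2, hus m, Lp.coeFn_sub (U hτ e (s m : Lp ℝ 2 P)) (s m : Lp ℝ 2 P)]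
      with ω a b c d
    rw [d, Pi.sub_apply, a, ← b, ← c, gr]
  refine ⟨u, δ, hum, hub, hδm, hδL, ?_, ?_, ?_⟩
  · -- convergence
    set G : ℕ → Ω → ℝ := fun m => msq (fun e ω => F e ω - δ e ω - gr τ (u m) e ω) with hG
    have hGm : ∀ m, Measurable (G m) := fun m =>
      msq_meas fun e => ((hFm e).sub (hδm e)).sub (gr_meas hτ (hum m) e)
    have hGL : ∀ m e, MemLp (fun ω => F e ω - δ e ω - gr τ (u m) e ω) 2 P := fun m e =>
      ((hF e).sub (hδL e)).sub (hgrL m e)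
    have hle : ∀ m, ∫ ω, G m ω ∂P ≤ (1 / 4) ^ m := by
      intro m
      have h1 : ∫ ω, G m ω ∂P ≤ ‖Fh - δh - D hτ (s m : Lp ℝ 2 P)‖ ^ 2 := by
        refine msq_le _ (fun e => ?_) (hGL m)
        have e1 : (Fh - δh - D hτ (s m : Lp ℝ 2 P)) e = Fh e - δh e - D hτ (s m : Lp ℝ 2 P) e := rfl
        rw [e1]
        filter_upwards [Lp.coeFn_sub (Fh e - δh e) (D hτ (s m : Lp ℝ 2 P) e),
          Lp.coeFn_sub (Fh e) (δh e), hFe e, hDs m e] with ω a b c d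
        rw [a, Pi.sub_apply, b, Pi.sub_apply, c, d]
      refine h1.trans ?_
      have h2 := (hs m).le
      have h3 : (1 / 4 : ℝ) ^ m ≤ 1 := pow_le_one₀ (by norm_num) (by norm_num)
      have h4 : (0 : ℝ) ≤ (1 / 4 : ℝ) ^ m := by positivity
      have h5 : ‖Fh - δh - D hτ (s m : Lp ℝ 2 P)‖ ^ 2 ≤ ((1 / 4) ^ m / 2) ^ 2 :=
        pow_le_pow_left₀ (norm_nonneg _) h2 2
      nlinarith
    have hsm := ae_small hτ hGm (fun m => msq_int (hGL m)) (fun m ω => msq_nonneg _ _) hle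
    filter_upwards [hsm] with ω hω e
    have h1 : ∀ᶠ m in atTop, (F e ω - δ e ω - gr τ (u m) e ω) ^ 2 ≤
        (Fintype.card E : ℝ) * (1 / 2) ^ m := by
      filter_upwards [hω] with m hm
      have h2 := hm 1
      simp only [Finset.range_one, Finset.sum_singleton, Function.iterate_zero, id, Nat.cast_one,
        mul_one] at h2
      refine (le_msq (fun e ω => F e ω - δ e ω - gr τ (u m) e ω) e ω).trans ?_
      exact mul_le_mul_of_nonneg_left h2 (by positivity)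
    have h2 : Tendsto (fun m => (Fintype.card E : ℝ) * (1 / 2 : ℝ) ^ m) atTop (𝓝 0) := by
      have := (tendsto_pow_atTop_nhds_zero_of_lt_one (by norm_num : (0 : ℝ) ≤ 1 / 2)
        (by norm_num)).const_mul (Fintype.card E : ℝ)
      simpa using this
    have h3 : Tendsto (fun m => (F e ω - δ e ω - gr τ (u m) e ω) ^ 2) atTop (𝓝 0) :=
      tendsto_of_tendsto_of_tendsto_of_le_of_le' tendsto_const_nhds h2
        (Eventually.of_forall fun m => sq_nonneg _) h1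
    have h4 : Tendsto (fun m => F e ω - δ e ω - gr τ (u m) e ω) atTop (𝓝 0) := by
      have h5 := h3.sqrt
      simp only [Real.sqrt_sq_eq_abs, Real.sqrt_zero] at h5
      exact (tendsto_zero_iff_abs_tendsto_zero _).2 h5
    have h5 := h4.add_const (δ e ω)
    simp only [zero_add] at h5
    refine h5.congr fun m => ?_
    ring
  · -- harmonicity
    have h1 : ((∑ e, δh e : Lp ℝ 2 P) : Ω → ℝ) =ᵐ[P] fun ω => ∑ e, δ e ω := by
      filter_upwards [Lp.coeFn_finsetSum Finset.univ (fun e => δh e)] with ω a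
      rw [a, Finset.sum_apply]
    rw [hδ2] at h1
    filter_upwards [h1, Lp.coeFn_zero ℝ 2 P] with ω a b
    rw [← a, b]; rfl
  · -- energies
    intro m
    have h1 : ∫ ω, msq (gr τ (u (m + 1) - u m)) ω ∂P ≤
        ‖D hτ (s (m + 1) : Lp ℝ 2 P) - D hτ (s m : Lp ℝ 2 P)‖ ^ 2 := by
      refine msq_le _ (fun e => ?_) (fun e => ?_)
      · have e1 : (D hτ (s (m + 1) : Lp ℝ 2 P) - D hτ (s m : Lp ℝ 2 P)) e =
          D hτ (s (m + 1) : Lp ℝ 2 P) e - D hτ (s m : Lp ℝ 2 P) e := rfl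
        rw [e1]
        filter_upwards [Lp.coeFn_sub (D hτ (s (m + 1) : Lp ℝ 2 P) e) (D hτ (s m : Lp ℝ 2 P) e),
          hDs (m + 1) e, hDs m e] with ω a b c
        rw [a, Pi.sub_apply, b, c]
        simp only [gr, Pi.sub_apply]; ring
      · have : gr τ (u (m + 1) - u m) e = gr τ (u (m + 1)) e - gr τ (u m) e := by
          funext ω; simp only [gr, Pi.sub_apply]; ring
        rw [this]
        exact (hgrL _ e).sub (hgrL _ e)
    refine h1.trans ?_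
    have h2 : ‖D hτ (s (m + 1) : Lp ℝ 2 P) - D hτ (s m : Lp ℝ 2 P)‖ ≤ (1 / 4) ^ m := by
      have e1 : D hτ (s (m + 1) : Lp ℝ 2 P) - D hτ (s m : Lp ℝ 2 P) =
        (Fh - δh - D hτ (s m : Lp ℝ 2 P)) - (Fh - δh - D hτ (s (m + 1) : Lp ℝ 2 P)) := by abel
      rw [e1]
      refine (norm_sub_le _ _).trans ?_
      have h3 := (hs m).le
      have h4 := (hs (m + 1)).le
      have h5 : (1 / 4 : ℝ) ^ (m + 1) = (1 / 4) ^ m / 4 := by rw [pow_succ]; ring
      rw [h5] at h4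
      have h6 : (0 : ℝ) ≤ (1 / 4 : ℝ) ^ m := by positivity
      linarith
    calc ‖D hτ (s (m + 1) : Lp ℝ 2 P) - D hτ (s m : Lp ℝ 2 P)‖ ^ 2 ≤ ((1 / 4) ^ m) ^ 2 :=
          pow_le_pow_left₀ (norm_nonneg _) h2 2
      _ = (1 / 16) ^ m := by rw [← pow_mul, mul_comm, pow_mul]; norm_num

end Pool.Agent.H98.Q
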