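import Mathlib

/-!
# Entropy production of a lazy average of bijections

`V` is a type, `σ : J → Equiv.Perm V` a finite family, `avg σ p x = (1/|J|) ∑ j, p (σ j x)`.
-/

set_option autoImplicit false

open Real

namespace Pool.Agent.H98.Q

/-- tangent line inequality for `s ↦ s log s` -/
theorem eta_tangent {a A : ℝ} (ha : 0 ≤ a) (hA : 0 < A) :
    A * log A + (log A + 1) * (a - A) ≤ a * log a := by
  rcases ha.eq_or_lt with h | h
  · subst h; simp; nlinarith [hA]
  · have h1 : 1 - A / a ≤ log (a / A) := by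
      have := Real.one_sub_inv_le_log_of_pos (div_pos h hA)
      simpa [inv_div] using this
    have h2 : log (a / A) = log a - log A := Real.log_div h.ne' hA.ne'
    have h3 : a * (1 - A / a) ≤ a * log (a / A) := mul_le_mul_of_nonneg_left h1 h.le
    have h4 : a * (1 - A / a) = a - A := by field_simp
    rw [h4, h2] at h3
    nlinarith

/-- `a log (a/m) ≥ 2 a - 2 √(a m)` -/
theorem log_sqrt_bound {a m : ℝ} (ha : 0 ≤ a) (hm : 0 < m) :
    a * log m + 2 * a - 2 * √a * √m ≤ a * log a := by
  rcases ha.eq_or_lt with h | h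
  · subst h; simp
  · have hs : 0 < √a := Real.sqrt_pos.2 h
    have hsm : 0 < √m := Real.sqrt_pos.2 hm
    have h1 : 1 - √m / √a ≤ log (√a / √m) := by
      have := Real.one_sub_inv_le_log_of_pos (div_pos hs hsm)
      simpa [inv_div] using this
    have h2 : log (√a / √m) = (log a - log m) / 2 := by
      rw [Real.log_div hs.ne' hsm.ne', Real.log_sqrt h.le, Real.log_sqrt hm.le]; ring
    rw [h2] at h1
    have h3 : (2 * a) * (1 - √m / √a) ≤ (2 * a) * ((log a - log m) / 2) :=
      mul_le_mul_of_nonneg_left h1 (by positivity)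
    have h4 : (2 * a) * (1 - √m / √a) = 2 * a - 2 * √a * √m := by
      have : a = √a * √a := (Real.mul_self_sqrt h.le).symm
      field_simp
      nlinarith [Real.mul_self_sqrt h.le]
    rw [h4] at h3
    nlinarith

/-- quantitative midpoint convexity -/
theorem eta_pair {a b : ℝ} (ha : 0 ≤ a) (hb : 0 ≤ b) :
    2 * ((a + b) / 2 * log ((a + b) / 2)) + (√a - √b) ^ 2 / 2 ≤ a * log a + b * log b := by
  rcases (add_nonneg ha hb).eq_or_lt with h | h
  · have h1 : a = 0 := by linarith
    have h2 : b = 0 := by linarith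
    subst h1; subst h2; simp
  · set m := (a + b) / 2 with hm
    have hm0 : 0 < m := by positivity
    have e1 := log_sqrt_bound ha hm0
    have e2 := log_sqrt_bound hb hm0
    have hsm : 0 < √m := Real.sqrt_pos.2 hm0
    have q1 : √a * √a = a := Real.mul_self_sqrt ha
    have q2 : √b * √b = b := Real.mul_self_sqrt hb
    have q3 : √m * √m = m := Real.mul_self_sqrt hm0.le
    have hsa := Real.sqrt_nonneg a
    have hsb := Real.sqrt_nonneg b
    -- S = √a + √b ≤ 2 √m
    have hS : √a + √b ≤ 2 * √m := by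
      nlinarith [sq_nonneg (√a - √b), sq_nonneg (√a + √b - 2 * √m)]
    have hkey : (√a - √b) ^ 2 / 2 ≤ 4 * m - 2 * √m * (√a + √b) := by
      -- δ = 4m - S², RHS = 2√m (2√m - S)
      have h5 : (√a - √b) ^ 2 = (2 * √m - (√a + √b)) * (2 * √m + (√a + √b)) := by
        nlinarith
      rw [h5]
      nlinarith [mul_nonneg (sub_nonneg.2 hS) (sub_nonneg.2 hS)]
    have hab : a + b = 2 * m := by rw [hm]; ring
    have : m * log m + m * log m = a * log m + b * log m := by
      rw [← add_mul a b, hab]; ring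
    nlinarith

/-- average along a finite family of bijections -/
noncomputable def avg {V J : Type*} [Fintype J] (σ : J → Equiv.Perm V) (p : V → ℝ) (x : V) : ℝ :=
  (Fintype.card J : ℝ)⁻¹ * ∑ j, p (σ j x)

/-- entropy -/
noncomputable def ent {V : Type*} (p : V → ℝ) : ℝ := ∑' x, negMulLog (p x)

/-- Hellinger energy along a bijection -/
noncomputable def hel {V : Type*} (s : Equiv.Perm V) (p : V → ℝ) : ℝ := ∑' x, (√(p x) - √(p (s x))) ^ 2

section

variable {V J : Type*} [Fintype J] {σ : J → Equiv.Perm V} {p : V → ℝ}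

theorem fin_comp {E : Type*} [Zero E] {f : V → E} (hf : f.support.Finite) (s : Equiv.Perm V) :
    (fun x => f (s x)).support.Finite := by
  have : (fun x => f (s x)).support = s ⁻¹' f.support := rfl
  rw [this]
  exact hf.preimage (s.injective.injOn)

theorem summable_of_fin {f : V → ℝ} (hf : f.support.Finite) : Summable f :=
  summable_of_hasFiniteSupport hf

theorem avg_nonneg (hp : ∀ x, 0 ≤ p x) (x : V) : 0 ≤ avg σ p x :=
  mul_nonneg (by positivity) (Finset.sum_nonneg fun j _ => hp _)

theorem avg_fin (hf : p.support.Finite) : (avg σ p).support.Finite := by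
  have : (avg σ p).support ⊆ ⋃ j, (fun x => p (σ j x)).support := by
    intro x hx
    by_contra h
    simp only [Set.mem_iUnion, not_exists, Function.mem_support, not_not] at h
    exact hx (by simp [avg, h])
  exact (Set.finite_iUnion fun j => fin_comp hf (σ j)).subset this

theorem tsum_comp (s : Equiv.Perm V) (f : V → ℝ) : ∑' x, f (s x) = ∑' x, f x := s.tsum_eq f

theorem tsum_avg [Nonempty J] (hf : p.support.Finite) : ∑' x, avg σ p x = ∑' x, p x := by
  unfold avg
  rw [tsum_mul_left, Summable.tsum_finsetSum (fun j _ => summable_of_fin (fin_comp hf (σ j)))]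
  simp only [tsum_comp]
  rw [Finset.sum_const, Finset.card_univ, nsmul_eq_mul, ← mul_assoc, inv_mul_cancel₀, one_mul]
  exact_mod_cast Fintype.card_ne_zero

/-- pointwise entropy production -/
theorem eta_avg_le [DecidableEq J] (hp : ∀ x, 0 ≤ p x) {j0 j1 : J} (hne : j0 ≠ j1)
    (h0 : σ j0 = 1) (x : V) :
    (Fintype.card J : ℝ) * (avg σ p x * log (avg σ p x)) + (√(p x) - √(p (σ j1 x))) ^ 2 / 2
      ≤ ∑ j, p (σ j x) * log (p (σ j x)) := by
  have hN : (0 : ℝ) < Fintype.card J := by
    have : 0 < Fintype.card J := Fintype.card_pos_iff.2 ⟨j0⟩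
    exact_mod_cast this
  set A := avg σ p x with hA
  have hsum : ∑ j, p (σ j x) = Fintype.card J * A := by
    rw [hA, avg, ← mul_assoc, mul_inv_cancel₀ hN.ne', one_mul]
  rcases (avg_nonneg hp x : 0 ≤ A).eq_or_lt with hz | hpos
  · have hz2 : A = 0 := hz.symm
    have hz' : ∑ j, p (σ j x) = 0 := by rw [hsum, hz2]; simp
    have hall : ∀ j, p (σ j x) = 0 := fun j =>
      (Finset.sum_eq_zero_iff_of_nonneg (fun j _ => hp _)).1 hz' j (Finset.mem_univ _)
    have hx : p x = 0 := by simpa [h0] using hall j0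
    simp [hall, hx, hz2]
  · -- g j = η(a_j) - η(A) - (log A + 1)(a_j - A) ≥ 0
    set g : J → ℝ := fun j => p (σ j x) * log (p (σ j x)) -
      (A * log A + (log A + 1) * (p (σ j x) - A)) with hg
    have hg0 : ∀ j, 0 ≤ g j := fun j => sub_nonneg.2 (eta_tangent (hp _) hpos)
    have hpair : (√(p x) - √(p (σ j1 x))) ^ 2 / 2 ≤ g j0 + g j1 := by
      have e1 := eta_pair (hp (σ j0 x)) (hp (σ j1 x))
      have e2 := eta_tangent (a := (p (σ j0 x) + p (σ j1 x)) / 2)
        (by have := hp (σ j0 x); have := hp (σ j1 x); positivity) hpos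
      have e3 : σ j0 x = x := by rw [h0]; rfl
      simp only [hg]
      rw [e3] at e1 e2 ⊢
      nlinarith
    have hle : g j0 + g j1 ≤ ∑ j, g j := by
      rw [← Finset.sum_pair hne]
      exact Finset.sum_le_sum_of_subset_of_nonneg (Finset.subset_univ _) (fun j _ _ => hg0 j)
    have htot : ∑ j, g j = (∑ j, p (σ j x) * log (p (σ j x))) - Fintype.card J * (A * log A) := by
      simp only [hg, Finset.sum_sub_distrib, Finset.sum_add_distrib, Finset.sum_const,
        ← Finset.mul_sum, hsum, Finset.card_univ, nsmul_eq_mul]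
      ring
    linarith

theorem negMulLog_fin (hf : p.support.Finite) : (fun x => negMulLog (p x)).support.Finite :=
  hf.subset fun x hx hx0 => hx (by simp [show p x = 0 from hx0])

theorem hel_fin (hf : p.support.Finite) (s : Equiv.Perm V) :
    (fun x => (√(p x) - √(p (s x))) ^ 2).support.Finite := by
  refine (hf.union (fin_comp hf s)).subset fun x hx => ?_
  by_contra h
  simp only [Set.mem_union, Function.mem_support, not_or, not_not] at h
  exact hx (by simp [h.1, h.2])

/-- **Entropy production.** -/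
theorem ent_avg_ge [DecidableEq J] (hp : ∀ x, 0 ≤ p x) (hf : p.support.Finite) {j0 j1 : J}
    (hne : j0 ≠ j1) (h0 : σ j0 = 1) :
    ent p + (2 * Fintype.card J : ℝ)⁻¹ * hel (σ j1) p ≤ ent (avg σ p) := by
  have hN : (0 : ℝ) < Fintype.card J := by
    have : 0 < Fintype.card J := Fintype.card_pos_iff.2 ⟨j0⟩
    exact_mod_cast this
  have hpt : ∀ x, (Fintype.card J : ℝ)⁻¹ * ∑ j, negMulLog (p (σ j x)) +
      (2 * Fintype.card J : ℝ)⁻¹ * (√(p x) - √(p (σ j1 x))) ^ 2 ≤ negMulLog (avg σ p x) := by
    intro x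
    have := eta_avg_le hp hne h0 x
    simp only [negMulLog, neg_mul, Finset.sum_neg_distrib, mul_neg]
    rw [mul_inv]
    have h2 : (Fintype.card J : ℝ)⁻¹ * ((Fintype.card J : ℝ) * (avg σ p x * log (avg σ p x)) +
        (√(p x) - √(p (σ j1 x))) ^ 2 / 2) ≤
        (Fintype.card J : ℝ)⁻¹ * ∑ j, p (σ j x) * log (p (σ j x)) :=
      mul_le_mul_of_nonneg_left this (by positivity)
    rw [mul_add, ← mul_assoc, inv_mul_cancel₀ hN.ne', one_mul] at h2
    linarith [h2]
  have s1 : Summable fun x => (Fintype.card J : ℝ)⁻¹ * ∑ j, negMulLog (p (σ j x)) :=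
    (summable_sum fun j _ => summable_of_fin (fin_comp (negMulLog_fin hf) (σ j))).mul_left _
  have s2 : Summable fun x => (2 * Fintype.card J : ℝ)⁻¹ * (√(p x) - √(p (σ j1 x))) ^ 2 :=
    (summable_of_fin (hel_fin hf (σ j1))).mul_left _
  have s3 : Summable fun x => negMulLog (avg σ p x) := summable_of_fin (negMulLog_fin (avg_fin hf))
  have := (s1.add s2).tsum_le_tsum hpt s3
  rw [s1.tsum_add s2, tsum_mul_left, tsum_mul_left,
    Summable.tsum_finsetSum (fun j _ => summable_of_fin (fin_comp (negMulLog_fin hf) (σ j)))] at this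
  have e : ∀ j : J, ∑' x, negMulLog (p (σ j x)) = ent p := fun j =>
    tsum_comp (σ j) (fun x => negMulLog (p x))
  simp only [e, Finset.sum_const, Finset.card_univ, nsmul_eq_mul] at this
  rw [← mul_assoc, inv_mul_cancel₀ hN.ne', one_mul] at this
  exact this

end

end Pool.Agent.H98.Q
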