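import Mathlib

/-!
# Averaged composition operators and the maximal ergodic inequality
-/

set_option autoImplicit false
set_option linter.unusedSectionVars false
set_option linter.unusedVariables false

open MeasureTheory Filter Topology

namespace Pool.Agent.H98.Q

variable {Ω : Type*} {E : Type*} [Fintype E] [Nonempty E]

/-- averaged composition operator -/
noncomputable def T (τ : E → Ω → Ω) (G : Ω → ℝ) (ω : Ω) : ℝ :=
  (Fintype.card E : ℝ)⁻¹ * ∑ e, G (τ e ω)

section basic

variable {τ : E → Ω → Ω}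

theorem card_mul_inv : (Fintype.card E : ℝ)⁻¹ * (Fintype.card E : ℝ) = 1 :=
  inv_mul_cancel₀ (by exact_mod_cast Fintype.card_ne_zero)

theorem T_mono {F G : Ω → ℝ} (h : ∀ ω, F ω ≤ G ω) (ω : Ω) : T τ F ω ≤ T τ G ω :=
  mul_le_mul_of_nonneg_left (Finset.sum_le_sum fun e _ => h _) (by positivity)

theorem T_add (F G : Ω → ℝ) : T τ (F + G) = T τ F + T τ G := by
  funext ω; simp only [T, Pi.add_apply, Finset.sum_add_distrib]; ring

theorem T_sub (F G : Ω → ℝ) : T τ (F - G) = T τ F - T τ G := by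
  funext ω; simp only [T, Pi.sub_apply, Finset.sum_sub_distrib]; ring

theorem T_smul (c : ℝ) (F : Ω → ℝ) : T τ (c • F) = c • T τ F := by
  funext ω; simp only [T, Pi.smul_apply, smul_eq_mul, ← Finset.mul_sum]; ring

theorem T_const (c : ℝ) : T τ (fun _ => c) = fun _ => c := by
  funext ω
  simp only [T, Finset.sum_const, Finset.card_univ, nsmul_eq_mul]
  rw [← mul_assoc, card_mul_inv, one_mul]

theorem T_abs (F : Ω → ℝ) (ω : Ω) : |T τ F ω| ≤ T τ (fun ω => |F ω|) ω := by
  rw [T, abs_mul, abs_of_nonneg (by positivity : 0 ≤ (Fintype.card E : ℝ)⁻¹)]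
  exact mul_le_mul_of_nonneg_left (Finset.abs_sum_le_sum_abs _ _) (by positivity)

theorem iter_succ (n : ℕ) (F : Ω → ℝ) : (T τ)^[n + 1] F = T τ ((T τ)^[n] F) :=
  Function.iterate_succ_apply' _ _ _

theorem iter_mono {F G : Ω → ℝ} (h : ∀ ω, F ω ≤ G ω) (n : ℕ) (ω : Ω) :
    (T τ)^[n] F ω ≤ (T τ)^[n] G ω := by
  induction n generalizing ω with
  | zero => exact h ω
  | succ n ih => rw [iter_succ, iter_succ]; exact T_mono ih ω

theorem iter_add (F G : Ω → ℝ) (n : ℕ) : (T τ)^[n] (F + G) = (T τ)^[n] F + (T τ)^[n] G := by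
  induction n with
  | zero => rfl
  | succ n ih => rw [iter_succ, iter_succ, iter_succ, ih, T_add]

theorem iter_sub (F G : Ω → ℝ) (n : ℕ) : (T τ)^[n] (F - G) = (T τ)^[n] F - (T τ)^[n] G := by
  induction n with
  | zero => rfl
  | succ n ih => rw [iter_succ, iter_succ, iter_succ, ih, T_sub]

theorem iter_smul (c : ℝ) (F : Ω → ℝ) (n : ℕ) : (T τ)^[n] (c • F) = c • (T τ)^[n] F := by
  induction n with
  | zero => rfl
  | succ n ih => rw [iter_succ, iter_succ, ih, T_smul]

theorem iter_const (c : ℝ) (n : ℕ) : (T τ)^[n] (fun _ => c) = fun _ => c := by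
  induction n with
  | zero => rfl
  | succ n ih => rw [iter_succ, ih, T_const]

theorem iter_nonneg {F : Ω → ℝ} (h : ∀ ω, 0 ≤ F ω) (n : ℕ) (ω : Ω) : 0 ≤ (T τ)^[n] F ω := by
  have := iter_mono (τ := τ) (F := fun _ => 0) h n ω
  rwa [iter_const] at this

theorem iter_abs (F : Ω → ℝ) (n : ℕ) (ω : Ω) :
    |(T τ)^[n] F ω| ≤ (T τ)^[n] (fun ω => |F ω|) ω := by
  induction n generalizing ω with
  | zero => exact le_rfl
  | succ n ih =>
    rw [iter_succ, iter_succ]
    exact (T_abs _ ω).trans (T_mono ih ω)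

/-- an invariant set -/
def Inv (τ : E → Ω → Ω) (S : Set Ω) : Prop := ∀ ω ∈ S, ∀ e, τ e ω ∈ S

theorem iter_congr {S : Set Ω} (hS : Inv τ S) {F G : Ω → ℝ} (h : ∀ ω ∈ S, F ω = G ω) (n : ℕ) :
    ∀ ω ∈ S, (T τ)^[n] F ω = (T τ)^[n] G ω := by
  induction n with
  | zero => exact h
  | succ n ih =>
    intro ω hω
    rw [iter_succ, iter_succ, T, T]
    congr 1
    exact Finset.sum_congr rfl fun e _ => ih _ (hS ω hω e)

theorem iter_mono_on {S : Set Ω} (hS : Inv τ S) {F G : Ω → ℝ} (h : ∀ ω ∈ S, F ω ≤ G ω) (n : ℕ) :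
    ∀ ω ∈ S, (T τ)^[n] F ω ≤ (T τ)^[n] G ω := by
  induction n with
  | zero => exact h
  | succ n ih =>
    intro ω hω
    rw [iter_succ, iter_succ, T, T]
    exact mul_le_mul_of_nonneg_left (Finset.sum_le_sum fun e _ => ih _ (hS ω hω e)) (by positivity)

end basic

section meas

variable [MeasurableSpace Ω] {P : Measure Ω} {τ : E → Ω → Ω}

/-- every almost sure property holds on an invariant set of full measure -/
theorem exists_inv (hτ : ∀ e, MeasurePreserving (τ e) P P) {p : Ω → Prop} (hp : ∀ᵐ ω ∂P, p ω) :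
    ∃ S : Set Ω, (∀ᵐ ω ∂P, ω ∈ S) ∧ Inv τ S ∧ ∀ ω ∈ S, p ω := by
  set act : List E → Ω → Ω := fun l ω => l.foldl (fun ω e => τ e ω) ω with hact
  have hcons : ∀ e l ω, act (e :: l) ω = act l (τ e ω) := fun e l ω => rfl
  have hq : ∀ l, MeasurePreserving (act l) P P := by
    intro l
    induction l with
    | nil => exact MeasurePreserving.id P
    | cons e l ih => exact ih.comp (hτ e)
  refine ⟨{ω | ∀ l, p (act l ω)}, ?_, ?_, ?_⟩
  · have : Countable (List E) := inferInstance
    have := (ae_all_iff (μ := P) (p := fun ω l => p (act l ω))).2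
      (fun l => (hq l).quasiMeasurePreserving.ae hp)
    exact this
  · intro ω hω e l
    rw [← hcons]; exact hω _
  · intro ω hω
    exact hω []

theorem T_meas (hτ : ∀ e, MeasurePreserving (τ e) P P) {F : Ω → ℝ} (hF : Measurable F) :
    Measurable (T τ F) :=
  (Finset.measurable_sum _ fun e _ => hF.comp (hτ e).measurable).const_mul _

theorem T_int (hτ : ∀ e, MeasurePreserving (τ e) P P) {F : Ω → ℝ} (hF : Integrable F P) :
    Integrable (T τ F) P := by
  have : Integrable (fun ω => ∑ e, F (τ e ω)) P :=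
    integrable_finsetSum _ fun e _ => (hτ e).integrable_comp_of_integrable hF
  exact this.const_mul _

theorem T_integral (hτ : ∀ e, MeasurePreserving (τ e) P P) {F : Ω → ℝ} (hFm : Measurable F)
    (hF : Integrable F P) : ∫ ω, T τ F ω ∂P = ∫ ω, F ω ∂P := by
  simp only [T]
  rw [integral_const_mul, integral_finsetSum]
  · have : ∀ e, ∫ ω, F (τ e ω) ∂P = ∫ ω, F ω ∂P := fun e => by
      have h1 := integral_map (μ := P) (φ := τ e) (f := F) (hτ e).aemeasurable
        (by rw [(hτ e).map_eq]; exact hFm.aestronglyMeasurable)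
      rw [(hτ e).map_eq] at h1
      exact h1.symm
    simp only [this, Finset.sum_const, Finset.card_univ, nsmul_eq_mul]
    rw [← mul_assoc, card_mul_inv, one_mul]
  · intro e _
    exact (hτ e).integrable_comp_of_integrable hF

theorem iter_meas (hτ : ∀ e, MeasurePreserving (τ e) P P) {F : Ω → ℝ} (hF : Measurable F) (n : ℕ) :
    Measurable ((T τ)^[n] F) := by
  induction n with
  | zero => exact hF
  | succ n ih => rw [iter_succ]; exact T_meas hτ ih

theorem iter_int (hτ : ∀ e, MeasurePreserving (τ e) P P) {F : Ω → ℝ} (hF : Integrable F P)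
    (n : ℕ) : Integrable ((T τ)^[n] F) P := by
  induction n with
  | zero => exact hF
  | succ n ih => rw [iter_succ]; exact T_int hτ ih

/-- Garsia's recursion -/
noncomputable def gar (τ : E → Ω → Ω) (f : Ω → ℝ) : ℕ → Ω → ℝ
  | 0 => fun _ => 0
  | n + 1 => fun ω => max 0 (f ω + T τ (gar τ f n) ω)

theorem gar_nonneg (f : Ω → ℝ) (n : ℕ) (ω : Ω) : 0 ≤ gar τ f n ω := by
  cases n with
  | zero => exact le_rfl
  | succ n => exact le_max_left _ _

theorem gar_mono (f : Ω → ℝ) (n : ℕ) (ω : Ω) : gar τ f n ω ≤ gar τ f (n + 1) ω := by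
  induction n generalizing ω with
  | zero => exact gar_nonneg f 1 ω
  | succ n ih =>
    change max 0 _ ≤ max 0 _
    exact max_le_max le_rfl (add_le_add le_rfl (T_mono ih ω))

theorem gar_meas (hτ : ∀ e, MeasurePreserving (τ e) P P) {f : Ω → ℝ} (hf : Measurable f) (n : ℕ) :
    Measurable (gar τ f n) := by
  induction n with
  | zero => exact measurable_const
  | succ n ih => exact measurable_const.max (hf.add (T_meas hτ ih))

theorem gar_int [IsFiniteMeasure P] (hτ : ∀ e, MeasurePreserving (τ e) P P) {f : Ω → ℝ}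
    (hf : Integrable f P) (n : ℕ) : Integrable (gar τ f n) P := by
  induction n with
  | zero => exact integrable_zero _ _ _
  | succ n ih => exact (integrable_zero _ _ _).sup (hf.add (T_int hτ ih))

theorem le_gar (f : Ω → ℝ) (n : ℕ) (ω : Ω) :
    ∑ k ∈ Finset.range n, (T τ)^[k] f ω ≤ gar τ f n ω := by
  induction n generalizing ω with
  | zero => simp [gar]
  | succ n ih =>
    rw [Finset.sum_range_succ']
    have h1 : ∑ k ∈ Finset.range n, (T τ)^[k + 1] f ω =
        T τ (fun ω => ∑ k ∈ Finset.range n, (T τ)^[k] f ω) ω := by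
      simp only [iter_succ, T]
      rw [← Finset.mul_sum, Finset.sum_comm]
    rw [h1]
    refine le_trans ?_ (le_max_right _ _)
    have := T_mono (τ := τ) ih ω
    simp only [Function.iterate_zero, id]
    linarith

/-- **Maximal inequality** -/
theorem maximal [IsProbabilityMeasure P] (hτ : ∀ e, MeasurePreserving (τ e) P P) {G : Ω → ℝ}
    (hGm : Measurable G) (hG : Integrable G P) (hG0 : ∀ ω, 0 ≤ G ω) {l : ℝ} (hl : 0 < l) :
    P {ω | ∃ n : ℕ, l * n < ∑ k ∈ Finset.range n, (T τ)^[k] G ω} ≤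
      ENNReal.ofReal (l⁻¹ * ∫ ω, G ω ∂P) := by
  set f : Ω → ℝ := G - fun _ => l with hf
  have hfm : Measurable f := hGm.sub measurable_const
  have hfi : Integrable f P := hG.sub (integrable_const _)
  set A : ℕ → Set Ω := fun n => {ω | 0 < gar τ f n ω} with hA
  have hAm : ∀ n, MeasurableSet (A n) := fun n => measurableSet_lt measurable_const
    (gar_meas hτ hfm n)
  have hmono : Monotone A := monotone_nat_of_le_succ fun n ω hω => lt_of_lt_of_le hω (gar_mono f n ω)
  have hsub : {ω | ∃ n : ℕ, l * n < ∑ k ∈ Finset.range n, (T τ)^[k] G ω} ⊆ ⋃ n, A n := by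
    rintro ω ⟨n, hn⟩
    refine Set.mem_iUnion.2 ⟨n, ?_⟩
    refine lt_of_lt_of_le ?_ (le_gar f n ω)
    have : ∀ k, (T τ)^[k] f ω = (T τ)^[k] G ω - l := fun k => by
      rw [hf, iter_sub, iter_const]; rfl
    simp only [this, Finset.sum_sub_distrib, Finset.sum_const, Finset.card_range, nsmul_eq_mul]
    linarith
  have hbound : ∀ n, P (A n) ≤ ENNReal.ofReal (l⁻¹ * ∫ ω, G ω ∂P) := by
    intro n
    -- enough for n + 1
    refine (measure_mono (hmono (Nat.le_succ n))).trans ?_
    set M := gar τ f (n + 1) with hM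
    have hMi : Integrable M P := gar_int hτ hfi _
    have hMm : Measurable M := gar_meas hτ hfm _
    have hTi : Integrable (T τ M) P := T_int hτ hMi
    have hon : ∀ ω ∈ A (n + 1), M ω ≤ f ω + T τ M ω := by
      intro ω hω
      have h1 : 0 < M ω := hω
      have h2 : M ω = max 0 (f ω + T τ (gar τ f n) ω) := rfl
      have h3 : M ω = f ω + T τ (gar τ f n) ω := by
        rcases max_choice 0 (f ω + T τ (gar τ f n) ω) with h | h
        · rw [h2, h] at h1; exact absurd h1 (lt_irrefl _)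
        · rw [h2, h]
      rw [h3]
      exact add_le_add le_rfl (T_mono (gar_mono f n) ω)
    have hint : ∫ ω in A (n + 1), (M ω - T τ M ω) ∂P ≤ ∫ ω in A (n + 1), f ω ∂P := by
      refine setIntegral_mono_on (hMi.sub hTi).integrableOn hfi.integrableOn (hAm _) ?_
      intro ω hω
      have := hon ω hω; linarith
    have h0 : 0 ≤ ∫ ω in A (n + 1), (M ω - T τ M ω) ∂P := by
      have e1 : ∫ ω, (M ω - T τ M ω) ∂P = 0 := by
        rw [integral_sub hMi hTi, T_integral hτ hMm hMi, sub_self]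
      have e2 := integral_add_compl (hAm (n + 1)) (hMi.sub hTi)
      have e3 : ∫ ω in (A (n + 1))ᶜ, (M ω - T τ M ω) ∂P ≤ 0 := by
        refine setIntegral_nonpos (hAm _).compl ?_
        intro ω hω
        have h1 : M ω = 0 := le_antisymm (not_lt.1 hω) (gar_nonneg f _ ω)
        have h2 : 0 ≤ T τ M ω := by
          have := T_mono (τ := τ) (F := fun _ => 0) (G := M) (gar_nonneg f _) ω
          rwa [T_const] at this
        linarith
      simp only [Pi.sub_apply] at e2
      linarith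
    have h1 : 0 ≤ ∫ ω in A (n + 1), f ω ∂P := h0.trans hint
    have h2 : ∫ ω in A (n + 1), f ω ∂P = ∫ ω in A (n + 1), G ω ∂P - l * P.real (A (n + 1)) := by
      change ∫ ω in A (n + 1), (G ω - l) ∂P = _
      rw [integral_sub hG.integrableOn (integrable_const _).integrableOn, setIntegral_const,
        smul_eq_mul, mul_comm]
    have h3 : ∫ ω in A (n + 1), G ω ∂P ≤ ∫ ω, G ω ∂P :=
      setIntegral_le_integral hG (Eventually.of_forall hG0)
    have h4 : P.real (A (n + 1)) ≤ l⁻¹ * ∫ ω, G ω ∂P := by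
      rw [← div_eq_inv_mul, le_div_iff₀ hl]; linarith
    rw [← ENNReal.ofReal_toReal (measure_ne_top P (A (n + 1)))]
    exact ENNReal.ofReal_le_ofReal h4
  refine (measure_mono hsub).trans ?_
  exact le_of_tendsto' (tendsto_measure_iUnion_atTop hmono) hbound

/-- a fast decreasing sequence of nonnegative functions has almost surely small averages -/
theorem ae_small [IsProbabilityMeasure P] (hτ : ∀ e, MeasurePreserving (τ e) P P)
    {G : ℕ → Ω → ℝ} (hGm : ∀ k, Measurable (G k)) (hG : ∀ k, Integrable (G k) P)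
    (hG0 : ∀ k ω, 0 ≤ G k ω) (h : ∀ k, ∫ ω, G k ω ∂P ≤ (1 / 4) ^ k) :
    ∀ᵐ ω ∂P, ∀ᶠ k in atTop, ∀ n : ℕ, ∑ j ∈ Finset.range n, (T τ)^[j] (G k) ω ≤ (1 / 2) ^ k * n := by
  set B : ℕ → Set Ω := fun k => {ω | ∃ n : ℕ, (1 / 2 : ℝ) ^ k * n <
    ∑ j ∈ Finset.range n, (T τ)^[j] (G k) ω} with hB
  have hP : ∀ k, P (B k) ≤ ENNReal.ofReal ((1 / 2) ^ k) := by
    intro k
    refine (maximal hτ (hGm k) (hG k) (hG0 k) (by positivity)).trans
      (ENNReal.ofReal_le_ofReal ?_)
    refine (mul_le_mul_of_nonneg_left (h k) (by positivity)).trans (le_of_eq ?_)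
    rw [← inv_pow, ← mul_pow]; norm_num
  have hsum : ∑' k, P (B k) ≠ ⊤ := by
    refine ne_top_of_le_ne_top ?_ (ENNReal.tsum_le_tsum hP)
    rw [← ENNReal.ofReal_tsum_of_nonneg (fun k => by positivity)
      (summable_geometric_of_lt_one (by norm_num) (by norm_num))]
    exact ENNReal.ofReal_ne_top
  have := ae_eventually_notMem hsum
  filter_upwards [this] with ω hω
  filter_upwards [hω] with k hk
  intro n
  by_contra hcon
  exact hk ⟨n, not_le.1 hcon⟩

/-- averages of an integrable function are almost surely bounded -/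
theorem ae_bdd [IsProbabilityMeasure P] (hτ : ∀ e, MeasurePreserving (τ e) P P)
    {G : Ω → ℝ} (hGm : Measurable G) (hG : Integrable G P) (hG0 : ∀ ω, 0 ≤ G ω) :
    ∀ᵐ ω ∂P, ∃ B : ℝ, 0 ≤ B ∧ ∀ n : ℕ, ∑ j ∈ Finset.range n, (T τ)^[j] G ω ≤ B * n := by
  set c := 1 + ∫ ω, G ω ∂P with hc
  have hI : 0 ≤ ∫ ω, G ω ∂P := integral_nonneg hG0
  have hc0 : 0 < c := by positivity
  have h := ae_small hτ (G := fun k => (((1 / 4 : ℝ) ^ k) * c⁻¹) • G)
    (fun k => hGm.const_smul _) (fun k => hG.smul _)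
    (fun k ω => mul_nonneg (by positivity) (hG0 ω)) (fun k => ?_)
  · filter_upwards [h] with ω hω
    obtain ⟨k, hk⟩ := hω.exists
    refine ⟨(((1 / 4 : ℝ) ^ k) * c⁻¹)⁻¹ * (1 / 2) ^ k, by positivity, fun n => ?_⟩
    have := hk n
    simp only [iter_smul, Pi.smul_apply, smul_eq_mul, ← Finset.mul_sum] at this
    rw [mul_assoc, ← div_eq_inv_mul, le_div_iff₀ (by positivity), mul_comm]
    exact this
  · simp only [Pi.smul_apply, smul_eq_mul]
    rw [integral_const_mul, mul_assoc]
    have : c⁻¹ * ∫ ω, G ω ∂P ≤ 1 := by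
      rw [inv_mul_le_iff₀ hc0]; linarith
    have h2 := mul_le_mul_of_nonneg_left this (by positivity : (0 : ℝ) ≤ (1 / 4) ^ k)
    linarith

end meas

end Pool.Agent.H98.Q
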