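import Pool.Agent.H98.Q.Conf

/-!
# Ergodic theory of the environment seen from the walk
-/

set_option autoImplicit false
set_option linter.unusedSectionVars false
set_option linter.unusedVariables false

open MeasureTheory Filter Topology ProbabilityTheory
open scoped ENNReal

namespace Pool.Agent.H98.Q

variable {d : ℕ}

/-- configurations with a point at the origin -/
def Om (d : ℕ) : Set (Cfg d) := {ω | ω 0 = true}

theorem shift_meas (x : Fin d → ℤ) : Measurable (shift x) :=
  measurable_pi_lambda _ fun y => measurable_pi_apply _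

theorem eval_meas' (x : Fin d → ℤ) (b : Bool) : MeasurableSet {ω : Cfg d | ω x = b} := by
  have h : Measurable (fun ω : Cfg d => ω x) := measurable_pi_apply x
  exact h (measurableSet_singleton b)

theorem eval_meas (x : Fin d → ℤ) : MeasurableSet {ω : Cfg d | ω x = true} := eval_meas' x true

theorem Om_meas : MeasurableSet (Om d) := eval_meas 0

theorem gap_level (e : Fin d × Bool) {k : ℕ} (hk : 0 < k) :
    MeasurableSet {ω : Cfg d | gap e ω = k} := by
  have : {ω : Cfg d | gap e ω = k} = {ω : Cfg d | ω ((k : ℤ) • dir e) = true} ∩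
      ⋂ j : ℕ, ⋂ _ : 0 < j ∧ j < k, {ω : Cfg d | ω ((j : ℤ) • dir e) = true}ᶜ := by
    ext ω
    simp only [Set.mem_ofPred_eq, gap_eq_iff hk, Set.mem_inter_iff, Set.mem_iInter,
      Set.mem_compl_iff, Bool.not_eq_true, and_imp]
  rw [this]
  refine (eval_meas _).inter (MeasurableSet.iInter fun j => MeasurableSet.iInter fun _ => ?_)
  exact (eval_meas _).compl

theorem gap_meas (e : Fin d × Bool) : Measurable (gap (d := d) e) := by
  refine measurable_to_countable' fun k => ?_
  rcases Nat.eq_zero_or_pos k with h | h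
  · subst h
    have : (gap (d := d) e) ⁻¹' {0} = (⋃ k : ℕ, ⋃ _ : 0 < k, {ω : Cfg d | gap e ω = k})ᶜ := by
      ext ω
      simp only [Set.mem_preimage, Set.mem_singleton_iff, Set.mem_compl_iff, Set.mem_iUnion,
        Set.mem_ofPred_eq, not_exists]
      constructor
      · intro h0 k hk hk2; omega
      · intro h0
        by_contra hne
        exact h0 _ (Nat.pos_of_ne_zero hne) rfl
    rw [this]
    have h2 : MeasurableSet (⋃ k : ℕ, ⋃ _ : 0 < k, {ω : Cfg d | gap e ω = k}) :=
      MeasurableSet.iUnion fun k => MeasurableSet.iUnion fun hk => gap_level e hk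
    exact h2.compl
  · exact gap_level e h

theorem tau_meas (e : Fin d × Bool) : Measurable (tau (d := d) e) := by
  refine measurable_pi_lambda _ fun y => ?_
  have h1 : (fun ω : Cfg d => tau e ω y) = fun ω => ω ((gap e ω : ℤ) • dir e + y) := rfl
  rw [h1]
  refine measurable_to_countable' fun b => ?_
  have h2 : (fun ω : Cfg d => ω ((gap e ω : ℤ) • dir e + y)) ⁻¹' {b} =
      ⋃ k : ℕ, ({ω : Cfg d | gap e ω = k} ∩ {ω : Cfg d | ω ((k : ℤ) • dir e + y) = b}) := by
    ext ω
    simp only [Set.mem_preimage, Set.mem_singleton_iff, Set.mem_iUnion, Set.mem_inter_iff,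
      Set.mem_ofPred_eq]
    constructor
    · intro h; exact ⟨_, rfl, h⟩
    · rintro ⟨k, hk, h⟩; rw [hk]; exact h
  rw [h2]
  refine MeasurableSet.iUnion fun k => MeasurableSet.inter ?_ ?_
  · exact (gap_meas e) (measurableSet_singleton k)
  · exact eval_meas' _ b

/-- the shift as a measurable equivalence -/
def shiftE (x : Fin d → ℤ) : Cfg d ≃ᵐ Cfg d where
  toFun := shift x
  invFun := shift (-x)
  left_inv ω := by rw [shift_shift, add_neg_cancel, shift_zero]
  right_inv ω := by rw [shift_shift, neg_add_cancel, shift_zero]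
  measurable_toFun := shift_meas x
  measurable_invFun := shift_meas (-x)

section

variable {Q : Measure (Cfg d)}

/-- all shifts preserve the measure -/
theorem shift_mp (hQ : ∀ i : Fin d, MeasurePreserving (shift (Pi.single i (1 : ℤ))) Q Q)
    (x : Fin d → ℤ) : MeasurePreserving (shift x) Q Q := by
  let H : AddSubgroup (Fin d → ℤ) :=
    { carrier := {x | MeasurePreserving (shift x) Q Q}
      zero_mem' := by
        change MeasurePreserving (shift (0 : Fin d → ℤ)) Q Q
        have : (shift (0 : Fin d → ℤ) : Cfg d → Cfg d) = id := funext shift_zero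
        rw [this]; exact MeasurePreserving.id Q
      add_mem' := by
        intro a b ha hb
        change MeasurePreserving (shift (a + b)) Q Q
        have : (shift (a + b) : Cfg d → Cfg d) = shift b ∘ shift a := by
          funext ω; rw [Function.comp, shift_shift]
        rw [this]; exact hb.comp ha
      neg_mem' := by
        intro a ha
        exact MeasurePreserving.symm (shiftE a) ha }
  have h1 : x = ∑ i, x i • (Pi.single i (1 : ℤ) : Fin d → ℤ) := by
    funext j
    rw [Finset.sum_apply]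
    simp [Pi.single_apply]
  have h2 : x ∈ H := by
    rw [h1]
    exact H.sum_mem fun i _ => H.zsmul_mem (hQ i) _
  exact h2

theorem Om_pos [IsProbabilityMeasure Q] (hQ : ∀ x : Fin d → ℤ, MeasurePreserving (shift x) Q Q)
    (h : Q {ω : Cfg d | ∀ x, ω x = false} < 1) : Q (Om d) ≠ 0 := by
  intro h0
  have h1 : ∀ x : Fin d → ℤ, Q {ω : Cfg d | ω x = true} = 0 := by
    intro x
    have := (hQ x).measure_preimage (s := Om d) Om_meas.nullMeasurableSet
    rw [h0] at this
    rw [← this]
    congr 1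
    ext ω
    simp [Om, shift_apply]
  have h2 : Q {ω : Cfg d | ∀ x, ω x = false}ᶜ = 0 := by
    have : {ω : Cfg d | ∀ x, ω x = false}ᶜ = ⋃ x, {ω : Cfg d | ω x = true} := by
      ext ω; simp
    rw [this]
    exact measure_iUnion_null h1
  have h3 : MeasurableSet {ω : Cfg d | ∀ x, ω x = false} := by
    have : {ω : Cfg d | ∀ x, ω x = false} = ⋂ x, {ω : Cfg d | ω x = true}ᶜ := by
      ext ω; simp
    rw [this]
    exact MeasurableSet.iInter fun x => (eval_meas x).compl
  have h4 := (prob_compl_eq_zero_iff h3).1 h2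
  rw [h4] at h
  exact lt_irrefl _ h

theorem gap_pos [IsProbabilityMeasure Q]
    (hE : ∀ i : Fin d, Ergodic (shift (Pi.single i (1 : ℤ))) Q)
    (hpos : Q (Om d) ≠ 0) (e : Fin d × Bool) : ∀ᵐ ω ∂Q, 0 < gap e ω := by
  have hmp := shift_mp (Q := Q) (fun i => (hE i).toMeasurePreserving)
  obtain ⟨i, b⟩ := e
  set U : Set (Cfg d) := {ω | 0 < gap (i, b) ω} with hU
  have hUm : MeasurableSet U := (gap_meas (i, b)) (measurableSet_Ioi)
  have hmem : ∀ ω, ω ∈ U ↔ ∃ k : ℕ, 0 < k ∧ ω ((k : ℤ) • dir (i, b)) = true := fun ω => gap_pos_iff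
  have hUpos : Q U ≠ 0 := by
    intro h0
    have h1 : (shift (dir (i, b))) ⁻¹' (Om d) ⊆ U := by
      intro ω hω
      rw [hmem]
      refine ⟨1, one_pos, ?_⟩
      have : ω (dir (i, b) + 0) = true := hω
      simpa using this
    have h2 := measure_mono_null h1 h0
    rw [(hmp _).measure_preimage Om_meas.nullMeasurableSet] at h2
    exact hpos h2
  have hor : U =ᵐ[Q] (∅ : Set (Cfg d)) ∨ U =ᵐ[Q] Set.univ := by
    cases b with
    | true =>
      refine (hE i).ae_empty_or_univ_of_preimage_ae_le hUm.nullMeasurableSet ?_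
      refine Eventually.of_forall fun ω hω => ?_
      have hω' : shift (Pi.single i 1) ω ∈ U := hω
      rw [hmem] at hω'
      obtain ⟨k, hk, h⟩ := hω'
      change ω ∈ U
      rw [hmem]
      refine ⟨k + 1, by omega, ?_⟩
      rw [shift_apply] at h
      convert h using 2
      simp only [dir, if_true]; push_cast; rw [add_smul, one_smul, add_comm]
    | false =>
      refine (hE i).ae_empty_or_univ_of_ae_le_preimage hUm.nullMeasurableSet ?_
      refine Eventually.of_forall fun ω hω => ?_
      have hω' : ω ∈ U := hω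
      rw [hmem] at hω'
      obtain ⟨k, hk, h⟩ := hω'
      change shift (Pi.single i 1) ω ∈ U
      rw [hmem]
      refine ⟨k + 1, by omega, ?_⟩
      rw [shift_apply]
      convert h using 2
      have : dir (i, false) = - (Pi.single i 1 : Fin d → ℤ) := by
        simp [dir, ← Pi.single_neg]
      rw [this]; push_cast; rw [add_smul, one_smul]; abel
  rcases hor with h | h
  · exact absurd (ae_eq_empty.1 h) hUpos
  · exact eventuallyEq_univ.1 h

/-- splitting a set according to the value of the gap -/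
theorem split_gap [IsProbabilityMeasure Q] (e : Fin d × Bool) (hg : ∀ᵐ ω ∂Q, 0 < gap e ω)
    {C : Set (Cfg d)} (hC : MeasurableSet C) :
    Q C = ∑' k : ℕ, Q (C ∩ {ω | gap e ω = k + 1}) := by
  have h1 : Q C = Q (⋃ k : ℕ, C ∩ {ω | gap e ω = k + 1}) := by
    refine measure_congr ?_
    filter_upwards [hg] with ω hω
    refine propext ?_
    change ω ∈ C ↔ ω ∈ ⋃ k : ℕ, C ∩ {ω | gap e ω = k + 1}
    simp only [Set.mem_iUnion, Set.mem_inter_iff, Set.mem_ofPred_eq]
    constructor
    · intro h; exact ⟨gap e ω - 1, h, by omega⟩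
    · rintro ⟨k, h, _⟩; exact h
  rw [h1, measure_iUnion]
  · intro i j hij
    refine Set.disjoint_left.2 fun ω h1 h2 => hij ?_
    have := h1.2
    have := h2.2
    simp only [Set.mem_ofPred_eq] at *
    omega
  · intro k
    exact hC.inter (gap_level e (Nat.succ_pos k))

/-- invariance of the conditioned measure, before conditioning -/
theorem tau_inv [IsProbabilityMeasure Q] (hQ : ∀ x : Fin d → ℤ, MeasurePreserving (shift x) Q Q)
    (hg : ∀ e : Fin d × Bool, ∀ᵐ ω ∂Q, 0 < gap e ω) (e : Fin d × Bool) {B : Set (Cfg d)}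
    (hB : MeasurableSet B) : Q (Om d ∩ (tau e) ⁻¹' B) = Q (Om d ∩ B) := by
  rw [split_gap e (hg e) (Om_meas.inter ((tau_meas e) hB)),
    split_gap (neg e) (hg (neg e)) (Om_meas.inter hB)]
  refine tsum_congr fun k => ?_
  have h1 : Om d ∩ (tau e) ⁻¹' B ∩ {ω | gap e ω = k + 1} =
      (shift (((k + 1 : ℕ) : ℤ) • dir e)) ⁻¹' (Om d ∩ B ∩ {ω | gap (neg e) ω = k + 1}) := by
    ext ω
    simp only [Set.mem_inter_iff, Set.mem_preimage, Set.mem_ofPred_eq, Om]
    constructor
    · rintro ⟨⟨h0, hb⟩, hk⟩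
      have h2 := gap_shift (Nat.succ_pos k) h0 hk
      refine ⟨⟨h2.1, ?_⟩, h2.2⟩
      rw [tau, hk] at hb
      exact hb
    · rintro ⟨⟨h0, hb⟩, hk⟩
      have h2 := gap_shift (Nat.succ_pos k) h0 hk
      rw [neg_neg', shift_shift, dir_neg, smul_neg] at h2
      have h3 : ((k + 1 : ℕ) : ℤ) • dir e + -(((k + 1 : ℕ) : ℤ) • dir e) = 0 := add_neg_cancel _
      rw [Nat.succ_eq_add_one, h3, shift_zero] at h2
      refine ⟨⟨h2.1, ?_⟩, h2.2⟩
      rw [tau, h2.2]
      exact hb
  rw [h1]
  exact (hQ _).measure_preimage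
    ((Om_meas.inter hB).inter (gap_level (neg e) (Nat.succ_pos k))).nullMeasurableSet

theorem tau_mp [IsProbabilityMeasure Q] (hQ : ∀ x : Fin d → ℤ, MeasurePreserving (shift x) Q Q)
    (hg : ∀ e : Fin d × Bool, ∀ᵐ ω ∂Q, 0 < gap e ω) (e : Fin d × Bool) :
    MeasurePreserving (tau e) (cond Q (Om d)) (cond Q (Om d)) := by
  refine ⟨tau_meas e, Measure.ext fun B hB => ?_⟩
  rw [Measure.map_apply (tau_meas e) hB, cond_apply Om_meas, cond_apply Om_meas,
    tau_inv hQ hg e hB]

/-- ergodicity of the induced map -/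
theorem tau_ergodic [IsProbabilityMeasure Q]
    (hE : ∀ i : Fin d, Ergodic (shift (Pi.single i (1 : ℤ))) Q) (hpos : Q (Om d) ≠ 0)
    (i : Fin d) : Ergodic (tau (i, true)) (cond Q (Om d)) := by
  have hmp := shift_mp (Q := Q) (fun i => (hE i).toMeasurePreserving)
  have hg := gap_pos hE hpos
  refine ⟨tau_mp hmp hg (i, true), ⟨fun B hB hinv => ?_⟩⟩
  set a : Fin d → ℤ := Pi.single i 1 with ha
  have hdir : dir (i, true) = a := by simp [dir, ha]
  set B' : Set (Cfg d) := ⋃ n : ℕ, (shift ((n : ℤ) • a)) ⁻¹' (Om d ∩ B) with hB'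
  have hB'm : MeasurableSet B' := MeasurableSet.iUnion fun n => (shift_meas _) (Om_meas.inter hB)
  have hsub : (shift a) ⁻¹' B' ⊆ B' := by
    intro ω hω
    rw [hB', Set.mem_preimage, Set.mem_iUnion] at hω
    obtain ⟨n, hn⟩ := hω
    refine Set.mem_iUnion.2 ⟨n + 1, ?_⟩
    rw [Set.mem_preimage] at hn ⊢
    rw [shift_shift] at hn
    convert hn using 2
    push_cast; rw [add_smul, one_smul, add_comm]
  have key : ∀ n : ℕ, ∀ ω : Cfg d, ω 0 = true → shift ((n : ℤ) • a) ω ∈ Om d ∩ B → ω ∈ B := by
    intro n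
    induction n using Nat.strong_induction_on with
    | _ n ih =>
      intro ω h0 hn
      rcases Nat.eq_zero_or_pos n with h | h
      · subst h
        have := hn.2
        simpa using this
      · have hn0 : ω ((n : ℤ) • dir (i, true)) = true := by
          have : shift ((n : ℤ) • a) ω 0 = true := hn.1
          rw [shift_apply, add_zero] at this
          rw [hdir]; exact this
        have hgp : 0 < gap (i, true) ω := gap_pos_iff.2 ⟨n, h, hn0⟩
        have hgl : gap (i, true) ω ≤ n := gap_le h hn0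
        have h1 : tau (i, true) ω ∈ B := by
          refine ih (n - gap (i, true) ω) (by omega) _ (tau_zero hgp) ?_
          rw [tau, hdir, shift_shift, ← add_smul]
          have : ((gap (i, true) ω : ℤ) + ((n - gap (i, true) ω : ℕ) : ℤ)) = n := by omega
          rw [this]; exact hn
        have h2 : ω ∈ (tau (i, true)) ⁻¹' B := h1
        rwa [hinv] at h2
  have hOm : Om d ∩ B' = Om d ∩ B := by
    ext ω
    constructor
    · rintro ⟨h0, hb⟩
      obtain ⟨n, hn⟩ := Set.mem_iUnion.1 hb
      exact ⟨h0, key n ω h0 hn⟩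
    · rintro ⟨h0, hb⟩
      refine ⟨h0, Set.mem_iUnion.2 ⟨0, ?_⟩⟩
      rw [Set.mem_preimage]
      simp only [Nat.cast_zero, zero_smul, shift_zero]
      exact ⟨h0, hb⟩
  rw [eventuallyConst_set']
  rcases (hE i).ae_empty_or_univ_of_preimage_ae_le hB'm.nullMeasurableSet
    (Eventually.of_forall fun ω hω => hsub hω) with h | h
  · left
    rw [ae_eq_empty, cond_apply Om_meas, ← hOm]
    have : Q (Om d ∩ B') = 0 := measure_mono_null Set.inter_subset_right (ae_eq_empty.1 h)
    rw [this, mul_zero]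
  · right
    rw [eventuallyEq_univ, mem_ae_iff, cond_apply Om_meas]
    have : Q (Om d ∩ Bᶜ) = 0 := by
      have h1 : Om d ∩ Bᶜ ⊆ B'ᶜ := by
        intro ω hω hb
        have : ω ∈ Om d ∩ B' := ⟨hω.1, hb⟩
        rw [hOm] at this
        exact hω.2 this.2
      exact measure_mono_null h1 (mem_ae_iff.1 (eventuallyEq_univ.1 h))
    rw [this, mul_zero]

theorem good_ae [IsProbabilityMeasure Q] (hg : ∀ e : Fin d × Bool, ∀ᵐ ω ∂Q, 0 < gap e ω) :
    ∀ᵐ ω ∂(cond Q (Om d)), Good ω := by
  have h1 : ∀ᵐ ω ∂(cond Q (Om d)), ω ∈ Om d := by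
    rw [ae_iff]
    have : {ω : Cfg d | ¬ ω ∈ Om d} = (Om d)ᶜ := rfl
    rw [this, cond_apply Om_meas, Set.inter_compl_self, measure_empty, mul_zero]
  have h2 : ∀ᵐ ω ∂(cond Q (Om d)), ∀ e : Fin d × Bool, 0 < gap e ω :=
    (eventually_all.2 fun e => (cond_absolutelyContinuous (hg e)))
  filter_upwards [h1, h2] with ω a b
  exact ⟨a, b⟩

end

end Pool.Agent.H98.Q
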