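import Pool.Agent.H98.Q.Mom

/-!
# Entropy is bounded by the first moment
-/

set_option autoImplicit false

open Real

namespace Pool.Agent.H98.Q

theorem int_geom {a : ℝ} (ha : 0 < a) (s : Finset ℤ) :
    ∑ t ∈ s, exp (-a * |(t : ℝ)|) ≤ 1 + 2 / a := by
  obtain ⟨r, hr⟩ : ∃ r, r = exp (-a) := ⟨_, rfl⟩
  have hr0 : 0 < r := by rw [hr]; exact exp_pos _
  have hr1 : r < 1 := by rw [hr]; exact Real.exp_lt_one_iff.2 (by linarith)
  obtain ⟨f, hf⟩ : ∃ f : ℤ → ℝ, f = fun (t : ℤ) => exp (-a * |(t : ℝ)|) := ⟨_, rfl⟩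
  have e1 : ∀ n : ℕ, f (n : ℤ) = r ^ n := by
    intro n
    rw [hr, ← Real.exp_nat_mul, hf]
    simp only [Int.cast_natCast, Nat.abs_cast]
    congr 1
    ring
  have e2 : ∀ n : ℕ, f (-((n : ℤ) + 1)) = r * r ^ n := by
    intro n
    rw [hr, ← Real.exp_nat_mul, ← Real.exp_add, hf]
    simp only [Int.cast_neg, Int.cast_add, Int.cast_natCast, Int.cast_one, abs_neg]
    rw [abs_of_nonneg (by positivity)]
    congr 1
    ring
  have s1 : Summable fun n : ℕ => f (n : ℤ) := by
    simp only [e1]; exact summable_geometric_of_lt_one hr0.le hr1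
  have s2 : Summable fun n : ℕ => f (-((n : ℤ) + 1)) := by
    simp only [e2]; exact (summable_geometric_of_lt_one hr0.le hr1).mul_left _
  have s3 : Summable f := Summable.of_nat_of_neg_add_one s1 s2
  have h0 : ∀ t, 0 ≤ f t := fun t => by rw [hf]; exact (exp_pos _).le
  have h1 : ∑ t ∈ s, f t ≤ ∑' t : ℤ, f t :=
    s3.sum_le_tsum _ (fun _ _ => h0 _)
  have h1' : ∑ t ∈ s, exp (-a * |(t : ℝ)|) = ∑ t ∈ s, f t := by rw [hf]
  rw [h1']
  refine h1.trans ?_
  rw [tsum_of_nat_of_neg_add_one s1 s2]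
  simp only [e1, e2]
  rw [tsum_mul_left, tsum_geometric_of_lt_one hr0.le hr1]
  have h2 : (1 - r)⁻¹ + r * (1 - r)⁻¹ = 1 + 2 * (r / (1 - r)) := by
    have : 1 - r ≠ 0 := by linarith
    field_simp; ring
  rw [h2]
  have h3 : r / (1 - r) ≤ 1 / a := by
    rw [div_le_div_iff₀ (by linarith) ha]
    have h4 : a + 1 ≤ exp a := add_one_le_exp a
    have h5 : r * exp a = 1 := by rw [hr, ← exp_add]; simp
    nlinarith
  have : 2 * (r / (1 - r)) ≤ 2 / a := by
    have := mul_le_mul_of_nonneg_left h3 (by norm_num : (0 : ℝ) ≤ 2)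
    rwa [mul_one_div] at this
  linarith

/-- `ℓ¹` norm -/
noncomputable def nrm {ι : Type*} [Fintype ι] (x : ι → ℤ) : ℝ := ∑ i, |(x i : ℝ)|

theorem nrm_nonneg {ι : Type*} [Fintype ι] (x : ι → ℤ) : 0 ≤ nrm x :=
  Finset.sum_nonneg fun _ _ => abs_nonneg _

theorem lattice_geom {ι : Type*} [Fintype ι] [DecidableEq ι] {a : ℝ} (ha : 0 < a)
    (S : Finset (ι → ℤ)) :
    ∑ x ∈ S, exp (-a * nrm x) ≤ (1 + 2 / a) ^ Fintype.card ι := by
  classical
  set T : ι → Finset ℤ := fun i => S.image (fun x => x i) with hT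
  have hsub : S ⊆ Fintype.piFinset T := by
    intro x hx
    rw [Fintype.mem_piFinset]
    intro i
    exact Finset.mem_image_of_mem _ hx
  calc ∑ x ∈ S, exp (-a * nrm x) ≤ ∑ x ∈ Fintype.piFinset T, exp (-a * nrm x) :=
        Finset.sum_le_sum_of_subset_of_nonneg hsub (fun _ _ _ => (exp_pos _).le)
    _ = ∑ x ∈ Fintype.piFinset T, ∏ i, exp (-a * |(x i : ℝ)|) := by
        refine Finset.sum_congr rfl fun x _ => ?_
        rw [nrm, Finset.mul_sum, exp_sum]
    _ = ∏ i, ∑ t ∈ T i, exp (-a * |(t : ℝ)|) := by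
        rw [Finset.prod_univ_sum]
    _ ≤ ∏ _i : ι, (1 + 2 / a) :=
        Finset.prod_le_prod (fun i _ => Finset.sum_nonneg fun _ _ => (exp_pos _).le)
          (fun i _ => int_geom ha _)
    _ = _ := by simp

/-- **Gibbs' inequality** against a product of two-sided geometric laws. -/
theorem ent_le {ι : Type*} [Fintype ι] [DecidableEq ι] {p : (ι → ℤ) → ℝ} (hp : ∀ x, 0 ≤ p x)
    (hf : p.support.Finite) (h1 : ∑' x, p x = 1) {a : ℝ} (ha : 0 < a) :
    ent p ≤ a * fm nrm p + Fintype.card ι * log (1 + 2 / a) := by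
  classical
  set S := hf.toFinset with hS
  have hout : ∀ x, x ∉ S → p x = 0 := fun x hx => by
    by_contra h; exact hx (hf.mem_toFinset.2 h)
  have hZ : 0 < 1 + 2 / a := by positivity
  set Z := (1 + 2 / a) ^ Fintype.card ι with hZd
  have hZpos : 0 < Z := by positivity
  have e1 : ent p = ∑ x ∈ S, negMulLog (p x) := by
    rw [ent, tsum_eq_sum (s := S)]
    intro x hx; simp [hout x hx]
  have e2 : fm nrm p = ∑ x ∈ S, p x * nrm x := by
    rw [fm, tsum_eq_sum (s := S)]
    · exact Finset.sum_congr rfl fun x _ => by rw [abs_of_nonneg (nrm_nonneg x)]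
    · intro x hx; simp [hout x hx]
  have e3 : ∑ x ∈ S, p x = 1 := by
    rw [← h1, tsum_eq_sum (s := S)]
    intro x hx; exact hout x hx
  have key : ∀ x ∈ S, negMulLog (p x) ≤
      a * (p x * nrm x) + p x * log Z + (exp (-a * nrm x) / Z - p x) := by
    intro x hx
    have hpx : 0 < p x := lt_of_le_of_ne (hp x) (fun h => (hf.mem_toFinset.1 hx) h.symm)
    set q := exp (-a * nrm x) / Z with hq
    have hq0 : 0 < q := by positivity
    have hlq : log q = -a * nrm x - log Z := by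
      rw [hq, log_div (exp_pos _).ne' hZpos.ne', log_exp]
    have h2 : log (q / p x) ≤ q / p x - 1 := log_le_sub_one_of_pos (div_pos hq0 hpx)
    rw [log_div hq0.ne' hpx.ne', hlq] at h2
    have h3 := mul_le_mul_of_nonneg_left h2 hpx.le
    have h4 : p x * (q / p x - 1) = q - p x := by field_simp
    rw [h4] at h3
    rw [negMulLog]
    nlinarith
  rw [e1, e2]
  refine (Finset.sum_le_sum key).trans ?_
  rw [Finset.sum_add_distrib, Finset.sum_add_distrib, Finset.sum_sub_distrib, e3,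
    ← Finset.sum_mul, e3, ← Finset.mul_sum, ← Finset.sum_div, one_mul]
  have h5 : (∑ x ∈ S, exp (-a * nrm x)) / Z ≤ 1 := by
    rw [div_le_one hZpos]; exact lattice_geom ha S
  have h6 : log Z = Fintype.card ι * log (1 + 2 / a) := by rw [hZd, log_pow]
  rw [h6]
  linarith

end Pool.Agent.H98.Q
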