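import Pool.Agent.H98.Q.Mean

/-!
# The corrector
-/

set_option autoImplicit false
set_option linter.unusedSectionVars false
set_option linter.unusedVariables false

open MeasureTheory Filter Topology
open scoped RealInnerProductSpace ENNReal

namespace Pool.Agent.H98.Q

variable {Ω : Type*} [MeasurableSpace Ω] {P : Measure Ω} [IsProbabilityMeasure P]
  {E : Type*} [Fintype E] [Nonempty E] {τ : E → Ω → Ω}

/-- composition operators on `L²` -/
noncomputable def U (hτ : ∀ e, MeasurePreserving (τ e) P P) (e : E) : Lp ℝ 2 P →L[ℝ] Lp ℝ 2 P :=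
  (Lp.compMeasurePreservingₗᵢ ℝ (τ e) (hτ e)).toContinuousLinearMap

theorem U_apply (hτ : ∀ e, MeasurePreserving (τ e) P P) (e : E) (x : Lp ℝ 2 P) :
    U hτ e x = Lp.compMeasurePreserving (τ e) (hτ e) x := rfl

theorem U_inner (hτ : ∀ e, MeasurePreserving (τ e) P P) (e : E) (x y : Lp ℝ 2 P) :
    ⟪U hτ e x, U hτ e y⟫ = ⟪x, y⟫ :=
  (Lp.compMeasurePreservingₗᵢ ℝ (τ e) (hτ e)).inner_map_map x y

theorem U_coe (hτ : ∀ e, MeasurePreserving (τ e) P P) (e : E) (x : Lp ℝ 2 P) :
    (U hτ e x : Ω → ℝ) =ᵐ[P] fun ω => x (τ e ω) :=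
  Lp.coeFn_compMeasurePreserving x (hτ e)

/-- gradient -/
noncomputable def D (hτ : ∀ e, MeasurePreserving (τ e) P P) :
    Lp ℝ 2 P →L[ℝ] PiLp 2 (fun _ : E => Lp ℝ 2 P) :=
  (PiLp.continuousLinearEquiv 2 ℝ (fun _ : E => Lp ℝ 2 P)).symm.toContinuousLinearMap.comp
    (ContinuousLinearMap.pi fun e => U hτ e - ContinuousLinearMap.id ℝ _)

theorem D_apply (hτ : ∀ e, MeasurePreserving (τ e) P P) (x : Lp ℝ 2 P) (e : E) :
    D hτ x e = U hτ e x - x := rfl

theorem hil (hτ : ∀ e, MeasurePreserving (τ e) P P) {ng : E → E} (hng : ∀ e, ng (ng e) = e)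
    (hUU : ∀ e x, U hτ e (U hτ (ng e) x) = x) (F : PiLp 2 (fun _ : E => Lp ℝ 2 P))
    (hF : ∀ e, U hτ e (F (ng e)) = - F e) :
    ∃ δ : PiLp 2 (fun _ : E => Lp ℝ 2 P),
      (∀ ε : ℝ, 0 < ε → ∃ s : Lp.simpleFunc ℝ 2 P, ‖F - δ - D hτ (s : Lp ℝ 2 P)‖ < ε) ∧
      ∑ e, δ e = 0 := by
  set K := (LinearMap.range (D hτ).toLinearMap).topologicalClosure with hK
  have hKc : CompleteSpace K := (Submodule.isClosed_topologicalClosure _).completeSpace_coe
  set g : PiLp 2 (fun _ : E => Lp ℝ 2 P) := K.starProjection F with hg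
  have hgK : g ∈ K := K.starProjection_apply_mem F
  have hort : F - g ∈ Kᗮ := K.sub_starProjection_mem_orthogonal F
  have h1 : g ∈ closure (Set.range (D hτ)) := by
    have : g ∈ ((LinearMap.range (D hτ).toLinearMap).topologicalClosure : Set _) := hgK
    rw [Submodule.topologicalClosure_coe, LinearMap.coe_range] at this
    exact this
  refine ⟨F - g, ?_, ?_⟩
  · intro ε hε
    rw [sub_sub_cancel]
    obtain ⟨b, ⟨y, rfl⟩, hy⟩ := Metric.mem_closure_iff.1 h1 ε hε
    have hopen : IsOpen {z : Lp ℝ 2 P | dist g (D hτ z) < ε} :=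
      isOpen_lt (continuous_const.dist (D hτ).continuous) continuous_const
    obtain ⟨z, hz1, hz2⟩ := (Lp.simpleFunc.dense (E := ℝ) (μ := P) (p := 2) (by simp)).exists_mem_open
      hopen ⟨y, hy⟩
    refine ⟨⟨z, hz1⟩, ?_⟩
    rw [← dist_eq_norm]
    exact hz2
  · -- antisymmetry
    set S : Set (PiLp 2 (fun _ : E => Lp ℝ 2 P)) := {h | ∀ e, U hτ e (h (ng e)) = - h e} with hS
    have hSc : IsClosed S := by
      have : S = ⋂ e, {h : PiLp 2 (fun _ : E => Lp ℝ 2 P) | U hτ e (h (ng e)) = - h e} := by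
        ext h; simp [hS]
      rw [this]
      refine isClosed_iInter fun e => ?_
      have hc : ∀ e : E, Continuous fun h : PiLp 2 (fun _ : E => Lp ℝ 2 P) => h e := fun e =>
        (PiLp.continuous_ofLp 2 _).comp' continuous_id |> (continuous_apply e).comp
      exact isClosed_eq ((U hτ e).continuous.comp (hc _)) (hc _).neg
    have hrange : Set.range (D hτ) ⊆ S := by
      rintro _ ⟨x, rfl⟩ e
      rw [D_apply, D_apply, map_sub, hUU]; simp
    have hgS : g ∈ S := closure_minimal hrange hSc h1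
    set δ := F - g with hδ
    have hδS : ∀ e, U hτ e (δ (ng e)) = - δ e := by
      intro e
      have h1 : δ (ng e) = F (ng e) - g (ng e) := rfl
      have h2 : δ e = F e - g e := rfl
      rw [h1, h2, map_sub, hF e, hgS e]
      abel
    have key : ∀ x : Lp ℝ 2 P, ⟪x, ∑ e, δ e⟫ = 0 := by
      intro x
      have h1 : ⟪D hτ x, δ⟫ = 0 := by
        have hx : D hτ x ∈ K := Submodule.le_topologicalClosure _ ⟨x, rfl⟩
        exact (Submodule.mem_orthogonal K δ).1 hort _ hx
      rw [PiLp.inner_apply] at h1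
      have h2 : ∀ e, ⟪D hτ x e, δ e⟫ = - ⟪x, δ (ng e)⟫ - ⟪x, δ e⟫ := by
        intro e
        rw [D_apply, inner_sub_left]
        congr 1
        have : δ e = - U hτ e (δ (ng e)) := by rw [hδS e, neg_neg]
        rw [this, inner_neg_right, U_inner]
      simp only [h2, Finset.sum_sub_distrib, Finset.sum_neg_distrib] at h1
      have h3 : ∑ e, ⟪x, δ (ng e)⟫ = ∑ e, ⟪x, δ e⟫ :=
        (Function.Involutive.bijective hng).sum_comp (fun e => ⟪x, δ e⟫)
      rw [h3] at h1
      rw [inner_sum]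
      linarith
    have := key (∑ e, δ e)
    exact inner_self_eq_zero.1 this

end Pool.Agent.H98.Q
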