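import Pool.Agent.H98.Q.Gibbs

/-!
# Isoperimetry along coordinate lines (Loomis–Whitney / Gagliardo–Nirenberg), and entropy growth
-/

set_option autoImplicit false
set_option linter.unusedSectionVars false
set_option linter.unusedVariables false

open Real MeasureTheory Function
open scoped ENNReal

namespace Pool.Agent.H98.Q

variable {ι : Type*} [Fintype ι] [DecidableEq ι]

theorem pi_count : (Measure.pi fun _ : ι => (Measure.count : Measure ℤ)) = Measure.count := by
  refine Measure.ext_of_singleton fun x => ?_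
  rw [Measure.pi_singleton, Measure.count_singleton]
  simp

/-- the bijection `r` moves points of `A` forward along direction `i` -/
structure Fwd (A : Set (ι → ℤ)) (i : ι) (r : Equiv.Perm (ι → ℤ)) : Prop where
  mem : ∀ x ∈ A, r x ∈ A
  step : ∀ x ∈ A, ∃ k : ℤ, 0 < k ∧ r x = update x i (x i + k)

omit [Fintype ι] in
theorem line_bound {A : Set (ι → ℤ)} {i : ι} {r : Equiv.Perm (ι → ℤ)} (h : Fwd A i r)
    {p : (ι → ℤ) → ℝ} (hp : ∀ x, 0 ≤ p x) (hf : p.support.Finite) (hA : ∀ x, p x ≠ 0 → x ∈ A)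
    (x : ι → ℤ) :
    ENNReal.ofReal (p x) ≤ ∑' t : ℤ, ENNReal.ofReal |p (update x i t) - p (r (update x i t))| := by
  by_cases hx0 : p x = 0
  · simp [hx0]
  have hx : x ∈ A := hA x hx0
  set u : ℕ → ℤ := fun n => (r^[n] x) i with hu
  have hmem : ∀ n, r^[n] x ∈ A := by
    intro n
    induction n with
    | zero => simpa using hx
    | succ n ih => rw [Function.iterate_succ_apply']; exact h.mem _ ih
  have hupd : ∀ n, r^[n] x = update x i (u n) := by
    intro n
    induction n with
    | zero => simp [hu]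
    | succ n ih =>
      obtain ⟨k, hk, hk2⟩ := h.step _ (hmem n)
      have h1 : u (n + 1) = u n + k := by
        simp only [hu]
        rw [Function.iterate_succ_apply', hk2]; simp
      rw [Function.iterate_succ_apply', hk2, h1, ih]
      simp
  have hmono : StrictMono u := by
    refine strictMono_nat_of_lt_succ fun n => ?_
    obtain ⟨k, hk, hk2⟩ := h.step _ (hmem n)
    have h1 : u (n + 1) = u n + k := by
      simp only [hu]
      rw [Function.iterate_succ_apply', hk2]; simp
    omega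
  have hex : ∃ n, p (r^[n] x) = 0 := by
    by_contra hcon
    push Not at hcon
    refine (Set.infinite_of_injective_forall_mem (f := fun n => r^[n] x) ?_ hcon) hf
    intro m n hmn
    apply hmono.injective
    exact congrFun hmn i
  obtain ⟨n, hn⟩ := hex
  have htel : p x ≤ ∑ k ∈ Finset.range n, |p (update x i (u k)) - p (r (update x i (u k)))| := by
    have h1 : p x = ∑ k ∈ Finset.range n, (p (r^[k] x) - p (r^[k + 1] x)) := by
      rw [Finset.sum_range_sub']; simp [hn]
    rw [h1]
    refine Finset.sum_le_sum fun k _ => ?_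
    refine (le_abs_self _).trans (le_of_eq ?_)
    rw [← hupd k, Function.iterate_succ_apply']
  calc ENNReal.ofReal (p x) ≤ ENNReal.ofReal
        (∑ k ∈ Finset.range n, |p (update x i (u k)) - p (r (update x i (u k)))|) :=
        ENNReal.ofReal_le_ofReal htel
    _ = ∑ k ∈ Finset.range n,
        ENNReal.ofReal |p (update x i (u k)) - p (r (update x i (u k)))| :=
        ENNReal.ofReal_sum_of_nonneg fun _ _ => abs_nonneg _
    _ = ∑ t ∈ (Finset.range n).image u,
        ENNReal.ofReal |p (update x i t) - p (r (update x i t))| := by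
        rw [Finset.sum_image]; intro a _ b _ hab; exact hmono.injective hab
    _ ≤ _ := ENNReal.sum_le_tsum _

/-- total variation along the bijections -/
noncomputable def tv (r : ι → Equiv.Perm (ι → ℤ)) (p : (ι → ℤ) → ℝ) (x : ι → ℤ) : ℝ :=
  ∑ i, |p x - p (r i x)|

theorem tv_nonneg (r : ι → Equiv.Perm (ι → ℤ)) (p : (ι → ℤ) → ℝ) (x : ι → ℤ) : 0 ≤ tv r p x :=
  Finset.sum_nonneg fun _ _ => abs_nonneg _

theorem tv_fin (r : ι → Equiv.Perm (ι → ℤ)) {p : (ι → ℤ) → ℝ} (hf : p.support.Finite) :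
    (tv r p).support.Finite := by
  refine (hf.union (Set.finite_iUnion fun i => fin_comp hf (r i))).subset fun x hx => ?_
  by_contra h
  simp only [Set.mem_union, Set.mem_iUnion, Function.mem_support, not_or, not_not, not_exists] at h
  exact hx (by simp [tv, h.1, h.2])

theorem gns (hd : 1 < Fintype.card ι) {A : Set (ι → ℤ)} {r : ι → Equiv.Perm (ι → ℤ)}
    (h : ∀ i, Fwd A i (r i)) {p : (ι → ℤ) → ℝ} (hp : ∀ x, 0 ≤ p x) (hf : p.support.Finite)
    (hA : ∀ x, p x ≠ 0 → x ∈ A) :
    ∑' x, p x ^ ((Fintype.card ι : ℝ) / (Fintype.card ι - 1)) ≤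
      (∑' x, tv r p x) ^ ((Fintype.card ι : ℝ) / (Fintype.card ι - 1)) := by
  set d : ℝ := (Fintype.card ι : ℝ) with hdd
  have hd1 : (1 : ℝ) < d := by rw [hdd]; exact_mod_cast hd
  have hq : Real.HolderConjugate d (d / (d - 1)) := Real.HolderConjugate.conjExponent hd1
  have key := lintegral_prod_lintegral_pow_le (μ := fun _ : ι => (Measure.count : Measure ℤ)) hq
    (f := fun x => ENNReal.ofReal (tv r p x)) (measurable_of_countable _)
  simp only [pi_count, lintegral_count] at key
  have hle : ∀ x, ENNReal.ofReal (p x ^ (d / (d - 1))) ≤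
      ∏ i : ι, (∑' t : ℤ, ENNReal.ofReal (tv r p (update x i t))) ^ (1 / (d - 1)) := by
    intro x
    have h1 : ENNReal.ofReal (p x ^ (d / (d - 1))) =
        ∏ i : ι, (ENNReal.ofReal (p x)) ^ (1 / (d - 1)) := by
      rw [Finset.prod_const, Finset.card_univ, ← ENNReal.rpow_natCast, ← ENNReal.rpow_mul,
        ← ENNReal.ofReal_rpow_of_nonneg (hp x) (div_nonneg (by linarith) (by linarith))]
      congr 1
      rw [← hdd]; ring
    rw [h1]
    refine Finset.prod_le_prod' fun i _ => ?_
    refine ENNReal.rpow_le_rpow ?_ (div_nonneg zero_le_one (by linarith))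
    refine (line_bound (h i) hp hf hA x).trans (ENNReal.tsum_le_tsum fun t => ?_)
    refine ENNReal.ofReal_le_ofReal ?_
    exact Finset.single_le_sum (f := fun j => |p (update x i t) - p (r j (update x i t))|)
      (fun j _ => abs_nonneg _) (Finset.mem_univ i)
  have h2 : ∑' x, ENNReal.ofReal (p x ^ (d / (d - 1))) ≤
      (∑' x, ENNReal.ofReal (tv r p x)) ^ (d / (d - 1)) :=
    (ENNReal.tsum_le_tsum hle).trans key
  have hdq : 0 < d / (d - 1) := div_pos (by linarith) (by linarith)
  have s1 : Summable fun x => p x ^ (d / (d - 1)) :=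
    summable_of_fin (fin_of_one hf fun x hx => by rw [hx, Real.zero_rpow hdq.ne'])
  have s2 : Summable (tv r p) := summable_of_fin (tv_fin r hf)
  have t2 : 0 ≤ ∑' x, tv r p x := tsum_nonneg fun x => tv_nonneg r p x
  rw [← ENNReal.ofReal_tsum_of_nonneg (fun x => Real.rpow_nonneg (hp x) _) s1,
    ← ENNReal.ofReal_tsum_of_nonneg (fun x => tv_nonneg r p x) s2,
    ENNReal.ofReal_rpow_of_nonneg t2 hdq.le] at h2
  exact (ENNReal.ofReal_le_ofReal_iff (Real.rpow_nonneg t2 _)).1 h2

/-- Jensen -/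
theorem jensen {V : Type*} {p : V → ℝ} (hp : ∀ x, 0 ≤ p x) (hf : p.support.Finite)
    (h1 : ∑' x, p x = 1) {q : ℝ} (hq : 0 < q) :
    exp (-(q - 1) * ent p) ≤ ∑' x, p x ^ q := by
  have key : ∀ x, exp (-(q - 1) * ent p) * (p x * (1 + (q - 1) * ent p)
      - (q - 1) * negMulLog (p x)) ≤ p x ^ q := by
    intro x
    rcases (hp x).eq_or_lt with h | h
    · rw [← h]; simp [Real.zero_rpow hq.ne']
    · set m := -(q - 1) * ent p
      set t := (q - 1) * log (p x)
      have e1 : p x ^ q = p x * (exp m * exp (t - m)) := by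
        rw [← exp_add, show m + (t - m) = t by ring,
          show t = log (p x) * (q - 1) by simp only [t]; ring, ← Real.rpow_def_of_pos h,
          ← Real.rpow_one_add' (hp x) (by linarith)]
        congr 1; ring
      have e2 : t - m + 1 ≤ exp (t - m) := add_one_le_exp _
      rw [e1]
      have e3 : exp m * (p x * (1 + (q - 1) * ent p) - (q - 1) * negMulLog (p x)) =
          p x * (exp m * (t - m + 1)) := by
        simp only [m, t, negMulLog]; ring
      rw [e3]
      exact mul_le_mul_of_nonneg_left (mul_le_mul_of_nonneg_left e2 (exp_pos _).le) h.le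
  have s1 : Summable p := summable_of_fin hf
  have s2 : Summable fun x => negMulLog (p x) := summable_of_fin (negMulLog_fin hf)
  have s3 : Summable fun x => p x ^ q :=
    summable_of_fin (fin_of_one hf fun x hx => by rw [hx, Real.zero_rpow hq.ne'])
  have := (((s1.mul_right (1 + (q - 1) * ent p)).sub (s2.mul_left (q - 1))).mul_left
    (exp (-(q - 1) * ent p))).tsum_le_tsum key s3
  rw [tsum_mul_left, (s1.mul_right _).tsum_sub (s2.mul_left _), tsum_mul_left, tsum_mul_right,
    h1] at this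
  have e : (1 : ℝ) * (1 + (q - 1) * ent p) - (q - 1) * ∑' x, negMulLog (p x) = 1 := by
    rw [ent]; ring
  rw [e, mul_one] at this
  exact this

theorem iso (hd : 1 < Fintype.card ι) {A : Set (ι → ℤ)} {r : ι → Equiv.Perm (ι → ℤ)}
    (h : ∀ i, Fwd A i (r i)) {p : (ι → ℤ) → ℝ} (hp : ∀ x, 0 ≤ p x) (hf : p.support.Finite)
    (hA : ∀ x, p x ≠ 0 → x ∈ A) (h1 : ∑' x, p x = 1) :
    exp (-ent p / Fintype.card ι) ≤ ∑' x, tv r p x := by
  set d : ℝ := (Fintype.card ι : ℝ) with hdd
  have hd1 : (1 : ℝ) < d := by rw [hdd]; exact_mod_cast hd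
  have hdq : 0 < d / (d - 1) := div_pos (by linarith) (by linarith)
  have e1 := (jensen hp hf h1 hdq).trans (gns hd h hp hf hA)
  have t2 : 0 ≤ ∑' x, tv r p x := tsum_nonneg fun x => tv_nonneg r p x
  have e2 : exp (-(d / (d - 1) - 1) * ent p) = (exp (-ent p / d)) ^ (d / (d - 1)) := by
    rw [← Real.exp_mul]
    congr 1
    have : d - 1 ≠ 0 := by linarith
    field_simp; ring
  rw [← hdd, e2] at e1
  exact (Real.rpow_le_rpow_iff (exp_pos _).le t2 hdq).1 e1

theorem tv_le {V : Type*} {p : V → ℝ} (hp : ∀ x, 0 ≤ p x) (hf : p.support.Finite)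
    (h1 : ∑' x, p x = 1) (r : Equiv.Perm V) {l : ℝ} (hl : 0 < l) :
    ∑' x, |p x - p (r x)| ≤ l / 2 * hel r p + 2 * l⁻¹ := by
  have s0 : Summable fun x => |p x - p (r x)| :=
    summable_of_fin (fin_of_two hf r fun x h1 h2 => by simp [h1, h2])
  have s1 : Summable fun x => (√(p x) - √(p (r x))) ^ 2 := summable_of_fin (hel_fin hf r)
  have s2 : Summable fun x => p x := summable_of_fin hf
  have s3 : Summable fun x => p (r x) := summable_of_fin (fin_comp hf r)
  have := s0.tsum_le_tsum (g := fun x => l / 2 * (√(p x) - √(p (r x))) ^ 2 +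
      l⁻¹ * (p x + p (r x))) (fun x => ?_) ((s1.mul_left _).add ((s2.add s3).mul_left _))
  · rw [(s1.mul_left _).tsum_add ((s2.add s3).mul_left _), tsum_mul_left, tsum_mul_left,
      s2.tsum_add s3, tsum_comp r p, h1] at this
    rw [hel]
    linarith
  · have := pt_bound (D := 1) (hp x) (hp (r x)) hl
    rw [abs_one, mul_one, one_pow, mul_one, abs_sub_comm] at this
    exact this

/-- **Entropy growth.** -/
theorem ent_gain {J : Type*} [Fintype J] [DecidableEq J] {σ : J → Equiv.Perm (ι → ℤ)}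
    (hd : 1 < Fintype.card ι) {A : Set (ι → ℤ)} {r : ι → Equiv.Perm (ι → ℤ)}
    (h : ∀ i, Fwd A i (r i)) {j0 j1 : ι → J} (hne : ∀ i, j0 i ≠ j1 i) (h0 : ∀ i, σ (j0 i) = 1)
    (hr : ∀ i, σ (j1 i) = r i)
    {p : (ι → ℤ) → ℝ} (hp : ∀ x, 0 ≤ p x) (hf : p.support.Finite)
    (hA : ∀ x, p x ≠ 0 → x ∈ A) (h1 : ∑' x, p x = 1) :
    exp (-2 * ent p / Fintype.card ι) ≤
      8 * (Fintype.card ι : ℝ) ^ 2 * Fintype.card J * (ent (avg σ p) - ent p) := by
  set d : ℝ := (Fintype.card ι : ℝ) with hdd
  have hd1 : (1 : ℝ) < d := by rw [hdd]; exact_mod_cast hd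
  have hι : Nonempty ι := Fintype.card_pos_iff.1 (by omega)
  have hN : (0 : ℝ) < Fintype.card J := by
    have : 0 < Fintype.card J := Fintype.card_pos_iff.2 ⟨j0 hι.some⟩
    exact_mod_cast this
  set N : ℝ := (Fintype.card J : ℝ) with hNN
  set D := ent (avg σ p) - ent p with hD
  have hHel : ∀ i, hel (r i) p ≤ 2 * N * D := by
    intro i
    have := ent_avg_ge hp hf (hne i) (h0 i)
    rw [hr i] at this
    have h2 : (2 * N : ℝ)⁻¹ * hel (r i) p ≤ D := by linarith
    have h3 := mul_le_mul_of_nonneg_left h2 (by positivity : (0 : ℝ) ≤ 2 * N)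
    rwa [← mul_assoc, mul_inv_cancel₀ (by positivity), one_mul] at h3
  have hiso := iso hd h hp hf hA h1
  rw [← hdd] at hiso
  set a := exp (-ent p / d) with ha
  have ha0 : 0 < a := exp_pos _
  set l := 4 * d * a⁻¹ with hl
  have hl0 : 0 < l := by positivity
  have htv : ∑' x, tv r p x ≤ ∑ _i : ι, (l / 2 * (2 * N * D) + 2 * l⁻¹) := by
    unfold tv
    rw [Summable.tsum_finsetSum]
    · refine Finset.sum_le_sum fun i _ => (tv_le hp hf h1 (r i) hl0).trans ?_
      have := mul_le_mul_of_nonneg_left (hHel i) (by positivity : 0 ≤ l / 2)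
      linarith
    · intro i _
      exact summable_of_fin (fin_of_two hf (r i) fun x h1 h2 => by simp [h1, h2])
  rw [Finset.sum_const, Finset.card_univ, nsmul_eq_mul, ← hdd] at htv
  have h3 := hiso.trans htv
  have h4 : d * (l / 2 * (2 * N * D) + 2 * l⁻¹) = 4 * d ^ 2 * N * D * a⁻¹ + a / 2 := by
    rw [hl]; field_simp; ring
  rw [h4] at h3
  have h5 : a / 2 ≤ 4 * d ^ 2 * N * D * a⁻¹ := by linarith
  have h6 := mul_le_mul_of_nonneg_left h5 (by positivity : 0 ≤ 2 * a)
  have h7 : 2 * a * (a / 2) = a * a := by ring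
  have h8 : 2 * a * (4 * d ^ 2 * N * D * a⁻¹) = 8 * d ^ 2 * N * D := by field_simp; ring
  have h9 : exp (-2 * ent p / d) = a * a := by
    rw [ha, ← exp_add]; congr 1; ring
  rw [h9, ← h7]
  linarith

end Pool.Agent.H98.Q
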