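import Pool.Agent.H98.Q.Ergo

/-!
# The quenched law of the walk
-/

set_option autoImplicit false
set_option linter.unusedSectionVars false
set_option linter.unusedVariables false

open MeasureTheory Filter Topology ProbabilityTheory
open scoped ENNReal

namespace Pool.Agent.H98.Q

variable {d : ℕ}

/-- the quenched law of the walk after `n` steps -/
noncomputable def law (ω : Cfg d) : ℕ → Measure (Fin d → ℤ)
  | 0 => Measure.dirac 0
  | n + 1 => ((2 * d : ℕ) : ℝ≥0∞)⁻¹ • ∑ e : Fin d × Bool, (law ω n).map (fun x => nbr ω x e)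

theorem card_dirs : Fintype.card (Fin d × Bool) = 2 * d := by
  rw [Fintype.card_prod, Fintype.card_fin, Fintype.card_bool, mul_comm]

theorem law_singleton (hd : 0 < d) {S : Set (Cfg d)} (hS : Inv (fun e : Fin d × Bool => tau e) S)
    (hG : ∀ ω ∈ S, Good ω) {ω : Cfg d} (hω : ω ∈ S) (n : ℕ) (x : Fin d → ℤ) :
    law ω n {x} = ENNReal.ofReal ((env hS hG hω).W.q n x) := by
  set V := env hS hG hω with hV
  induction n generalizing x with
  | zero =>
    rw [law, Walk.q]
    by_cases hx : x = 0
    · subst hx; simp
    · rw [Measure.dirac_apply' _ (measurableSet_singleton x), Set.indicator_of_notMem]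
      · simp [hx]
      · simpa using fun h : (0 : Fin d → ℤ) = x => hx h.symm
  | succ n ih =>
    have hae : ∀ᵐ z ∂(law ω n), V.W.q n z ≠ 0 := by
      rw [ae_iff]
      simp only [not_not]
      refine (measure_null_iff_singleton (Set.to_countable _)).2 fun z hz => ?_
      rw [ih, show V.W.q n z = 0 from hz, ENNReal.ofReal_zero]
    have h1 : ∀ e, (law ω n).map (fun z => nbr ω z e) {x} =
        ENNReal.ofReal (V.W.q n (V.W.s (neg e) x)) := by
      intro e
      rw [Measure.map_apply (measurable_of_countable _) (measurableSet_singleton x), ← ih]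
      refine measure_congr ?_
      filter_upwards [hae] with z hz
      have hA := V.W.q_mem n z hz
      refine propext ?_
      change nbr ω z e = x ↔ z = V.W.s (neg e) x
      rw [← env_s hS hG hω hA e, V.W.s_neg]
      constructor
      · intro h; rw [← h]; simp [hV]
      · intro h; rw [h]; simp [hV]
    rw [law, Walk.q, avg, Measure.smul_apply, Measure.finsetSum_apply]
    simp only [h1, smul_eq_mul]
    rw [← ENNReal.ofReal_sum_of_nonneg (fun e _ => V.W.q_nonneg n _), card_dirs,
      V.W.sym.sum (fun e => V.W.q n (V.W.s e x)) |>.symm,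
      ENNReal.ofReal_mul (by positivity)]
    congr 1
    rw [ENNReal.ofReal_inv_of_pos (by positivity), ENNReal.ofReal_natCast]

theorem law_prob (hd : 0 < d) (ω : Cfg d) (n : ℕ) : IsProbabilityMeasure (law ω n) := by
  induction n with
  | zero => rw [law]; infer_instance
  | succ n ih =>
    refine ⟨?_⟩
    rw [law, Measure.smul_apply, Measure.finsetSum_apply]
    have h1 : ∀ e : Fin d × Bool, (law ω n).map (fun z => nbr ω z e) Set.univ = 1 := fun e => by
      rw [Measure.map_apply (measurable_of_countable _) MeasurableSet.univ, Set.preimage_univ,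
        measure_univ]
    simp only [h1, Finset.sum_const, Finset.card_univ, card_dirs, nsmul_eq_mul, mul_one,
      smul_eq_mul]
    refine ENNReal.inv_mul_cancel ?_ (ENNReal.natCast_ne_top _)
    have : (2 * d : ℕ) ≠ 0 := by omega
    exact_mod_cast this

theorem law_integral (hd : 0 < d) {S : Set (Cfg d)}
    (hS : Inv (fun e : Fin d × Bool => tau e) S)
    (hG : ∀ ω ∈ S, Good ω) {ω : Cfg d} (hω : ω ∈ S) (n : ℕ) (f : (Fin d → ℤ) → ℂ)
    (hf : ∀ x, ‖f x‖ ≤ 1) :
    ∫ x, f x ∂(law ω n) = ∑' x, ((env hS hG hω).W.q n x : ℂ) * f x := by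
  have := law_prob hd ω n
  have hi : Integrable f (law ω n) :=
    Integrable.of_bound (measurable_of_countable f).aestronglyMeasurable 1
      (Eventually.of_forall hf)
  rw [integral_countable hi]
  refine tsum_congr fun x => ?_
  rw [Measure.real, law_singleton hd hS hG hω, ENNReal.toReal_ofReal ((env hS hG hω).W.q_nonneg n x),
    Complex.real_smul]

end Pool.Agent.H98.Q
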