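import Pool.Agent.H98.Q.CharLim

/-!
# Assembling the quenched central limit theorem
-/

set_option autoImplicit false
set_option linter.unusedSectionVars false
set_option linter.unusedVariables false

open MeasureTheory Filter Topology ProbabilityTheory
open scoped ENNReal Matrix

namespace Pool.Agent.H98.Q

variable {d : ℕ}

/-- displacement of one step in coordinate `i` -/
noncomputable def disp (i : Fin d) (e : Fin d × Bool) (ω : Cfg d) : ℝ :=
  (gap e ω : ℝ) * (dir e i : ℝ)

theorem disp_meas (i : Fin d) (e : Fin d × Bool) : Measurable (disp i e) := by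
  have h : Measurable (fun ω : Cfg d => (gap e ω : ℝ)) :=
    (measurable_of_countable (fun n : ℕ => (n : ℝ))).comp (gap_meas e)
  exact h.mul_const _

theorem gapR_meas (e : Fin d × Bool) : Measurable (fun ω : Cfg d => (gap e ω : ℝ)) :=
  (measurable_of_countable (fun n : ℕ => (n : ℝ))).comp (gap_meas e)

theorem gap_memLp {P : Measure (Cfg d)} (e : Fin d × Bool)
    (h : ∫⁻ ω, (gap e ω : ℝ≥0∞) ^ 2 ∂P < ∞) : MemLp (fun ω : Cfg d => (gap e ω : ℝ)) 2 P := by
  rw [memLp_two_iff_integrable_sq (gapR_meas e).aestronglyMeasurable]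
  refine ⟨((gapR_meas e).pow_const 2).aestronglyMeasurable, ?_⟩
  rw [hasFiniteIntegral_iff_enorm]
  refine lt_of_le_of_lt (le_of_eq ?_) h
  refine lintegral_congr fun ω => ?_
  rw [Real.enorm_eq_ofReal (by positivity), ENNReal.ofReal_pow (by positivity),
    ENNReal.ofReal_natCast]

theorem nrm_step (ω : Cfg d) (x : Fin d → ℤ) (e : Fin d × Bool) :
    (nrm (nbr ω x e) - nrm x) ^ 2 ≤ (gap e (shift x ω) : ℝ) ^ 2 := by
  set k := gap e (shift x ω) with hk
  have h1 : |nrm (nbr ω x e) - nrm x| ≤ k := by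
    have e1 : nrm (nbr ω x e) - nrm x = ∑ i, (|((nbr ω x e) i : ℝ)| - |(x i : ℝ)|) := by
      rw [nrm, nrm, Finset.sum_sub_distrib]
    rw [e1]
    refine (Finset.abs_sum_le_sum_abs _ _).trans ?_
    have e2 : ∀ i, |(|((nbr ω x e) i : ℝ)| - |(x i : ℝ)|)| ≤ if i = e.1 then (k : ℝ) else 0 := by
      intro i
      refine (abs_abs_sub_abs_le_abs_sub _ _).trans ?_
      have e3 : ((nbr ω x e) i : ℝ) - x i = (k : ℝ) * (dir e i : ℝ) := by
        rw [nbr, ← hk]; simp
      rw [e3]
      split_ifs with hi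
      · have : |(dir e i : ℝ)| = 1 := by
          rw [hi, dir, Pi.single_eq_same]
          split_ifs <;> simp
        rw [abs_mul, this, mul_one, Nat.abs_cast]
      · have : (dir e i : ℝ) = 0 := by
          rw [dir, Pi.single_eq_of_ne hi]; simp
        rw [this]; simp
    refine (Finset.sum_le_sum fun i _ => e2 i).trans ?_
    rw [Finset.sum_ite_eq' Finset.univ e.1]
    simp
  rw [← sq_abs]
  exact pow_le_pow_left₀ (abs_nonneg _) h1 2

/-- **The characteristic functions converge**, for almost every environment. -/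
theorem char_main (hd : 2 ≤ d) (Q : Measure (Cfg d)) [IsProbabilityMeasure Q]
    (hE : ∀ i : Fin d, Ergodic (shift (Pi.single i (1 : ℤ))) Q)
    (hne : Q {ω : Cfg d | ∀ x, ω x = false} < 1)
    (h2 : ∀ e : Fin d × Bool, ∫⁻ ω, (gap e ω : ℝ≥0∞) ^ 2 ∂(cond Q (Om d)) < ∞) :
    ∃ D : Matrix (Fin d) (Fin d) ℝ, D.PosSemidef ∧ ∀ᵐ ω ∂(cond Q (Om d)), ∀ t : Fin d → ℝ,
      Tendsto (fun n : ℕ => ∫ x, Complex.exp (((√(n : ℝ))⁻¹ * ∑ i, t i * (x i : ℝ) : ℝ) *
        Complex.I) ∂(law ω n)) atTop (𝓝 (Real.exp (-((t ⬝ᵥ D *ᵥ t) / 2)) : ℂ)) := by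
  have hd0 : 0 < d := by omega
  have hne' : Nonempty (Fin d) := ⟨⟨0, hd0⟩⟩
  have hcard : 1 < Fintype.card (Fin d) := by rw [Fintype.card_fin]; omega
  have hmp := shift_mp (Q := Q) (fun i => (hE i).toMeasurePreserving)
  have hpos := Om_pos hmp hne
  have hg := gap_pos hE hpos
  set P := cond Q (Om d) with hP
  have hPp : IsProbabilityMeasure P := cond_isProbabilityMeasure hpos
  set τ : Fin d × Bool → Cfg d → Cfg d := fun e => tau e with hτd
  have hτ : ∀ e, MeasurePreserving (τ e) P P := fun e => tau_mp hmp hg e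
  have he : Ergodic (τ (⟨0, hd0⟩, true)) P := tau_ergodic hE hpos ⟨0, hd0⟩
  have hgood : ∀ᵐ ω ∂P, Good ω := good_ae hg
  -- displacements
  have hgL : ∀ e, MemLp (fun ω : Cfg d => (gap e ω : ℝ)) 2 P := fun e => gap_memLp e (h2 e)
  have hFL : ∀ i e, MemLp (disp (d := d) i e) 2 P := fun i e => (hgL e).mul_const _
  have hinv : ∀ e, ∀ᵐ ω ∂P, τ (neg e) (τ e ω) = ω := fun e => by
    filter_upwards [hgood] with ω hω
    exact tau_tau hω.1 (hω.2 e)
  have hanti : ∀ (i : Fin d) (e : Fin d × Bool), ∀ᵐ ω ∂P,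
      disp i (neg e) (τ e ω) = - disp i e ω := fun i e => by
    filter_upwards [hgood] with ω hω
    rw [disp, disp, hτd]
    simp only
    rw [gap_tau hω.1 (hω.2 e), dir_neg]
    simp
  -- correctors
  choose u δ hum hub hδm hδL hconv hharm hener using fun i : Fin d =>
    corrector hτ neg_neg' hinv (disp i) (disp_meas i) (hFL i) (hanti i)
  -- covariance matrix
  set c : ℝ := (Fintype.card (Fin d × Bool) : ℝ)⁻¹ with hc
  set D : Matrix (Fin d) (Fin d) ℝ := Matrix.of fun i j => ∫ ω, c * ∑ e, δ i e ω * δ j e ω ∂P with hD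
  set v : (Fin d → ℝ) → ℝ := fun t => t ⬝ᵥ D *ᵥ t with hv
  have hint : ∀ i j, Integrable (fun ω => c * ∑ e, δ i e ω * δ j e ω) P := fun i j =>
    (integrable_finsetSum _ fun e _ => (hδL i e).integrable_mul (hδL j e)).const_mul _
  have hvt : ∀ t : Fin d → ℝ, ∫ ω, msq (fun e ω => ∑ i, t i * δ i e ω) ω ∂P = v t := by
    intro t
    have e1 : ∀ ω, msq (fun e ω => ∑ i, t i * δ i e ω) ω =
        ∑ i, ∑ j, t i * t j * (c * ∑ e, δ i e ω * δ j e ω) := by
      intro ω
      rw [msq, ← hc]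
      have e2 : ∀ e, (∑ i, t i * δ i e ω) ^ 2 = ∑ i, ∑ j, t i * t j * (δ i e ω * δ j e ω) := by
        intro e
        rw [pow_two, Finset.sum_mul_sum]
        exact Finset.sum_congr rfl fun i _ => Finset.sum_congr rfl fun j _ => by ring
      simp only [e2]
      rw [Finset.sum_comm, Finset.mul_sum]
      refine Finset.sum_congr rfl fun i _ => ?_
      rw [Finset.sum_comm, Finset.mul_sum]
      refine Finset.sum_congr rfl fun j _ => ?_
      rw [← Finset.mul_sum]; ring
    simp only [e1]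
    rw [integral_finsetSum _ (fun i _ => integrable_finsetSum _ fun j _ => (hint i j).const_mul _)]
    simp only [hv, dotProduct, Matrix.mulVec]
    refine Finset.sum_congr rfl fun i _ => ?_
    rw [integral_finsetSum _ (fun j _ => (hint i j).const_mul _), Finset.mul_sum]
    refine Finset.sum_congr rfl fun j _ => ?_
    rw [integral_const_mul, hD, Matrix.of_apply]
    ring
  have hvc : Continuous v := by
    simp only [hv, dotProduct, Matrix.mulVec]
    fun_prop
  have hDsym : D.IsHermitian := by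
    ext i j
    simp only [Matrix.conjTranspose_apply, star_trivial, hD, Matrix.of_apply]
    congr 1
    funext ω
    congr 1
    exact Finset.sum_congr rfl fun e _ => mul_comm _ _
  have hDpos : D.PosSemidef := by
    refine Matrix.PosSemidef.of_dotProduct_mulVec_nonneg hDsym fun t => ?_
    rw [star_trivial]
    have := hvt t
    simp only [hv] at this
    rw [← this]
    exact integral_nonneg fun ω => msq_nonneg _ _
  refine ⟨D, hDpos, ?_⟩
  -- the invariant set
  obtain ⟨S, hS1, hS2, hS3⟩ := exists_inv hτ (p := fun ω => Good ω ∧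
    ∀ i e, Tendsto (fun m => disp i e ω - gr τ (u i m) e ω) atTop (𝓝 (δ i e ω)))
    (hgood.and (eventually_all.2 fun i => hconv i))
  have hSG : ∀ ω ∈ S, Good ω := fun ω hω => (hS3 ω hω).1
  -- almost sure bounds
  have hB := ae_bdd hτ (msq_meas gapR_meas) (msq_int hgL) (msq_nonneg _)
  have hsm : ∀ i, ∀ᵐ ω ∂P, ∀ᶠ k in atTop, ∀ n : ℕ, ∑ j ∈ Finset.range n,
      (T τ)^[j] (((4 : ℝ) ^ k) • msq (gr τ (u i (k + 1) - u i k))) ω ≤ (1 / 2) ^ k * n := by
    intro i
    have hgrm : ∀ k e, Measurable (gr τ (u i (k + 1) - u i k) e) := fun k e =>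
      gr_meas hτ ((hum i (k + 1)).sub (hum i k)) e
    have hgrL : ∀ k e, MemLp (gr τ (u i (k + 1) - u i k) e) 2 P := fun k e => by
      obtain ⟨C1, hC1⟩ := hub i (k + 1)
      obtain ⟨C2, hC2⟩ := hub i k
      refine memLp_bdd (hgrm k e) (C := 2 * (C1 + C2)) (fun ω => gr_bdd (fun ω => ?_) e ω) 2
      exact (abs_sub _ _).trans (add_le_add (hC1 ω) (hC2 ω))
    refine ae_small hτ (fun k => (msq_meas (hgrm k)).const_smul _)
      (fun k => (msq_int (hgrL k)).smul _)
      (fun k ω => mul_nonneg (by positivity) (msq_nonneg _ _)) (fun k => ?_)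
    simp only [Pi.smul_apply, smul_eq_mul]
    rw [integral_const_mul]
    have := mul_le_mul_of_nonneg_left (hener i k) (by positivity : (0 : ℝ) ≤ 4 ^ k)
    refine this.trans (le_of_eq ?_)
    rw [← mul_pow]; norm_num
  obtain ⟨A, hAc, hAd⟩ := TopologicalSpace.exists_countable_dense (Fin d → ℝ)
  have hmart : ∀ᵐ ω ∂P, ∀ t ∈ A, Tendsto (fun N : ℕ =>
      ((Sop τ (fun e ω => ∑ i, t i * δ i e ω) (√(N : ℝ))⁻¹) ^ N) (fun _ => 1) ω) atTop
      (𝓝 (Real.exp (-(v t / 2)) : ℂ)) := by
    rw [ae_ball_iff hAc]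
    intro t _
    rw [← hvt t]
    refine mart hτ he (fun e => Finset.measurable_sum _ fun i _ => (hδm i e).const_mul _)
      (fun e => memLp_finsetSum _ fun i _ => (hδL i e).const_mul _) ?_
    filter_upwards [eventually_all.2 hharm] with ω hω
    rw [Finset.sum_comm]
    refine Finset.sum_eq_zero fun i _ => ?_
    rw [← Finset.mul_sum, hω i, mul_zero]
  filter_upwards [hS1, hB, eventually_all.2 hsm, hmart] with ω w1 w2 w3 w4 t
  obtain ⟨B, hB0, hB1⟩ := w2
  set V := env hS2 hSG w1 with hV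
  have hVs : ∀ x ∈ V.W.A, ∀ e, V.W.s e x = nbr ω x e := fun x hx e => env_s hS2 hSG w1 hx e
  have hVθ : ∀ x, V.θ x = shift x ω := fun x => rfl
  have hVA : ∀ x ∈ V.W.A, shift x ω ∈ S := fun x hx => hx
  have key := V.char_lim hcard (F := fun i e ω => disp i e ω) (g := msq fun e ω => (gap e ω : ℝ))
    (fun x hx e i => by
      rw [hVs x hx e, hVθ, nbr, disp]; simp)
    (fun x hx => by
      rw [msq]
      refine mul_le_mul_of_nonneg_left (Finset.sum_le_sum fun e _ => ?_) (by positivity)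
      rw [hVs x hx e, hVθ]
      exact nrm_step ω x e)
    hB0 hB1 hub w3
    (fun x hx i e => (hS3 _ (hVA x hx)).2 i e) hvc hAd w4 t
  refine key.congr fun n => ?_
  exact (law_integral hd0 hS2 hSG w1 n _ (fun x => by
    rw [Complex.norm_exp_ofReal_mul_I])).symm

end Pool.Agent.H98.Q
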