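import Pool.Agent.H98.Q.Corr

/-!
# The martingale part: characteristic functions
-/

set_option autoImplicit false
set_option linter.unusedSectionVars false
set_option linter.unusedVariables false

open MeasureTheory Filter Topology

namespace Pool.Agent.H98.Q

/-- second order bound for `e^{it}` -/
theorem exp_it_bound (t : ℝ) :
    ‖Complex.exp (t * Complex.I) - 1 - t * Complex.I + (t : ℂ) ^ 2 / 2‖ ≤
      4 * (t ^ 2 * min 1 |t|) := by
  have hn : ‖(t : ℂ) * Complex.I‖ = |t| := by simp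
  rcases le_or_gt |t| 1 with h | h
  · rw [min_eq_right h]
    have h1 := Complex.exp_bound (x := (t : ℂ) * Complex.I) (by rw [hn]; exact h)
      (n := 3) (by norm_num)
    rw [hn] at h1
    have e : ∑ m ∈ Finset.range 3, ((t : ℂ) * Complex.I) ^ m / (m.factorial : ℂ) =
        1 + t * Complex.I - (t : ℂ) ^ 2 / 2 := by
      simp only [Finset.sum_range_succ, Finset.sum_range_zero, pow_zero, pow_one, Nat.factorial,
        mul_pow, Complex.I_sq]
      push_cast; ring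
    rw [e] at h1
    have e2 : Complex.exp (t * Complex.I) - (1 + t * Complex.I - (t : ℂ) ^ 2 / 2) =
        Complex.exp (t * Complex.I) - 1 - t * Complex.I + (t : ℂ) ^ 2 / 2 := by ring
    rw [e2] at h1
    refine h1.trans ?_
    have e3 : t ^ 2 * |t| = |t| ^ 3 := by rw [← sq_abs]; ring
    rw [e3]
    have : (0 : ℝ) ≤ |t| ^ 3 := by positivity
    norm_num [Nat.factorial]
    nlinarith
  · rw [min_eq_left h.le, mul_one]
    have h1 : ‖Complex.exp (t * Complex.I)‖ = 1 := Complex.norm_exp_ofReal_mul_I t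
    have h2 : ‖(t : ℂ) ^ 2 / 2‖ = t ^ 2 / 2 := by
      rw [norm_div, norm_pow, Complex.norm_real, Real.norm_eq_abs, sq_abs]; norm_num
    have h3 : ‖Complex.exp (t * Complex.I) - 1 - t * Complex.I + (t : ℂ) ^ 2 / 2‖ ≤
        1 + 1 + |t| + t ^ 2 / 2 := by
      refine (norm_add_le _ _).trans ?_
      rw [h2]
      refine add_le_add ((norm_sub_le _ _).trans ?_) le_rfl
      rw [hn]
      refine add_le_add ((norm_sub_le _ _).trans ?_) le_rfl
      rw [h1, norm_one]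
    have h4 : 1 ≤ |t| := h.le
    have h5 : t ^ 2 = |t| ^ 2 := (sq_abs t).symm
    nlinarith

theorem exp_it_one (t : ℝ) : ‖Complex.exp (t * Complex.I) - 1‖ ≤ |t| := by
  have := Real.norm_exp_I_mul_ofReal_sub_one_le (x := t)
  rwa [mul_comm, Real.norm_eq_abs] at this

variable {Ω : Type*} {E : Type*} [Fintype E] [Nonempty E] {τ : E → Ω → Ω}

/-- twisted averaging operator -/
noncomputable def Sop (τ : E → Ω → Ω) (δ : E → Ω → ℝ) (s : ℝ) : Module.End ℂ (Ω → ℂ) where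
  toFun F ω := (Fintype.card E : ℂ)⁻¹ * ∑ e, Complex.exp ((s * δ e ω : ℝ) * Complex.I) * F (τ e ω)
  map_add' F G := by
    funext ω
    simp only [Pi.add_apply, mul_add, Finset.sum_add_distrib]
  map_smul' c F := by
    funext ω
    simp only [Pi.smul_apply, smul_eq_mul, RingHom.id_apply]
    have : ∀ e, Complex.exp ((s * δ e ω : ℝ) * Complex.I) * (c * F (τ e ω)) =
      c * (Complex.exp ((s * δ e ω : ℝ) * Complex.I) * F (τ e ω)) := fun e => by ring
    simp only [this, ← Finset.mul_sum]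
    ring

theorem Sop_apply (δ : E → Ω → ℝ) (s : ℝ) (F : Ω → ℂ) (ω : Ω) : Sop τ δ s F ω =
    (Fintype.card E : ℂ)⁻¹ * ∑ e, Complex.exp ((s * δ e ω : ℝ) * Complex.I) * F (τ e ω) := rfl

theorem Sop_norm {S : Set Ω} (hS : Inv τ S) (δ : E → Ω → ℝ) (s : ℝ) {F : Ω → ℂ} {G : Ω → ℝ}
    (h : ∀ ω ∈ S, ‖F ω‖ ≤ G ω) (n : ℕ) : ∀ ω ∈ S, ‖((Sop τ δ s) ^ n) F ω‖ ≤ (T τ)^[n] G ω := by
  induction n with
  | zero => intro ω hω; exact h ω hω
  | succ n ih =>
    intro ω hω
    rw [pow_succ', Module.End.mul_apply, Sop_apply, iter_succ, T, norm_mul]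
    have : ‖(Fintype.card E : ℂ)⁻¹‖ = (Fintype.card E : ℝ)⁻¹ := by simp
    rw [this]
    refine mul_le_mul_of_nonneg_left ?_ (by positivity)
    refine (norm_sum_le _ _).trans (Finset.sum_le_sum fun e _ => ?_)
    rw [norm_mul, Complex.norm_exp_ofReal_mul_I, one_mul]
    exact ih _ (hS ω hω e)

/-- the perturbation argument -/
theorem Sop_recursion {S : Set Ω} (hS : Inv τ S) (δ : E → Ω → ℝ) (s : ℝ) {r c C : ℝ}
    (hr0 : 0 ≤ r) (hr1 : r ≤ 1) (hc : 0 ≤ c) {h : Ω → ℝ} (hC : ∀ ω, |h ω| ≤ C) {ρ : Ω → ℝ}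
    (hρ : ∀ ω ∈ S, ‖Sop τ δ s (fun _ => 1) ω - r + c * (h ω - Sop τ δ s (fun ω => (h ω : ℂ)) ω)‖
      ≤ ρ ω) (n : ℕ) :
    ∀ ω ∈ S, ‖((Sop τ δ s) ^ n) (fun _ => 1) ω - (r : ℂ) ^ n -
      c * ((Sop τ δ s) ^ n) (fun ω => (h ω : ℂ)) ω‖ ≤
      c * C + ∑ j ∈ Finset.range n, (T τ)^[j] ρ ω := by
  set A := Sop τ δ s with hA
  set one : Ω → ℂ := fun _ => 1 with hone
  set hh : Ω → ℂ := fun ω => (h ω : ℂ) with hhh
  set R : Ω → ℂ := A one - (r : ℂ) • one + (c : ℂ) • (hh - A hh) with hR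
  have hC' : ∀ ω ∈ S, ‖hh ω‖ ≤ C := fun ω _ => by
    simp only [hhh]; rw [Complex.norm_real]; exact hC ω
  have hRρ : ∀ ω ∈ S, ‖R ω‖ ≤ ρ ω := by
    intro ω hω
    refine le_trans (le_of_eq ?_) (hρ ω hω)
    simp only [hR, Pi.add_apply, Pi.sub_apply, Pi.smul_apply, smul_eq_mul, hone, mul_one]
    rfl
  have hAhh : ∀ n, ∀ ω ∈ S, ‖(A ^ n) hh ω‖ ≤ C := by
    intro n ω hω
    have := Sop_norm hS δ s (F := hh) (G := fun _ => C) hC' n ω hω
    rwa [iter_const] at this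
  induction n with
  | zero =>
    intro ω hω
    simp only [pow_zero, Module.End.one_apply, Finset.range_zero, Finset.sum_empty, add_zero]
    rw [hone, sub_self, zero_sub, norm_neg, norm_mul, Complex.norm_real, Real.norm_eq_abs,
      abs_of_nonneg hc]
    exact mul_le_mul_of_nonneg_left (hC' ω hω) hc
  | succ n ih =>
    intro ω hω
    rw [Finset.sum_range_succ]
    have e1 : A one = (r : ℂ) • one - (c : ℂ) • (hh - A hh) + R := by
      rw [hR]; abel
    have e2 : (A ^ (n + 1)) one ω = r * (A ^ n) one ω - c * ((A ^ n) hh ω - (A ^ (n + 1)) hh ω) +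
        (A ^ n) R ω := by
      have h1 : (A ^ (n + 1)) one = (A ^ n) (A one) := by rw [pow_succ, Module.End.mul_apply]
      have h2 : (A ^ (n + 1)) hh = (A ^ n) (A hh) := by rw [pow_succ, Module.End.mul_apply]
      rw [h1, h2, e1]
      simp only [map_add, map_sub, map_smul, Pi.add_apply, Pi.sub_apply, Pi.smul_apply, smul_eq_mul]
    have e3 : (A ^ (n + 1)) one ω - (r : ℂ) ^ (n + 1) - c * (A ^ (n + 1)) hh ω =
        r * ((A ^ n) one ω - (r : ℂ) ^ n - c * (A ^ n) hh ω) -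
          ((1 - r : ℝ) : ℂ) * (c * (A ^ n) hh ω) + (A ^ n) R ω := by
      rw [e2]; push_cast; ring
    rw [e3]
    have b1 : ‖(r : ℂ) * ((A ^ n) one ω - (r : ℂ) ^ n - c * (A ^ n) hh ω)‖ ≤
        r * (c * C + ∑ j ∈ Finset.range n, (T τ)^[j] ρ ω) := by
      rw [norm_mul, Complex.norm_real, Real.norm_eq_abs, abs_of_nonneg hr0]
      exact mul_le_mul_of_nonneg_left (ih ω hω) hr0
    have b2 : ‖((1 - r : ℝ) : ℂ) * (c * (A ^ n) hh ω)‖ ≤ (1 - r) * (c * C) := by
      rw [norm_mul, Complex.norm_real, Real.norm_eq_abs, abs_of_nonneg (by linarith), norm_mul,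
        Complex.norm_real, Real.norm_eq_abs, abs_of_nonneg hc]
      exact mul_le_mul_of_nonneg_left (mul_le_mul_of_nonneg_left (hAhh n ω hω) hc) (by linarith)
    have b3 : ‖(A ^ n) R ω‖ ≤ (T τ)^[n] ρ ω := Sop_norm hS δ s hRρ n ω hω
    have b4 : 0 ≤ ∑ j ∈ Finset.range n, (T τ)^[j] ρ ω := by
      refine Finset.sum_nonneg fun j _ => ?_
      exact (norm_nonneg _).trans (Sop_norm hS δ s hRρ j ω hω)
    have b5 : r * ∑ j ∈ Finset.range n, (T τ)^[j] ρ ω ≤ ∑ j ∈ Finset.range n, (T τ)^[j] ρ ω :=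
      mul_le_of_le_one_left b4 hr1
    refine (norm_add_le _ _).trans ?_
    refine (add_le_add (norm_sub_le _ _) b3).trans ?_
    linarith

end Pool.Agent.H98.Q
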