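import Pool.Agent.H98.Q.Erg

/-!
# Coboundary decomposition of integrable functions
-/

set_option autoImplicit false
set_option linter.unusedSectionVars false
set_option linter.unusedVariables false

open MeasureTheory Filter Topology
open scoped RealInnerProductSpace ENNReal

namespace Pool.Agent.H98.Q

variable {Ω : Type*} [MeasurableSpace Ω] {P : Measure Ω} [IsProbabilityMeasure P]
  {E : Type*} [Fintype E] [Nonempty E] {τ : E → Ω → Ω}

/-- the operator on `L²` -/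
noncomputable def TL (hτ : ∀ e, MeasurePreserving (τ e) P P) : Lp ℝ 2 P →L[ℝ] Lp ℝ 2 P :=
  (Fintype.card E : ℝ)⁻¹ • ∑ e, (Lp.compMeasurePreservingₗᵢ ℝ (τ e) (hτ e)).toContinuousLinearMap

theorem TL_apply (hτ : ∀ e, MeasurePreserving (τ e) P P) (x : Lp ℝ 2 P) :
    TL hτ x = (Fintype.card E : ℝ)⁻¹ • ∑ e, Lp.compMeasurePreserving (τ e) (hτ e) x := by
  simp only [TL, smul_apply, sum_apply]
  rfl

theorem TL_norm (hτ : ∀ e, MeasurePreserving (τ e) P P) : ‖TL hτ‖ ≤ 1 := by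
  refine ContinuousLinearMap.opNorm_le_bound _ zero_le_one fun x => ?_
  rw [TL_apply, norm_smul, norm_inv, Real.norm_natCast, one_mul]
  have h1 : ‖∑ e, Lp.compMeasurePreserving (τ e) (hτ e) x‖ ≤ (Fintype.card E : ℝ) * ‖x‖ := by
    refine (norm_sum_le _ _).trans (le_of_eq ?_)
    simp only [Lp.norm_compMeasurePreserving, Finset.sum_const, Finset.card_univ, nsmul_eq_mul]
  have h2 := mul_le_mul_of_nonneg_left h1 (by positivity : 0 ≤ (Fintype.card E : ℝ)⁻¹)
  rwa [← mul_assoc, card_mul_inv, one_mul] at h2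

theorem TL_fix (hτ : ∀ e, MeasurePreserving (τ e) P P) {e0 : E} (he : Ergodic (τ e0) P)
    {x : Lp ℝ 2 P} (hx : TL hτ x = x) : ∃ c : ℝ, x =ᵐ[P] fun _ => c := by
  have hN : (0 : ℝ) < Fintype.card E := by exact_mod_cast Fintype.card_pos
  have h1 : ∑ e, ‖Lp.compMeasurePreserving (τ e) (hτ e) x - x‖ ^ 2 = 0 := by
    have h2 : ∀ e, ‖Lp.compMeasurePreserving (τ e) (hτ e) x - x‖ ^ 2 =
        2 * ‖x‖ ^ 2 - 2 * ⟪Lp.compMeasurePreserving (τ e) (hτ e) x, x⟫ := fun e => by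
      rw [norm_sub_sq_real, Lp.norm_compMeasurePreserving]; ring
    simp only [h2, Finset.sum_sub_distrib, Finset.sum_const, Finset.card_univ, nsmul_eq_mul,
      ← Finset.mul_sum]
    rw [← sum_inner]
    have h3 : ∑ e, Lp.compMeasurePreserving (τ e) (hτ e) x = (Fintype.card E : ℝ) • x := by
      have := congrArg (fun y => (Fintype.card E : ℝ) • y) hx
      simp only [TL_apply, smul_smul] at this
      rwa [mul_inv_cancel₀ hN.ne', one_smul] at this
    rw [h3, real_inner_smul_left, real_inner_self_eq_norm_sq]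
    ring
  have h4 : Lp.compMeasurePreserving (τ e0) (hτ e0) x = x := by
    have := (Finset.sum_eq_zero_iff_of_nonneg (fun e _ => sq_nonneg _)).1 h1 e0 (Finset.mem_univ _)
    exact sub_eq_zero.1 (norm_eq_zero.1 (pow_eq_zero_iff (two_ne_zero)|>.1 this))
  have h5 : x ∘ τ e0 =ᵐ[P] x := by
    have := Lp.coeFn_compMeasurePreserving x (hτ e0)
    rw [h4] at this
    exact this.symm
  exact he.ae_eq_const_of_ae_eq_comp_ae (Lp.aestronglyMeasurable x) h5

theorem T_memLp (hτ : ∀ e, MeasurePreserving (τ e) P P) {F : Ω → ℝ} (hF : MemLp F 2 P) :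
    MemLp (T τ F) 2 P := by
  have : MemLp (fun ω => ∑ e, F (τ e ω)) 2 P :=
    memLp_finsetSum _ fun e _ => hF.comp_measurePreserving (hτ e)
  exact this.const_mul _

theorem TL_toLp (hτ : ∀ e, MeasurePreserving (τ e) P P) {F : Ω → ℝ} (hF : MemLp F 2 P) :
    TL hτ (hF.toLp F) = (T_memLp hτ hF).toLp _ := by
  rw [TL_apply]
  apply Lp.ext
  refine (Lp.coeFn_smul _ _).trans ?_
  have h1 : ∀ e, (Lp.compMeasurePreserving (τ e) (hτ e) (hF.toLp F) : Lp ℝ 2 P) =ᵐ[P]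
      fun ω => F (τ e ω) := fun e => by
    rw [Lp.toLp_compMeasurePreserving hF (hτ e)]
    exact MemLp.coeFn_toLp _
  have h2 : ((∑ e, Lp.compMeasurePreserving (τ e) (hτ e) (hF.toLp F) : Lp ℝ 2 P) : Ω → ℝ) =ᵐ[P]
      fun ω => ∑ e, F (τ e ω) := by
    refine (Lp.coeFn_finsetSum _ _).trans ?_
    have := (eventually_all (l := ae P)).2 h1
    filter_upwards [this] with ω hω
    rw [Finset.sum_apply]
    exact Finset.sum_congr rfl fun e _ => hω e
  filter_upwards [h2, MemLp.coeFn_toLp (T_memLp hτ hF)] with ω h3 h4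
  rw [h4, Pi.smul_apply, h3, T, smul_eq_mul]

theorem iter_memLp (hτ : ∀ e, MeasurePreserving (τ e) P P) {F : Ω → ℝ} (hF : MemLp F 2 P) (n : ℕ) :
    MemLp ((T τ)^[n] F) 2 P := by
  induction n with
  | zero => exact hF
  | succ n ih => rw [iter_succ]; exact T_memLp hτ ih

theorem TL_iter (hτ : ∀ e, MeasurePreserving (τ e) P P) {F : Ω → ℝ} (hF : MemLp F 2 P) (n : ℕ) :
    (TL hτ)^[n] (hF.toLp F) = (iter_memLp hτ hF n).toLp _ := by
  induction n with
  | zero => rfl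
  | succ n ih =>
    rw [Function.iterate_succ_apply', ih, TL_toLp]
    congr 1
    exact (iter_succ n F).symm

omit [IsProbabilityMeasure P] in
theorem l1_norm {f : Ω → ℝ} (hf : AEStronglyMeasurable f P) :
    ∫ ω, |f ω| ∂P = (eLpNorm f 1 P).toReal := by
  have := integral_norm_eq_lintegral_enorm (μ := P) hf
  rw [eLpNorm_one_eq_lintegral_enorm, ← this]
  rfl

theorem l1_le_l2 {f : Ω → ℝ} (hf : MemLp f 2 P) : ∫ ω, |f ω| ∂P ≤ ‖hf.toLp f‖ := by
  rw [Lp.norm_toLp, l1_norm hf.1]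
  exact ENNReal.toReal_mono hf.2.ne (eLpNorm_le_eLpNorm_of_exponent_le (by norm_num) hf.1)

theorem memLp_bdd {F : Ω → ℝ} (hFm : Measurable F) {C : ℝ} (hC : ∀ ω, |F ω| ≤ C) (p : ℝ≥0∞) :
    MemLp F p P :=
  MemLp.of_bound hFm.aestronglyMeasurable C (Eventually.of_forall hC)

theorem mean_conv (hτ : ∀ e, MeasurePreserving (τ e) P P) {e0 : E} (he : Ergodic (τ e0) P)
    {F : Ω → ℝ} (hFm : Measurable F) {C : ℝ} (hC : ∀ ω, |F ω| ≤ C) {ε : ℝ} (hε : 0 < ε) :
    ∃ n : ℕ, 0 < n ∧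
      ∫ ω, |(n : ℝ)⁻¹ * ∑ k ∈ Finset.range n, (T τ)^[k] F ω - ∫ ω, F ω ∂P| ∂P ≤ ε := by
  set m := ∫ ω, F ω ∂P with hm
  set F' : Ω → ℝ := F - fun _ => m with hF'
  have hF'm : Measurable F' := hFm.sub measurable_const
  have hFi : Integrable F P := (memLp_bdd hFm hC 1).integrable le_rfl
  have hF'2 : MemLp F' 2 P := (memLp_bdd hFm hC 2).sub (memLp_const m)
  set x := hF'2.toLp F' with hx
  have h1L : MemLp (fun _ : Ω => (1 : ℝ)) 2 P := memLp_const 1
  set one := h1L.toLp _ with hone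
  set K := (TL hτ).eqLocus (1 : Lp ℝ 2 P →L[ℝ] Lp ℝ 2 P) with hK
  set g : Lp ℝ 2 P := (K.orthogonalProjectionOnto x : Lp ℝ 2 P) with hg
  have hgK : TL hτ g = g := (K.orthogonalProjectionOnto x).2
  have honeK : one ∈ K := by
    change TL hτ one = one
    rw [hone, TL_toLp]
    congr 1
    exact T_const 1
  obtain ⟨c, hc⟩ := TL_fix hτ he hgK
  have hort : ⟪one, x - g⟫ = 0 := by
    have : x - g ∈ Kᗮ := K.sub_starProjection_mem_orthogonal x
    exact (Submodule.mem_orthogonal K (x - g)).1 this one honeK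
  have hxi : ⟪one, x⟫ = 0 := by
    rw [MeasureTheory.L2.inner_def]
    have : (fun a => ⟪(one : Ω → ℝ) a, (x : Ω → ℝ) a⟫) =ᵐ[P] F' := by
      filter_upwards [MemLp.coeFn_toLp h1L, MemLp.coeFn_toLp hF'2] with ω h1 h2
      rw [hone, hx, h1, h2]; simp
    rw [integral_congr_ae this, hF']
    change ∫ ω, (F ω - m) ∂P = 0
    rw [integral_sub hFi (integrable_const _), integral_const]
    simp [hm]
  have hgi : ⟪one, g⟫ = c := by
    rw [MeasureTheory.L2.inner_def]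
    have : (fun a => ⟪(one : Ω → ℝ) a, (g : Ω → ℝ) a⟫) =ᵐ[P] fun _ => c := by
      filter_upwards [MemLp.coeFn_toLp h1L, hc] with ω h1 h2
      rw [hone, h1, h2]; simp
    rw [integral_congr_ae this]
    simp
  have hc0 : c = 0 := by
    rw [inner_sub_right, hxi, hgi] at hort; linarith
  have hg0 : g = 0 := by
    apply Lp.ext
    filter_upwards [hc, Lp.coeFn_zero ℝ 2 P] with ω h1 h2
    rw [h1, h2, hc0]; rfl
  have hlim := ContinuousLinearMap.tendsto_birkhoffAverage_orthogonalProjection (TL hτ)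
    (TL_norm hτ) x
  change Tendsto _ atTop (𝓝 g) at hlim
  rw [hg0] at hlim
  have hlim2 := (tendsto_zero_iff_norm_tendsto_zero.1 hlim)
  obtain ⟨n, hn, hn0⟩ := ((hlim2.eventually (gt_mem_nhds hε)).and (eventually_gt_atTop 0)).exists
  refine ⟨n, hn0, ?_⟩
  have hn0' : (0 : ℝ) < n := by exact_mod_cast hn0
  set A : Ω → ℝ := fun ω => (n : ℝ)⁻¹ * ∑ k ∈ Finset.range n, (T τ)^[k] F' ω with hA
  have hA2 : MemLp A 2 P := by
    have : MemLp (fun ω => ∑ k ∈ Finset.range n, (T τ)^[k] F' ω) 2 P :=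
      memLp_finsetSum _ fun k _ => iter_memLp hτ hF'2 k
    exact this.const_mul _
  have hAL : hA2.toLp A = birkhoffAverage ℝ (TL hτ) _root_.id n x := by
    apply Lp.ext
    rw [birkhoffAverage, birkhoffSum]
    refine EventuallyEq.trans ?_ (Lp.coeFn_smul _ _).symm
    have h1 : ∀ k : ℕ, ((TL hτ)^[k] x : Lp ℝ 2 P) =ᵐ[P] (T τ)^[k] F' := fun k => by
      rw [hx, TL_iter]
      exact MemLp.coeFn_toLp _
    have h2 : ((∑ k ∈ Finset.range n, _root_.id ((TL hτ)^[k] x) : Lp ℝ 2 P) : Ω → ℝ) =ᵐ[P]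
        fun ω => ∑ k ∈ Finset.range n, (T τ)^[k] F' ω := by
      refine (Lp.coeFn_finsetSum _ _).trans ?_
      have := (ae_all_iff (μ := P)).2 h1
      filter_upwards [this] with ω hω
      rw [Finset.sum_apply]
      exact Finset.sum_congr rfl fun k _ => hω k
    filter_upwards [h2, MemLp.coeFn_toLp hA2] with ω h3 h4
    rw [h4, Pi.smul_apply, h3, smul_eq_mul]
  have hle := l1_le_l2 hA2
  rw [hAL] at hle
  have e : ∀ ω, A ω = (n : ℝ)⁻¹ * ∑ k ∈ Finset.range n, (T τ)^[k] F ω - m := by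
    intro ω
    simp only [hA, hF', iter_sub, iter_const, Pi.sub_apply, Finset.sum_sub_distrib,
      Finset.sum_const, Finset.card_range, nsmul_eq_mul, mul_sub]
    field_simp
  simp only [e] at hle
  exact hle.trans hn.le

theorem T_bdd {F : Ω → ℝ} {C : ℝ} (hC : ∀ ω, |F ω| ≤ C) (n : ℕ) (ω : Ω) :
    |(T τ)^[n] F ω| ≤ C := by
  refine (iter_abs F n ω).trans ?_
  have := iter_mono (τ := τ) (F := fun ω => |F ω|) (G := fun _ => C) hC n ω
  rwa [iter_const] at this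

/-- bounded functions -/
theorem decomp_bdd (hτ : ∀ e, MeasurePreserving (τ e) P P) {e0 : E} (he : Ergodic (τ e0) P)
    {F : Ω → ℝ} (hFm : Measurable F) {C : ℝ} (hC : ∀ ω, |F ω| ≤ C) {ε : ℝ} (hε : 0 < ε) :
    ∃ h : Ω → ℝ, Measurable h ∧ (∃ C', ∀ ω, |h ω| ≤ C') ∧
      ∫ ω, |F ω - ∫ ω, F ω ∂P - (h ω - T τ h ω)| ∂P ≤ ε := by
  obtain ⟨n, hn, hn2⟩ := mean_conv hτ he hFm hC hε
  have hn0' : (0 : ℝ) < n := by exact_mod_cast hn
  set H : ℕ → Ω → ℝ := fun k ω => ∑ j ∈ Finset.range k, (T τ)^[j] F ω with hH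
  have hTH : ∀ k ω, H k ω - T τ (H k) ω = F ω - (T τ)^[k] F ω := by
    intro k ω
    have e1 : T τ (H k) ω = ∑ j ∈ Finset.range k, (T τ)^[j + 1] F ω := by
      simp only [iter_succ, T, hH]
      rw [← Finset.mul_sum, Finset.sum_comm]
    have e2 : H k ω + (T τ)^[k] F ω = ∑ j ∈ Finset.range k, (T τ)^[j + 1] F ω + F ω := by
      have := Finset.sum_range_succ (fun j => (T τ)^[j] F ω) k
      rw [Finset.sum_range_succ'] at this
      simp only [Function.iterate_zero, id] at this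
      simp only [hH]
      exact this.symm
    rw [e1]; linarith
  refine ⟨fun ω => (n : ℝ)⁻¹ * ∑ k ∈ Finset.range n, H k ω, ?_, ?_, ?_⟩
  · refine Measurable.const_mul (Finset.measurable_sum _ fun k _ => ?_) _
    exact Finset.measurable_sum _ fun j _ => iter_meas hτ hFm j
  · refine ⟨(n : ℝ)⁻¹ * ∑ k ∈ Finset.range n, ∑ j ∈ Finset.range k, C, fun ω => ?_⟩
    rw [abs_mul, abs_of_nonneg (by positivity : 0 ≤ (n : ℝ)⁻¹)]
    refine mul_le_mul_of_nonneg_left ?_ (by positivity)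
    refine (Finset.abs_sum_le_sum_abs _ _).trans (Finset.sum_le_sum fun k _ => ?_)
    refine (Finset.abs_sum_le_sum_abs _ _).trans (Finset.sum_le_sum fun j _ => ?_)
    exact T_bdd hC j ω
  · refine le_trans (le_of_eq ?_) hn2
    congr 1
    funext ω
    congr 1
    have e1 : T τ (fun ω => (n : ℝ)⁻¹ * ∑ k ∈ Finset.range n, H k ω) ω =
        (n : ℝ)⁻¹ * ∑ k ∈ Finset.range n, T τ (H k) ω := by
      simp only [T, ← Finset.mul_sum]
      rw [Finset.sum_comm]; ring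
    rw [e1, ← mul_sub, ← Finset.sum_sub_distrib]
    simp only [hTH, Finset.sum_sub_distrib, Finset.sum_const, Finset.card_range, nsmul_eq_mul,
      mul_sub]
    field_simp
    ring

/-- **Coboundary decomposition.** -/
theorem decomp (hτ : ∀ e, MeasurePreserving (τ e) P P) {e0 : E} (he : Ergodic (τ e0) P)
    {V : Ω → ℝ} (hVm : Measurable V) (hV : Integrable V P) {ε : ℝ} (hε : 0 < ε) :
    ∃ h : Ω → ℝ, Measurable h ∧ (∃ C', ∀ ω, |h ω| ≤ C') ∧
      ∫ ω, |V ω - ∫ ω, V ω ∂P - (h ω - T τ h ω)| ∂P ≤ ε := by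
  obtain ⟨g, hg1, hg2⟩ := (memLp_one_iff_integrable.2 hV).exists_simpleFunc_eLpNorm_sub_lt (by simp)
    (ε := ENNReal.ofReal (ε / 3)) (by simp; exact hε)
  obtain ⟨C, hC⟩ := g.exists_forall_norm_le
  obtain ⟨h, hm, hb, hle⟩ := decomp_bdd hτ he g.measurable (C := C) hC (by positivity : 0 < ε / 3)
  refine ⟨h, hm, hb, ?_⟩
  obtain ⟨C', hC'⟩ := hb
  have hgi : Integrable g P := (memLp_bdd g.measurable hC 1).integrable le_rfl
  have hhi : Integrable h P := (memLp_bdd hm hC' 1).integrable le_rfl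
  have hThi : Integrable (T τ h) P := T_int hτ hhi
  have h1 : ∫ ω, |V ω - g ω| ∂P ≤ ε / 3 := by
    have := l1_norm (P := P) (f := V - g) (hV.sub hgi).1
    simp only [Pi.sub_apply] at this
    rw [this]
    exact ENNReal.toReal_le_of_le_ofReal (by positivity) hg1.le
  have h2 : |∫ ω, V ω ∂P - ∫ ω, g ω ∂P| ≤ ε / 3 := by
    rw [← integral_sub hV hgi]
    exact (abs_integral_le_integral_abs).trans h1
  have h3 : ∀ ω, |V ω - ∫ ω, V ω ∂P - (h ω - T τ h ω)| ≤ |V ω - g ω| +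
      (|∫ ω, V ω ∂P - ∫ ω, g ω ∂P| + |g ω - ∫ ω, g ω ∂P - (h ω - T τ h ω)|) := by
    intro ω
    have e1 : V ω - ∫ ω, V ω ∂P - (h ω - T τ h ω) = (V ω - g ω) +
      (-(∫ ω, V ω ∂P - ∫ ω, g ω ∂P) + (g ω - ∫ ω, g ω ∂P - (h ω - T τ h ω))) := by ring
    rw [e1]
    refine (abs_add_le _ _).trans (add_le_add le_rfl ((abs_add_le _ _).trans ?_))
    rw [abs_neg]
  have i1 : Integrable (fun ω => |V ω - g ω|) P := (hV.sub hgi).abs
  have i2 : Integrable (fun ω => |g ω - ∫ ω, g ω ∂P - (h ω - T τ h ω)|) P :=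
    ((hgi.sub (integrable_const _)).sub (hhi.sub hThi)).abs
  have i3 : Integrable (fun ω => |∫ ω, V ω ∂P - ∫ ω, g ω ∂P| +
      |g ω - ∫ ω, g ω ∂P - (h ω - T τ h ω)|) P := (integrable_const _).add i2
  calc ∫ ω, |V ω - ∫ ω, V ω ∂P - (h ω - T τ h ω)| ∂P
      ≤ ∫ ω, (|V ω - g ω| + (|∫ ω, V ω ∂P - ∫ ω, g ω ∂P| +
        |g ω - ∫ ω, g ω ∂P - (h ω - T τ h ω)|)) ∂P :=
        integral_mono ((hV.sub (integrable_const _)).sub (hhi.sub hThi)).abs
          (i1.add i3) h3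
    _ = ∫ ω, |V ω - g ω| ∂P + (|∫ ω, V ω ∂P - ∫ ω, g ω ∂P| +
        ∫ ω, |g ω - ∫ ω, g ω ∂P - (h ω - T τ h ω)| ∂P) := by
        rw [integral_add i1 i3, integral_add (integrable_const _) i2, integral_const]
        simp
    _ ≤ ε := by linarith

end Pool.Agent.H98.Q
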