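import Pool.Agent.H98.Q.Ent

/-!
# First moments against entropy
-/

set_option autoImplicit false

open Real

namespace Pool.Agent.H98.Q

/-- first absolute moment of `φ` under the weights `p` -/
noncomputable def fm {V : Type*} (φ p : V → ℝ) : ℝ := ∑' x, p x * |φ x|

/-- energy of `φ` along the bijections, averaged with `p` -/
noncomputable def en {V J : Type*} [Fintype J] (σ : J → Equiv.Perm V) (φ p : V → ℝ) : ℝ :=
  (Fintype.card J : ℝ)⁻¹ * ∑ j, ∑' x, p x * (φ (σ j x) - φ x) ^ 2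

section

variable {V J : Type*} [Fintype J] {σ : J → Equiv.Perm V} {p φ : V → ℝ}

theorem fin_of_two (hf : p.support.Finite) (s : Equiv.Perm V) {g : V → ℝ}
    (hg : ∀ x, p x = 0 → p (s x) = 0 → g x = 0) : g.support.Finite := by
  refine (hf.union (fin_comp hf s)).subset fun x hx => ?_
  by_contra h
  simp only [Set.mem_union, Function.mem_support, not_or, not_not] at h
  exact hx (hg x h.1 h.2)

theorem fin_of_one (hf : p.support.Finite) {g : V → ℝ}
    (hg : ∀ x, p x = 0 → g x = 0) : g.support.Finite :=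
  hf.subset fun x hx hx0 => hx (hg x hx0)

theorem pt_bound {a b D l : ℝ} (ha : 0 ≤ a) (hb : 0 ≤ b) (hl : 0 < l) :
    |b - a| * |D| ≤ l / 2 * (√a - √b) ^ 2 + l⁻¹ * ((a + b) * D ^ 2) := by
  have h1 : b - a = (√b - √a) * (√b + √a) := by
    nlinarith [Real.mul_self_sqrt ha, Real.mul_self_sqrt hb]
  have h2 : (√b + √a) ^ 2 ≤ 2 * (a + b) := by
    nlinarith [Real.mul_self_sqrt ha, Real.mul_self_sqrt hb, sq_nonneg (√b - √a)]
  have h3 : |b - a| * |D| = |√b - √a| * ((√b + √a) * |D|) := by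
    rw [h1, abs_mul, abs_of_nonneg (by positivity : 0 ≤ √b + √a)]; ring
  rw [h3]
  set u := |√b - √a|
  set v := (√b + √a) * |D|
  have hu : u ^ 2 = (√a - √b) ^ 2 := by rw [sq_abs]; ring
  have hv : v ^ 2 ≤ 2 * (a + b) * D ^ 2 := by
    have : v ^ 2 = (√b + √a) ^ 2 * D ^ 2 := by rw [mul_pow, sq_abs]
    rw [this]; exact mul_le_mul_of_nonneg_right h2 (sq_nonneg _)
  have h4 : u * v ≤ l / 2 * u ^ 2 + l⁻¹ * (v ^ 2 / 2) := by
    have : 0 ≤ l⁻¹ * (l * u - v) ^ 2 / 2 := by positivity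
    have e : l⁻¹ * (l * u - v) ^ 2 / 2 = l / 2 * u ^ 2 - u * v + l⁻¹ * (v ^ 2 / 2) := by
      field_simp; ring
    linarith
  have h5 : l⁻¹ * (v ^ 2 / 2) ≤ l⁻¹ * ((a + b) * D ^ 2) :=
    mul_le_mul_of_nonneg_left (by linarith) (by positivity)
  rw [hu] at h4
  linarith

/-- a family of bijections closed under inverses -/
structure Sym (σ : J → Equiv.Perm V) where
  inv : J → J
  inv_inv : ∀ j, inv (inv j) = j
  eq : ∀ j, σ (inv j) = (σ j)⁻¹

theorem Sym.bij (S : Sym σ) : Function.Bijective S.inv :=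
  (Function.Involutive.bijective S.inv_inv)

theorem Sym.sum (S : Sym σ) (f : J → ℝ) : ∑ j, f (S.inv j) = ∑ j, f j :=
  S.bij.sum_comp f

theorem fm_avg (hf : p.support.Finite) :
    fm φ (avg σ p) = (Fintype.card J : ℝ)⁻¹ * ∑ j, ∑' x, p (σ j x) * |φ x| := by
  unfold fm avg
  have : ∀ x, (Fintype.card J : ℝ)⁻¹ * (∑ j, p (σ j x)) * |φ x| =
      (Fintype.card J : ℝ)⁻¹ * ∑ j, p (σ j x) * |φ x| := fun x => by
    rw [mul_assoc, Finset.sum_mul]
  simp only [this]
  rw [tsum_mul_left, Summable.tsum_finsetSum]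
  intro j _
  exact summable_of_fin (fin_of_one (fin_comp hf (σ j)) fun x hx => by
    rw [show p (σ j x) = 0 from hx, zero_mul])

/-- **The key increment bound.** -/
theorem fm_step [DecidableEq J] (S : Sym σ) (hp : ∀ x, 0 ≤ p x) (hf : p.support.Finite)
    {j0 j1 : J} (hne : j0 ≠ j1) (h0 : σ j0 = 1) {l : ℝ} (hl : 0 < l) :
    fm φ (avg σ p) ≤ fm φ p + (Fintype.card J : ℝ) / 2 * l * (ent (avg σ p) - ent p)
      + l⁻¹ * en σ φ p := by
  have hN : (0 : ℝ) < Fintype.card J := by
    have : 0 < Fintype.card J := Fintype.card_pos_iff.2 ⟨j0⟩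
    exact_mod_cast this
  have hHel : ∀ j, hel (σ j) p ≤ 2 * Fintype.card J * (ent (avg σ p) - ent p) := by
    have key : ∀ j, j0 ≠ j → hel (σ j) p ≤ 2 * Fintype.card J * (ent (avg σ p) - ent p) := by
      intro j hj
      have := ent_avg_ge hp hf hj h0
      have h2 : (2 * Fintype.card J : ℝ)⁻¹ * hel (σ j) p ≤ ent (avg σ p) - ent p := by linarith
      have h3 := mul_le_mul_of_nonneg_left h2 (by positivity : (0 : ℝ) ≤ 2 * Fintype.card J)
      rwa [← mul_assoc, mul_inv_cancel₀ (by positivity), one_mul] at h3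
    intro j
    by_cases hj : j0 = j
    · subst hj
      have e : hel (σ j0) p = 0 := by simp [hel, h0]
      rw [e]
      have h1 := key j1 hne
      have h2 : 0 ≤ hel (σ j1) p := tsum_nonneg fun x => sq_nonneg _
      linarith
    · exact key j hj
  -- the terms
  set a : J → ℝ := fun j => ∑' x, (p (σ j x) - p x) * |φ x| with ha
  set c : J → ℝ := fun j => ∑' x, p x * (φ (σ j x) - φ x) ^ 2 with hc
  have s1 : ∀ j, Summable fun x => (p (σ j x) - p x) * |φ x| := fun j =>
    summable_of_fin (fin_of_two hf (σ j) fun x h1 h2 => by simp [h1, h2])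
  have s1' : ∀ j, Summable fun x => (p x - p (σ j x)) * |φ (σ j x)| := fun j =>
    summable_of_fin (fin_of_two hf (σ j) fun x h1 h2 => by simp [h1, h2])
  have s2 : ∀ j, Summable fun x => p x * (φ (σ j x) - φ x) ^ 2 := fun j =>
    summable_of_fin (fin_of_one hf fun x h1 => by simp [h1])
  have s3 : ∀ j, Summable fun x => p (σ j x) * (φ (σ j x) - φ x) ^ 2 := fun j =>
    summable_of_fin (fin_of_one (fin_comp hf (σ j)) fun x h1 => by
      rw [show p (σ j x) = 0 from h1, zero_mul])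
  have s4 : ∀ j, Summable fun x => (√(p x) - √(p (σ j x))) ^ 2 := fun j =>
    summable_of_fin (hel_fin hf (σ j))
  have hinv : ∀ j, a (S.inv j) = ∑' x, (p x - p (σ j x)) * |φ (σ j x)| := by
    intro j
    simp only [ha]
    rw [← tsum_comp (σ j) (fun x => (p (σ (S.inv j) x) - p x) * |φ x|)]
    refine tsum_congr fun x => ?_
    have : σ (S.inv j) (σ j x) = x := by rw [S.eq]; simp
    rw [this]
  have hcinv : ∀ j, c (S.inv j) = ∑' x, p (σ j x) * (φ (σ j x) - φ x) ^ 2 := by
    intro j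
    simp only [hc]
    rw [← tsum_comp (σ j) (fun x => p x * (φ (σ (S.inv j) x) - φ x) ^ 2)]
    refine tsum_congr fun x => ?_
    have : σ (S.inv j) (σ j x) = x := by rw [S.eq]; simp
    rw [this]; ring
  have hpair : ∀ j, a j + a (S.inv j) ≤ l / 2 * hel (σ j) p + l⁻¹ * (c j + c (S.inv j)) := by
    intro j
    rw [hinv j, hcinv j]
    simp only [ha, hc]
    rw [← (s1 j).tsum_add (s1' j), ← (s2 j).tsum_add (s3 j), hel, ← tsum_mul_left, ← tsum_mul_left,
      ← ((s4 j).mul_left _).tsum_add (((s2 j).add (s3 j)).mul_left _)]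
    refine ((s1 j).add (s1' j)).tsum_le_tsum (fun x => ?_)
      (((s4 j).mul_left _).add (((s2 j).add (s3 j)).mul_left _))
    have e1 := pt_bound (D := φ (σ j x) - φ x) (hp x) (hp (σ j x)) hl
    have e2 : (p (σ j x) - p x) * |φ x| + (p x - p (σ j x)) * |φ (σ j x)| ≤
        |p (σ j x) - p x| * |φ (σ j x) - φ x| := by
      have : (p (σ j x) - p x) * |φ x| + (p x - p (σ j x)) * |φ (σ j x)| =
        (p (σ j x) - p x) * (|φ x| - |φ (σ j x)|) := by ring
      rw [this]
      refine (le_abs_self _).trans ?_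
      rw [abs_mul]
      refine mul_le_mul_of_nonneg_left ?_ (abs_nonneg _)
      rw [abs_sub_comm (φ (σ j x))]
      exact abs_abs_sub_abs_le_abs_sub _ _
    calc _ ≤ _ := e2
      _ ≤ _ := e1
      _ = _ := by ring
  have hsum := Finset.sum_le_sum (fun j (_ : j ∈ Finset.univ) => hpair j)
  rw [Finset.sum_add_distrib, S.sum a, Finset.sum_add_distrib, ← Finset.mul_sum, ← Finset.mul_sum,
    Finset.sum_add_distrib, S.sum c] at hsum
  have hhelsum : ∑ j, hel (σ j) p ≤ Fintype.card J * (2 * Fintype.card J * (ent (avg σ p) - ent p)) := by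
    have := Finset.sum_le_sum (fun j (_ : j ∈ Finset.univ) => hHel j)
    rwa [Finset.sum_const, Finset.card_univ, nsmul_eq_mul] at this
  have hdiff : fm φ (avg σ p) - fm φ p = (Fintype.card J : ℝ)⁻¹ * ∑ j, a j := by
    rw [fm_avg hf]
    have : ∀ j, a j = (∑' x, p (σ j x) * |φ x|) - fm φ p := by
      intro j
      simp only [ha, fm, sub_mul]
      rw [Summable.tsum_sub]
      · exact summable_of_fin (fin_of_one (fin_comp hf (σ j)) fun x hx => by
          rw [show p (σ j x) = 0 from hx, zero_mul])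
      · exact summable_of_fin (fin_of_one hf fun x hx => by simp [hx])
    simp only [this, Finset.sum_sub_distrib, Finset.sum_const, Finset.card_univ, nsmul_eq_mul]
    field_simp
  have hen : en σ φ p = (Fintype.card J : ℝ)⁻¹ * ∑ j, c j := rfl
  have hA : ∑ j, a j ≤ l / 4 * (Fintype.card J * (2 * Fintype.card J * (ent (avg σ p) - ent p)))
      + l⁻¹ * ∑ j, c j := by
    have := mul_le_mul_of_nonneg_left hhelsum (by positivity : 0 ≤ l / 2)
    linarith
  have hfin := mul_le_mul_of_nonneg_left hA (by positivity : 0 ≤ (Fintype.card J : ℝ)⁻¹)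
  rw [← hdiff] at hfin
  rw [hen]
  have e : (Fintype.card J : ℝ)⁻¹ * (l / 4 * (Fintype.card J * (2 * Fintype.card J *
      (ent (avg σ p) - ent p))) + l⁻¹ * ∑ j, c j) =
      (Fintype.card J : ℝ) / 2 * l * (ent (avg σ p) - ent p) +
        l⁻¹ * ((Fintype.card J : ℝ)⁻¹ * ∑ j, c j) := by
    field_simp; ring
  rw [e] at hfin
  linarith

end

end Pool.Agent.H98.Q
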