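import Pool.Agent.H98.Q.Iso

/-!
# Closing the entropy–moment loop
-/

set_option autoImplicit false
set_option linter.unusedSectionVars false
set_option linter.unusedVariables false

open Real

namespace Pool.Agent.H98.Q

theorem log_growth {H : ℕ → ℝ} {d K : ℝ} (hd : 0 < d) (hK : 0 < K) (H0 : 0 ≤ H 0)
    (h : ∀ n, exp (-2 * H n / d) ≤ K * (H (n + 1) - H n)) :
    ∃ C, ∀ n : ℕ, d / 2 * log (n + 1) ≤ H n + C := by
  set c := 2 / (d * K) with hc
  have hc0 : 0 < c := by positivity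
  have key : ∀ n : ℕ, 1 + c * n ≤ exp (2 * H n / d) := by
    intro n
    induction n with
    | zero =>
      simp only [Nat.cast_zero, mul_zero, add_zero]
      exact Real.one_le_exp (by positivity)
    | succ n ih =>
      have e1 : exp (2 * H (n + 1) / d) = exp (2 * H n / d) * exp (2 * (H (n + 1) - H n) / d) := by
        rw [← exp_add]; congr 1; ring
      have e2 : 2 * (H (n + 1) - H n) / d + 1 ≤ exp (2 * (H (n + 1) - H n) / d) :=
        add_one_le_exp _
      have e3 : exp (2 * H n / d) * exp (-2 * H n / d) = 1 := by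
        rw [← exp_add]
        have : 2 * H n / d + -2 * H n / d = 0 := by ring
        rw [this, exp_zero]
      have e4 : c ≤ exp (2 * H n / d) * (2 * (H (n + 1) - H n) / d) := by
        have h1 : exp (-2 * H n / d) / K ≤ H (n + 1) - H n := by
          rw [div_le_iff₀ hK, mul_comm (H (n + 1) - H n)]; exact h n
        have h2 : exp (2 * H n / d) * (2 * (exp (-2 * H n / d) / K) / d) ≤
            exp (2 * H n / d) * (2 * (H (n + 1) - H n) / d) := by
          gcongr
        refine le_trans (le_of_eq ?_) h2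
        rw [hc]
        have : exp (2 * H n / d) * (2 * (exp (-2 * H n / d) / K) / d) =
          (exp (2 * H n / d) * exp (-2 * H n / d)) * (2 / (d * K)) := by
          field_simp
        rw [this, e3, one_mul]
      rw [e1]
      push_cast
      have e5 := mul_le_mul_of_nonneg_left e2 (exp_pos (2 * H n / d)).le
      nlinarith
  set c' := min 1 c with hc'
  have hc'0 : 0 < c' := lt_min one_pos hc0
  refine ⟨-(d / 2 * log c'), fun n => ?_⟩
  have h1 : c' * (n + 1) ≤ exp (2 * H n / d) := by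
    refine le_trans ?_ (key n)
    have a1 : c' ≤ 1 := min_le_left _ _
    have a2 : c' ≤ c := min_le_right _ _
    have a3 : (0 : ℝ) ≤ n := Nat.cast_nonneg n
    nlinarith [mul_le_mul_of_nonneg_right a2 a3]
  have h2 : log (c' * (n + 1)) ≤ 2 * H n / d := by
    rw [← Real.log_exp (2 * H n / d)]
    exact Real.log_le_log (by positivity) h1
  rw [Real.log_mul hc'0.ne' (by positivity)] at h2
  have h3 := mul_le_mul_of_nonneg_left h2 (by positivity : 0 ≤ d / 2)
  have h4 : d / 2 * (2 * H n / d) = H n := by field_simp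
  rw [h4] at h3
  linarith

theorem sqrt_step (n : ℕ) : 1 / √((n : ℝ) + 1) + 2 * √(n : ℝ) ≤ 2 * √((n : ℝ) + 1) := by
  set a := √((n : ℝ) + 1) with ha
  set b := √(n : ℝ) with hb
  have ha0 : 0 < a := Real.sqrt_pos.2 (by positivity)
  have hb0 : 0 ≤ b := Real.sqrt_nonneg _
  have ha2 : a * a = n + 1 := Real.mul_self_sqrt (by positivity)
  have hb2 : b * b = n := Real.mul_self_sqrt (by positivity)
  have : 1 ≤ (2 * a - 2 * b) * a := by
    nlinarith [sq_nonneg (a - b)]
  have h2 : 1 / a ≤ 2 * a - 2 * b := by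
    rw [div_le_iff₀ ha0]; exact this
  linarith

/-- weights `√(k+1)` against entropy increments -/
theorem abel_ent {H : ℕ → ℝ} {d C : ℝ} (hd : 0 ≤ d) (h : ∀ n : ℕ, d / 2 * log (n + 1) ≤ H n + C)
    (n : ℕ) :
    ∑ k ∈ Finset.range n, √((k : ℝ) + 1) * (H (k + 1) - H k) ≤
      √(n : ℝ) * ((H n + C - d / 2 * log (n + 1)) + d) := by
  induction n with
  | zero => simp
  | succ n ih =>
    rw [Finset.sum_range_succ]
    set R : ℕ → ℝ := fun n => H n + C - d / 2 * log (n + 1) with hR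
    have hR0 : 0 ≤ R n := by simp only [hR]; linarith [h n]
    have hR1 : 0 ≤ R (n + 1) := by simp only [hR]; linarith [h (n + 1)]
    set a := √((n : ℝ) + 1) with ha
    set b := √(n : ℝ) with hb
    have ha0 : 0 < a := Real.sqrt_pos.2 (by positivity)
    have hb0 : 0 ≤ b := Real.sqrt_nonneg _
    have hab : b ≤ a := Real.sqrt_le_sqrt (by linarith)
    have ha2 : a * a = n + 1 := Real.mul_self_sqrt (by positivity)
    have hlog : log ((n : ℝ) + 1 + 1) - log (n + 1) ≤ 1 / (n + 1) := by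
      rw [← Real.log_div (by positivity) (by positivity)]
      have := Real.log_le_sub_one_of_pos (x := ((n : ℝ) + 1 + 1) / (n + 1)) (by positivity)
      refine this.trans (le_of_eq ?_)
      field_simp; ring
    have hDelta : H (n + 1) - H n = R (n + 1) - R n +
        d / 2 * (log ((n : ℝ) + 1 + 1) - log (n + 1)) := by
      simp only [hR]; push_cast; ring
    have h1 : a * (H (n + 1) - H n) ≤ a * (R (n + 1) - R n) + d / 2 * (1 / a) := by
      rw [hDelta, mul_add]
      have : a * (d / 2 * (log ((n : ℝ) + 1 + 1) - log (n + 1))) ≤ a * (d / 2 * (1 / (n + 1))) := by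
        gcongr
      have e : a * (d / 2 * (1 / ((n : ℝ) + 1))) = d / 2 * (1 / a) := by
        rw [← ha2]; field_simp
      linarith
    have h2 := sqrt_step n
    have h3 : b * R n ≤ a * R n := mul_le_mul_of_nonneg_right hab hR0
    have h4 : ∑ k ∈ Finset.range n, √((k : ℝ) + 1) * (H (k + 1) - H k) ≤ b * (R n + d) := ih
    have h5 : √((n + 1 : ℕ) : ℝ) = a := by push_cast; rfl
    have h6 : H (n + 1) + C - d / 2 * log ((n + 1 : ℕ) + 1) = R (n + 1) := by
      simp only [hR]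
    rw [h5, h6]
    have h7 := mul_le_mul_of_nonneg_left h2 (by positivity : 0 ≤ d / 2)
    nlinarith

/-- weights `1/√(k+1)` against energies -/
theorem abel_en {E : ℕ → ℝ} {B : ℝ} (h : ∀ n : ℕ, ∑ k ∈ Finset.range n, E k ≤ B * n) (hB : 0 ≤ B)
    (n : ℕ) :
    ∑ k ∈ Finset.range n, (√((k : ℝ) + 1))⁻¹ * E k ≤ 2 * B * √(n : ℝ) := by
  have key : ∀ n : ℕ, ∑ k ∈ Finset.range n, (√((k : ℝ) + 1))⁻¹ * E k ≤
      (∑ k ∈ Finset.range n, E k - B * n) * (√((n : ℝ) + 1))⁻¹ + 2 * B * √(n : ℝ) := by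
    intro n
    induction n with
    | zero => simp
    | succ n ih =>
      rw [Finset.sum_range_succ, Finset.sum_range_succ]
      set T := ∑ k ∈ Finset.range n, (√((k : ℝ) + 1))⁻¹ * E k
      set s := ∑ k ∈ Finset.range n, E k with hs
      have hs1 : s + E n ≤ B * (n + 1) := by
        have := h (n + 1)
        rw [Finset.sum_range_succ] at this
        push_cast at this
        exact this
      set a := √((n : ℝ) + 1) with ha
      set a2 := √((n : ℝ) + 1 + 1) with ha2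
      set b := √(n : ℝ) with hb
      have ha0 : 0 < a := Real.sqrt_pos.2 (by positivity)
      have haa : a ≤ a2 := Real.sqrt_le_sqrt (by linarith)
      have hinv : a2⁻¹ ≤ a⁻¹ := inv_anti₀ ha0 haa
      have h2 := sqrt_step n
      rw [one_div] at h2
      have h3 := mul_le_mul_of_nonneg_left h2 hB
      have h4 : (s + E n - B * (n + 1)) * a⁻¹ ≤ (s + E n - B * (n + 1)) * a2⁻¹ :=
        mul_le_mul_of_nonpos_left hinv (by linarith)
      push_cast
      have h5 : T ≤ (s - B * n) * a⁻¹ + 2 * B * b := ih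
      have h6 : T + a⁻¹ * E n ≤ (s + E n - B * (n + 1)) * a⁻¹ + B * (a⁻¹ + 2 * b) := by
        nlinarith
      linarith
  refine (key n).trans ?_
  have h1 : (∑ k ∈ Finset.range n, E k - B * n) * (√((n : ℝ) + 1))⁻¹ ≤ 0 :=
    mul_nonpos_of_nonpos_of_nonneg (by linarith [h n]) (by positivity)
  linarith

/-- summed increment bound -/
theorem sum_step {H M E : ℕ → ℝ} {N : ℝ}
    (hM : ∀ n, ∀ l : ℝ, 0 < l → M (n + 1) ≤ M n + N / 2 * l * (H (n + 1) - H n) + l⁻¹ * E n)
    {l : ℝ} (hl : 0 < l) (n : ℕ) :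
    M n ≤ M 0 + N / 2 * l * ∑ k ∈ Finset.range n, √((k : ℝ) + 1) * (H (k + 1) - H k) +
      l⁻¹ * ∑ k ∈ Finset.range n, (√((k : ℝ) + 1))⁻¹ * E k := by
  induction n with
  | zero => simp
  | succ n ih =>
    rw [Finset.sum_range_succ, Finset.sum_range_succ]
    have ha0 : 0 < √((n : ℝ) + 1) := Real.sqrt_pos.2 (by positivity)
    have := hM n (l * √((n : ℝ) + 1)) (by positivity)
    rw [mul_inv] at this
    nlinarith

theorem moment_bound {H M E : ℕ → ℝ} {N d C B : ℝ} (hd : 0 ≤ d) (hN : 0 ≤ N)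
    (hM : ∀ n, ∀ l : ℝ, 0 < l → M (n + 1) ≤ M n + N / 2 * l * (H (n + 1) - H n) + l⁻¹ * E n)
    (hH : ∀ n : ℕ, d / 2 * log (n + 1) ≤ H n + C) (hB : 0 ≤ B)
    (hE : ∀ n : ℕ, ∑ k ∈ Finset.range n, E k ≤ B * n) {l : ℝ} (hl : 0 < l) (n : ℕ) :
    M n ≤ M 0 + √(n : ℝ) * (N / 2 * l * ((H n + C - d / 2 * log (n + 1)) + d) + 2 * B * l⁻¹) := by
  have h1 := sum_step hM hl n
  have h2 := mul_le_mul_of_nonneg_left (abel_ent hd hH n) (by positivity : 0 ≤ N / 2 * l)
  have h3 := mul_le_mul_of_nonneg_left (abel_en hE hB n) (by positivity : 0 ≤ l⁻¹)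
  linarith

/-- closing the loop -/
theorem R_bound {H M E : ℕ → ℝ} {N d C B : ℝ} (hd : 0 ≤ d) (hN : 0 < N)
    (hM : ∀ n, ∀ l : ℝ, 0 < l → M (n + 1) ≤ M n + N / 2 * l * (H (n + 1) - H n) + l⁻¹ * E n)
    (hM0 : 0 ≤ M 0)
    (hH : ∀ n : ℕ, d / 2 * log (n + 1) ≤ H n + C) (hB : 0 ≤ B)
    (hE : ∀ n : ℕ, ∑ k ∈ Finset.range n, E k ≤ B * n)
    (hG : ∀ n, ∀ a : ℝ, 0 < a → H n ≤ a * M n + d * log (1 + 2 / a)) (n : ℕ) :
    H n + C - d / 2 * log (n + 1) ≤ d + 4 * B * N + 2 * M 0 + 2 * (d * log 3) + 2 * C := by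
  set R := H n + C - d / 2 * log (n + 1) with hR
  have h1 := moment_bound hd hN.le hM hH hB hE (l := N⁻¹) (by positivity) n
  rw [← hR, inv_inv] at h1
  have hs : 0 < √((n : ℝ) + 1) := Real.sqrt_pos.2 (by positivity)
  have hR0 : 0 ≤ R := by linarith [hH n]
  have hss : √(n : ℝ) ≤ √((n : ℝ) + 1) := Real.sqrt_le_sqrt (by linarith)
  have hX : 0 ≤ N / 2 * N⁻¹ * (R + d) + 2 * B * N := by positivity
  have e1 : 1 ≤ √((n : ℝ) + 1) := by
    rw [Real.one_le_sqrt]; linarith [Nat.cast_nonneg (α := ℝ) n]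
  have h2 : M n ≤ √((n : ℝ) + 1) * (M 0 + (N / 2 * N⁻¹ * (R + d) + 2 * B * N)) := by
    have h21 := mul_le_mul_of_nonneg_right hss hX
    have h22 := mul_le_mul_of_nonneg_right e1 hM0
    linarith
  have h3 := hG n (√((n : ℝ) + 1))⁻¹ (by positivity)
  have h4 : (√((n : ℝ) + 1))⁻¹ * M n ≤ M 0 + (N / 2 * N⁻¹ * (R + d) + 2 * B * N) := by
    rw [inv_mul_le_iff₀ hs]; exact h2
  have h5 : N / 2 * N⁻¹ = 1 / 2 := by field_simp
  rw [h5] at h4
  have h6 : log (1 + 2 / (√((n : ℝ) + 1))⁻¹) ≤ log 3 + 1 / 2 * log (n + 1) := by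
    rw [div_inv_eq_mul]
    have e2 : log (1 + 2 * √((n : ℝ) + 1)) ≤ log (3 * √((n : ℝ) + 1)) :=
      Real.log_le_log (by positivity) (by linarith)
    rw [Real.log_mul (by norm_num) hs.ne', Real.log_sqrt (by positivity)] at e2
    linarith
  have h7 := mul_le_mul_of_nonneg_left h6 hd
  have h8 : H n ≤ M 0 + (1 / 2 * (R + d) + 2 * B * N) + d * (log 3 + 1 / 2 * log (n + 1)) := by
    linarith
  nlinarith

end Pool.Agent.H98.Q
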