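import Pool.Agent.H98.Q.Core

/-!
# One-step walks on a set of lattice sites
-/

set_option autoImplicit false
set_option linter.unusedSectionVars false
set_option linter.unusedVariables false

open Real Function

namespace Pool.Agent.H98.Q

theorem sum_avg_mul {V J : Type*} [Fintype J] {σ : J → Equiv.Perm V} (S : Sym σ) {p : V → ℝ}
    (hf : p.support.Finite) (G : V → ℝ) :
    ∑' x, avg σ p x * G x = ∑' x, p x * ((Fintype.card J : ℝ)⁻¹ * ∑ j, G (σ j x)) := by
  have e1 : ∀ x, avg σ p x * G x = (Fintype.card J : ℝ)⁻¹ * ∑ j, p (σ j x) * G x := fun x => by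
    rw [avg, mul_assoc, Finset.sum_mul]
  have e2 : ∀ x, p x * ((Fintype.card J : ℝ)⁻¹ * ∑ j, G (σ j x)) =
      (Fintype.card J : ℝ)⁻¹ * ∑ j, p x * G (σ j x) := fun x => by
    rw [← Finset.mul_sum]; ring
  simp only [e1, e2]
  rw [tsum_mul_left, tsum_mul_left, Summable.tsum_finsetSum, Summable.tsum_finsetSum]
  · congr 1
    rw [← S.sum (fun j => ∑' x, p (σ j x) * G x)]
    refine Finset.sum_congr rfl fun j _ => ?_
    rw [← tsum_comp (σ j) (fun x => p (σ (S.inv j) x) * G x)]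
    refine tsum_congr fun x => ?_
    have : σ (S.inv j) (σ j x) = x := by rw [S.eq]; simp
    rw [this]
  · intro j _
    exact summable_of_fin (fin_of_one hf fun x hx => by rw [hx, zero_mul])
  · intro j _
    exact summable_of_fin (fin_of_one (fin_comp hf (σ j)) fun x hx => by
      rw [show p (σ j x) = 0 from hx, zero_mul])

/-- a walk which moves from each site of `A` to `2d` sites, one in each direction -/
structure Walk (ι : Type*) [Fintype ι] [DecidableEq ι] where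
  A : Set (ι → ℤ)
  s : ι × Bool → Equiv.Perm (ι → ℤ)
  zero_mem : (0 : ι → ℤ) ∈ A
  mem : ∀ e, ∀ x ∈ A, s e x ∈ A
  inv : ∀ i, s (i, false) = (s (i, true))⁻¹
  fwd : ∀ i, Fwd A i (s (i, true))

theorem sum_pair {E : Type*} [Fintype E] (f : E → E → ℝ) :
    ∑ j : E × E, f j.1 j.2 = ∑ e', ∑ e, f e e' :=
  Fintype.sum_prod_type_right (fun j : E × E => f j.1 j.2)

/-- reversal of directions -/
def neg {ι : Type*} (e : ι × Bool) : ι × Bool := (e.1, !e.2)

@[simp] theorem neg_neg' {ι : Type*} (e : ι × Bool) : neg (neg e) = e := by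
  simp [neg]

namespace Walk

variable {ι : Type*} [Fintype ι] [DecidableEq ι] (W : Walk ι)

theorem s_neg (e : ι × Bool) : W.s (neg e) = (W.s e)⁻¹ := by
  obtain ⟨i, b⟩ := e
  cases b
  · simp only [neg, Bool.not_false]; rw [W.inv i, inv_inv]
  · simp only [neg, Bool.not_true]; rw [W.inv i]

def sym : Sym W.s where
  inv := neg
  inv_inv := neg_neg'
  eq := W.s_neg

/-- the law of the walk after `n` steps -/
noncomputable def q : ℕ → (ι → ℤ) → ℝ
  | 0 => Pi.single 0 1
  | n + 1 => avg W.s (q n)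

theorem q_nonneg (n : ℕ) (x : ι → ℤ) : 0 ≤ W.q n x := by
  induction n generalizing x with
  | zero =>
    rw [q]
    by_cases h : x = 0
    · subst h; simp
    · simp [h]
  | succ n ih => exact avg_nonneg ih x

theorem q_fin (n : ℕ) : (W.q n).support.Finite := by
  induction n with
  | zero =>
    rw [q]
    exact (Set.finite_singleton (0 : ι → ℤ)).subset (fun x hx => by
      by_contra h
      exact hx (by rw [Pi.single_apply, if_neg (by simpa using h)]))
  | succ n ih => exact avg_fin ih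

theorem q_succ {n : ℕ} {x : ι → ℤ} (hx : W.q (n + 1) x ≠ 0) :
    ∃ e z, W.q n z ≠ 0 ∧ x = W.s e z := by
  rw [q, avg] at hx
  have h1 : ∑ j, W.q n (W.s j x) ≠ 0 := right_ne_zero_of_mul hx
  obtain ⟨j, _, hj⟩ := Finset.exists_ne_zero_of_sum_ne_zero h1
  refine ⟨neg j, _, hj, ?_⟩
  rw [s_neg]; simp

theorem q_zero {x : ι → ℤ} (hx : W.q 0 x ≠ 0) : x = 0 := by
  rw [q, Pi.single_apply] at hx
  by_contra h
  exact hx (if_neg h)

theorem q_mem (n : ℕ) (x : ι → ℤ) (hx : W.q n x ≠ 0) : x ∈ W.A := by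
  induction n generalizing x with
  | zero => rw [W.q_zero hx]; exact W.zero_mem
  | succ n ih =>
    obtain ⟨e, z, hz, rfl⟩ := W.q_succ hx
    exact W.mem e z (ih z hz)

theorem fm_zero (φ : (ι → ℤ) → ℝ) : fm φ (W.q 0) = |φ 0| := by
  rw [fm, tsum_eq_single 0]
  · simp [q]
  · intro x hx; simp [q, hx]

theorem q_sum [Nonempty ι] (n : ℕ) : ∑' x, W.q n x = 1 := by
  induction n with
  | zero =>
    rw [q]
    exact tsum_pi_single _ _
  | succ n ih => rw [q, tsum_avg (W.q_fin n), ih]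

/-- the two-step system -/
def toSys : Sys ι ((ι × Bool) × (ι × Bool)) where
  σ j := W.s j.1 * W.s j.2
  sym :=
    { inv := fun j => (neg j.2, neg j.1)
      inv_inv := fun j => by simp
      eq := fun j => by simp only [s_neg]; rw [mul_inv_rev] }
  A := W.A
  mem j x hx := W.mem _ _ (W.mem _ _ hx)
  j0 i := ((i, true), (i, false))
  j1 i := ((i, true), (i, true))
  ne i := by simp
  h0 i := by rw [W.inv i]; simp
  fwd i :=
    { mem := fun x hx => W.mem _ _ (W.mem _ _ hx)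
      step := fun x hx => by
        obtain ⟨k, hk, hk2⟩ := (W.fwd i).step x hx
        obtain ⟨k', hk', hk2'⟩ := (W.fwd i).step _ (W.mem (i, true) x hx)
        refine ⟨k + k', by omega, ?_⟩
        change W.s (i, true) (W.s (i, true) x) = _
        rw [hk2', hk2]
        simp [add_assoc] }

theorem avg_two (p : (ι → ℤ) → ℝ) : avg W.s (avg W.s p) = avg W.toSys.σ p := by
  funext x
  simp only [avg, toSys, Equiv.Perm.mul_apply]
  rw [Fintype.card_prod (ι × Bool), sum_pair (fun e e' => p (W.s e (W.s e' x)))]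
  push_cast
  rw [← Finset.mul_sum, mul_inv, ← mul_assoc]

theorem init (m : ℕ) [Nonempty ι] : W.toSys.Init (W.q m) where
  nonneg := W.q_nonneg m
  fin := W.q_fin m
  mem := W.q_mem m
  sum := W.q_sum m

theorem p_eq (m n : ℕ) : W.toSys.p (W.q m) n = W.q (m + 2 * n) := by
  induction n with
  | zero => rfl
  | succ n ih =>
    rw [Sys.p, ih, ← avg_two]
    rfl

/-- energy of two steps -/
theorem en_two {p : (ι → ℤ) → ℝ} (hp : ∀ x, 0 ≤ p x) (hf : p.support.Finite)
    (φ : (ι → ℤ) → ℝ) [Nonempty ι] :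
    en W.toSys.σ φ p ≤ 2 * (en W.s φ p + en W.s φ (avg W.s p)) := by
  set c : ℝ := (Fintype.card (ι × Bool) : ℝ)⁻¹ with hc
  have hc0 : 0 < c := by positivity
  have hfs : ∀ f : (ι → ℤ) → ℝ, Summable fun x => p x * f x := fun f =>
    summable_of_fin (fin_of_one hf fun x hx => by rw [hx, zero_mul])
  have hE1 : en W.s φ p = ∑' x, p x * (c * ∑ e, (φ (W.s e x) - φ x) ^ 2) := by
    rw [en, ← hc]
    have : ∀ x, p x * (c * ∑ e, (φ (W.s e x) - φ x) ^ 2) =
        c * ∑ e, p x * (φ (W.s e x) - φ x) ^ 2 := fun x => by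
      rw [← Finset.mul_sum]; ring
    simp only [this]
    rw [tsum_mul_left, Summable.tsum_finsetSum (fun e _ => hfs _)]
  have hE2 : en W.s φ (avg W.s p) = ∑' x, p x * (c * ∑ e', c * ∑ e,
      (φ (W.s e (W.s e' x)) - φ (W.s e' x)) ^ 2) := by
    have h1 : en W.s φ (avg W.s p) = ∑' x, avg W.s p x * (c * ∑ e, (φ (W.s e x) - φ x) ^ 2) := by
      rw [en, ← hc]
      have : ∀ x, avg W.s p x * (c * ∑ e, (φ (W.s e x) - φ x) ^ 2) =
          c * ∑ e, avg W.s p x * (φ (W.s e x) - φ x) ^ 2 := fun x => by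
        rw [← Finset.mul_sum]; ring
      simp only [this]
      rw [tsum_mul_left, Summable.tsum_finsetSum (fun e _ =>
        summable_of_fin (fin_of_one (avg_fin hf) fun x hx => by rw [hx, zero_mul]))]
    rw [h1, sum_avg_mul W.sym hf]
  have hE3 : en W.toSys.σ φ p = ∑' x, p x * (c * ∑ e', c * ∑ e,
      (φ (W.s e (W.s e' x)) - φ x) ^ 2) := by
    rw [en]
    have h1 : ∀ x, p x * (c * ∑ e', c * ∑ e, (φ (W.s e (W.s e' x)) - φ x) ^ 2) =
        (Fintype.card ((ι × Bool) × (ι × Bool)) : ℝ)⁻¹ *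
          ∑ j, p x * (φ (W.toSys.σ j x) - φ x) ^ 2 := fun x => by
      simp only [toSys, Equiv.Perm.mul_apply]
      rw [Fintype.card_prod (ι × Bool), ← Finset.mul_sum, ← Finset.mul_sum,
        sum_pair (fun e e' => (φ (W.s e (W.s e' x)) - φ x) ^ 2)]
      push_cast
      rw [mul_inv, hc]
      ring
    simp only [h1]
    rw [tsum_mul_left, Summable.tsum_finsetSum (fun e _ => hfs _)]
  rw [hE1, hE2, hE3, ← (hfs _).tsum_add (hfs _), ← tsum_mul_left]
  refine (hfs _).tsum_le_tsum (fun x => ?_) (((hfs _).add (hfs _)).mul_left _)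
  have hc1 : c * ∑ e' : ι × Bool, (1 : ℝ) = 1 := by
    rw [Finset.sum_const, Finset.card_univ, nsmul_eq_mul, mul_one, hc]
    exact inv_mul_cancel₀ (by positivity)
  have key : c * ∑ e', c * ∑ e, (φ (W.s e (W.s e' x)) - φ x) ^ 2 ≤
      2 * ((c * ∑ e', (φ (W.s e' x) - φ x) ^ 2) +
        c * ∑ e', c * ∑ e, (φ (W.s e (W.s e' x)) - φ (W.s e' x)) ^ 2) := by
    rw [← mul_add, ← Finset.sum_add_distrib, mul_left_comm, Finset.mul_sum (a := (2 : ℝ))]
    refine mul_le_mul_of_nonneg_left (Finset.sum_le_sum fun e' _ => ?_) hc0.le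
    have h2 : (φ (W.s e' x) - φ x) ^ 2 = c * ∑ e : ι × Bool, (φ (W.s e' x) - φ x) ^ 2 := by
      rw [← mul_one ((φ (W.s e' x) - φ x) ^ 2), ← Finset.mul_sum, mul_left_comm, hc1]
    rw [h2, ← mul_add, ← Finset.sum_add_distrib, mul_left_comm, Finset.mul_sum (a := (2 : ℝ))]
    refine mul_le_mul_of_nonneg_left (Finset.sum_le_sum fun e _ => ?_) hc0.le
    nlinarith [sq_nonneg ((φ (W.s e' x) - φ x) - (φ (W.s e (W.s e' x)) - φ (W.s e' x)))]
  have := mul_le_mul_of_nonneg_left key (hp x)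
  linarith

/-- **Nash–Bass bound for the one-step walk.** -/
theorem core (hd : 1 < Fintype.card ι) {B : ℝ} (hB : 0 ≤ B)
    (hE : ∀ n : ℕ, ∑ k ∈ Finset.range n, en W.s nrm (W.q k) ≤ B * n) :
    ∃ R : ℝ, 0 ≤ R ∧ ∀ (φ : (ι → ℤ) → ℝ) (B' : ℝ), 0 ≤ B' →
      (∀ n : ℕ, ∑ k ∈ Finset.range n, en W.s φ (W.q k) ≤ B' * n) →
      ∀ l : ℝ, 0 < l → ∀ n : ℕ,
        fm φ (W.q n) ≤ |φ 0| + fm φ (W.q 1) + √(n : ℝ) * (R * l + 12 * B' * l⁻¹) := by
  have hι : Nonempty ι := Fintype.card_pos_iff.1 (by omega)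
  -- energies of the two chains
  have tw : ∀ (φ : (ι → ℤ) → ℝ) (B' : ℝ), 0 ≤ B' →
      (∀ n : ℕ, ∑ k ∈ Finset.range n, en W.s φ (W.q k) ≤ B' * n) → ∀ m : ℕ, m ≤ 1 → ∀ n : ℕ,
      ∑ k ∈ Finset.range n, en W.toSys.σ φ (W.toSys.p (W.q m) k) ≤ 6 * B' * n := by
    intro φ B' hB' h m hm n
    have h1 : ∀ k, en W.toSys.σ φ (W.toSys.p (W.q m) k) ≤
        2 * (en W.s φ (W.q (m + 2 * k)) + en W.s φ (W.q (m + 2 * k + 1))) := by
      intro k
      rw [p_eq]
      exact W.en_two (W.q_nonneg _) (W.q_fin _) φ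
    have h0 : ∀ k, 0 ≤ en W.s φ (W.q k) := fun k => en_nonneg _ _ (W.q_nonneg k)
    have h2 : ∀ n : ℕ, ∑ k ∈ Finset.range n, (en W.s φ (W.q (m + 2 * k)) +
        en W.s φ (W.q (m + 2 * k + 1))) ≤ ∑ k ∈ Finset.range (m + 2 * n), en W.s φ (W.q k) := by
      intro n
      induction n with
      | zero => simp; exact Finset.sum_nonneg fun k _ => h0 k
      | succ n ih =>
        rw [Finset.sum_range_succ, show m + 2 * (n + 1) = m + 2 * n + 1 + 1 by ring,
          Finset.sum_range_succ, Finset.sum_range_succ]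
        linarith
    rcases Nat.eq_zero_or_pos n with hn | hn
    · subst hn; simp
    · calc _ ≤ ∑ k ∈ Finset.range n, 2 * (en W.s φ (W.q (m + 2 * k)) +
            en W.s φ (W.q (m + 2 * k + 1))) := Finset.sum_le_sum fun k _ => h1 k
        _ = 2 * ∑ k ∈ Finset.range n, (en W.s φ (W.q (m + 2 * k)) +
            en W.s φ (W.q (m + 2 * k + 1))) := by rw [Finset.mul_sum]
        _ ≤ 2 * (B' * (m + 2 * n : ℕ)) := by
            have := (h2 n).trans (h (m + 2 * n)); linarith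
        _ ≤ _ := by
            have e1 : ((m + 2 * n : ℕ) : ℝ) ≤ 3 * n := by
              have : m + 2 * n ≤ 3 * n := by omega
              exact_mod_cast this
            have := mul_le_mul_of_nonneg_left e1 hB'
            linarith
  obtain ⟨R0, hR0, H0⟩ := Sys.core W.toSys (W.init 0) hd (B := 6 * B) (by positivity)
    (tw nrm B hB hE 0 (by norm_num))
  obtain ⟨R1, hR1, H1⟩ := Sys.core W.toSys (W.init 1) hd (B := 6 * B) (by positivity)
    (tw nrm B hB hE 1 le_rfl)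
  refine ⟨max R0 R1, le_max_of_le_left hR0, fun φ B' hB' h l hl n => ?_⟩
  have hx0 : 0 ≤ |φ 0| := abs_nonneg _
  have hx1 : 0 ≤ fm φ (W.q 1) := tsum_nonneg fun x => mul_nonneg (W.q_nonneg _ _) (abs_nonneg _)
  have fin : ∀ (R' : ℝ), 0 ≤ R' → R' ≤ max R0 R1 → ∀ k : ℕ, k ≤ n →
      √(k : ℝ) * (R' * l + 2 * (6 * B') * l⁻¹) ≤ √(n : ℝ) * (max R0 R1 * l + 12 * B' * l⁻¹) := by
    intro R' h1 h2 k hk
    have e1 : √(k : ℝ) ≤ √(n : ℝ) := Real.sqrt_le_sqrt (by exact_mod_cast hk)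
    have e2 : R' * l ≤ max R0 R1 * l := mul_le_mul_of_nonneg_right h2 hl.le
    have e3 : 0 ≤ l⁻¹ := by positivity
    refine mul_le_mul e1 (by linarith) (by positivity) (Real.sqrt_nonneg _)
  rcases Nat.even_or_odd' n with ⟨k, hk | hk⟩
  · have := H0 φ (6 * B') (by positivity) (tw φ B' hB' h 0 (by norm_num)) l hl k
    rw [p_eq, fm_zero, zero_add, ← hk] at this
    have := fin R0 hR0 (le_max_left _ _) k (by omega)
    linarith
  · have := H1 φ (6 * B') (by positivity) (tw φ B' hB' h 1 le_rfl) l hl k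
    rw [p_eq, add_comm 1, ← hk] at this
    have := fin R1 hR1 (le_max_right _ _) k (by omega)
    linarith

end Walk

end Pool.Agent.H98.Q
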